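import Pool.Agent.LibBR40.Defs

set_option autoImplicit false

/-! BR40 row A1.  Algebra of the coboundary: signs only. -/

namespace LibBR40

variable {n : ℕ} {M : Type*} [AddCommGroup M]

theorem A1_sg_erase_lt {α : Type*} [LinearOrder α] {i j : α} {T : Finset α} (hj : j ∈ T)
    (h : j < i) : sg i (T.erase j) = - sg i T := by
  unfold sg
  have h1 : (T.erase j).filter (fun l => l < i) = (T.filter (fun l => l < i)).erase j := by
    ext l; simp only [Finset.mem_filter, Finset.mem_erase]; tauto
  have h2 : j ∈ T.filter (fun l => l < i) := by simp [hj, h]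
  rw [h1]
  have h3 := Finset.card_erase_add_one h2
  rw [← h3, pow_succ]
  ring

theorem A1_sg_erase_gt {α : Type*} [LinearOrder α] {i j : α} {T : Finset α}
    (h : i ≤ j) : sg i (T.erase j) = sg i T := by
  unfold sg
  have h1 : (T.erase j).filter (fun l => l < i) = T.filter (fun l => l < i) := by
    ext l; simp only [Finset.mem_filter, Finset.mem_erase]
    constructor
    · tauto
    · rintro ⟨h2, h3⟩
      exact ⟨⟨fun h4 => absurd (h4 ▸ h3) (not_lt.2 h), h2⟩, h3⟩
  rw [h1]

theorem A1_anti {α : Type*} [LinearOrder α] {i j : α} {T : Finset α} (hi : i ∈ T) (hj : j ∈ T)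
    (hij : i ≠ j) : sg i T * sg j (T.erase i) = - (sg j T * sg i (T.erase j)) := by
  rcases lt_or_gt_of_ne hij with h | h
  · rw [A1_sg_erase_lt hi h, A1_sg_erase_gt h.le]; ring
  · rw [A1_sg_erase_lt hj h, A1_sg_erase_gt h.le]; ring

theorem dP_dP (P : Finset (Fin n)) (w : Form n M) : dP P (dP P w) = 0 := by
  funext T x
  have key : dP P (dP P w) T x = ∑ p ∈ ((T ∩ P) ×ˢ (T ∩ P)).filter (fun p => p.1 ≠ p.2),
      (sg p.1 T * sg p.2 (T.erase p.1)) •
        ((w ((T.erase p.1).erase p.2) (x + ev p.1 + ev p.2)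
            - w ((T.erase p.1).erase p.2) (x + ev p.1))
          - (w ((T.erase p.1).erase p.2) (x + ev p.2) - w ((T.erase p.1).erase p.2) x)) := by
    rw [Finset.sum_filter, Finset.sum_product]
    unfold dP
    refine Finset.sum_congr rfl fun i hi => ?_
    rw [← Finset.sum_sub_distrib, Finset.smul_sum, ← Finset.sum_filter]
    refine Finset.sum_congr ?_ fun j hj => ?_
    · ext j
      simp only [Finset.mem_inter, Finset.mem_erase, Finset.mem_filter]
      constructor
      · rintro ⟨⟨h1, h2⟩, h3⟩; exact ⟨⟨h2, h3⟩, Ne.symm h1⟩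
      · rintro ⟨⟨h2, h3⟩, h1⟩; exact ⟨⟨Ne.symm h1, h2⟩, h3⟩
    · simp only [mul_smul, smul_sub]
  rw [key]
  refine Finset.sum_involution (fun p _ => (p.2, p.1)) ?_ ?_ ?_ ?_
  · rintro ⟨i, j⟩ hp
    simp only [Finset.mem_filter, Finset.mem_product, Finset.mem_inter] at hp
    obtain ⟨⟨⟨hi, _⟩, ⟨hj, _⟩⟩, hij⟩ := hp
    simp only
    rw [A1_anti hj hi (Ne.symm hij), Finset.erase_right_comm (a := i) (b := j),
      add_right_comm x (ev i) (ev j), neg_smul, ← smul_neg, ← smul_add]
    convert smul_zero _
    abel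
  · rintro ⟨i, j⟩ hp _
    simp only [Finset.mem_filter] at hp
    intro h
    exact hp.2 (congrArg Prod.snd h)
  · rintro ⟨i, j⟩ hp
    simp only [Finset.mem_filter, Finset.mem_product] at hp ⊢
    exact ⟨⟨hp.1.2, hp.1.1⟩, Ne.symm hp.2⟩
  · rintro ⟨i, j⟩ _
    rfl

theorem dP_insert_notMem {P T : Finset (Fin n)} {a : Fin n} (ha : a ∉ T) (w : Form n M)
    (x : Fin n → ℤ) : dP (insert a P) w T x = dP P w T x := by
  unfold dP
  rw [Finset.inter_insert_of_notMem ha]

theorem dP_insert_mem {P T : Finset (Fin n)} {a : Fin n} (haP : ∀ i ∈ P, a < i) (hT : T ⊆ P)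
    (w : Form n M) (x : Fin n → ℤ) :
    dP (insert a P) w (insert a T) x =
      (w T (x + ev a) - w T x) - dP P (fun S y => w (insert a S) y) T x := by
  have haT : a ∉ T := fun h => lt_irrefl _ (haP a (hT h))
  unfold dP
  rw [← Finset.insert_inter_distrib, Finset.inter_eq_left.2 hT, Finset.sum_insert haT]
  have h1 : sg a (insert a T) = 1 := by
    unfold sg
    have : (insert a T).filter (fun j => j < a) = ∅ := by
      ext j
      simp only [Finset.mem_filter, Finset.mem_insert, Finset.notMem_empty, iff_false, not_and,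
        not_lt]
      rintro (h | h)
      · exact h.ge
      · exact (haP j (hT h)).le
    rw [this]; simp
  rw [h1, one_smul, Finset.erase_insert haT,
    sub_eq_add_neg (w T (x + ev a) - w T x) (Finset.sum _ _), ← Finset.sum_neg_distrib]
  congr 1
  refine Finset.sum_congr rfl fun i hi => ?_
  have hai : a < i := haP i (hT hi)
  have h2 : sg i (insert a T) = - sg i T := by
    have := A1_sg_erase_lt (i := i) (T := insert a T) (Finset.mem_insert_self a T) hai
    rw [Finset.erase_insert haT] at this
    rw [this, neg_neg]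
  have h3 : (insert a T).erase i = insert a (T.erase i) := by
    ext l
    simp only [Finset.mem_erase, Finset.mem_insert]
    constructor
    · rintro ⟨h4, h5 | h5⟩
      · exact Or.inl h5
      · exact Or.inr ⟨h4, h5⟩
    · rintro (h5 | ⟨h4, h5⟩)
      · exact ⟨fun h => hai.ne (h5.symm.trans h), Or.inl h5⟩
      · exact ⟨h4, Or.inr h5⟩
  rw [h2, neg_smul, h3]

theorem dP_univ (w : Form n M) : dP Finset.univ w = dd w := by
  funext T x
  unfold dP dd
  rw [Finset.inter_univ]

theorem dd_dd (w : Form n M) : dd (dd w) = 0 := by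
  rw [← dP_univ, ← dP_univ, dP_dP]

theorem dd_add (v w : Form n M) : dd (v + w) = dd v + dd w := by
  funext T x
  simp only [dd, Pi.add_apply]
  rw [← Finset.sum_add_distrib]
  refine Finset.sum_congr rfl fun i _ => ?_
  rw [← smul_add]
  congr 1
  abel

theorem dd_zero : dd (0 : Form n M) = 0 := by
  funext T x
  simp [dd]

theorem dd_zsmul (c : ℤ) (w : Form n M) : dd (c • w) = c • dd w := by
  funext T x
  simp only [dd, Pi.smul_apply]
  rw [Finset.smul_sum]
  refine Finset.sum_congr rfl fun i _ => ?_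
  rw [← smul_sub, smul_comm]

theorem dd_sub (v w : Form n M) : dd (v - w) = dd v - dd w := by
  have h := dd_zsmul (-1) w
  rw [neg_one_smul, neg_one_smul] at h
  rw [sub_eq_add_neg, dd_add, h, sub_eq_add_neg]

theorem dd_sum {α : Type*} (s : Finset α) (w : α → Form n M) :
    dd (∑ j ∈ s, w j) = ∑ j ∈ s, dd (w j) := by
  classical
  induction s using Finset.induction_on with
  | empty => simp [dd_zero]
  | insert a s ha ih => rw [Finset.sum_insert ha, Finset.sum_insert ha, dd_add, ih]

end LibBR40
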