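import Pool.Agent.LibBR40.A1

set_option autoImplicit false

/-! BR40 row A2.  One step of the local lemma (discrete integration along one direction). -/

namespace LibBR40

variable {n : ℕ} {M : Type*} [AddCommGroup M]

open Function in
theorem A2_upd_add {x : Fin n → ℤ} {a i : Fin n} (h : i ≠ a) (t : ℤ) :
    update (x + ev i) a t = update x a t + ev i := by
  funext j
  by_cases hj : j = a
  · subst hj
    simp [ev, h.symm]
  · simp [hj]

open Function in
theorem A2_upd_self {x : Fin n → ℤ} {a : Fin n} (t : ℤ) :
    update (x + ev a) a t = update x a t := by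
  funext j
  by_cases hj : j = a
  · subst hj; simp
  · simp [hj, ev]

open Function in
theorem A2_upd_ev {x : Fin n → ℤ} {a : Fin n} (t : ℤ) :
    update x a t + ev a = update x a (t + 1) := by
  funext j
  by_cases hj : j = a
  · subst hj; simp [ev]
  · simp [hj, ev]

theorem A2_add_ev_ne {x : Fin n → ℤ} {a i : Fin n} (h : i ≠ a) : (x + ev i) a = x a := by
  simp [ev, h.symm]

theorem A2_add_ev_self {x : Fin n → ℤ} {a : Fin n} : (x + ev a) a = x a + 1 := by
  simp [ev]

open Function in
theorem A2_comm {P : Finset (Fin n)} {a : Fin n} (ha : a ∉ P) (s : ℤ → Finset ℤ)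
    (G : Form n M) (T : Finset (Fin n)) (x : Fin n → ℤ) :
    dP P (fun S y => ∑ t ∈ s (y a), G S (update y a t)) T x
      = ∑ t ∈ s (x a), dP P G T (update x a t) := by
  unfold dP
  rw [Finset.sum_comm]
  refine Finset.sum_congr rfl fun i hi => ?_
  have hia : i ≠ a := fun h => ha (h ▸ (Finset.mem_inter.1 hi).2)
  dsimp only
  rw [A2_add_ev_ne hia, ← Finset.sum_sub_distrib, Finset.smul_sum]
  refine Finset.sum_congr rfl fun t _ => ?_
  rw [A2_upd_add hia]

theorem A2_ind {P : Finset (Fin n)} {a : Fin n} (ha : a ∉ P) (l : ℤ)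
    (G : Form n M) (T : Finset (Fin n)) (x : Fin n → ℤ) :
    dP P (fun S y => if y a = l then G S y else 0) T x
      = if x a = l then dP P G T x else 0 := by
  unfold dP
  split_ifs with h
  · refine Finset.sum_congr rfl fun i hi => ?_
    have hia : i ≠ a := fun h => ha (h ▸ (Finset.mem_inter.1 hi).2)
    dsimp only
    rw [A2_add_ev_ne hia, if_pos h, if_pos h]
  · refine Finset.sum_eq_zero fun i hi => ?_
    have hia : i ≠ a := fun h => ha (h ▸ (Finset.mem_inter.1 hi).2)
    dsimp only
    rw [A2_add_ev_ne hia, if_neg h, if_neg h, sub_zero, smul_zero]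

theorem A2_congr {P T : Finset (Fin n)} {G G' : Form n M} (h : ∀ S ⊆ T, G S = G' S)
    (x : Fin n → ℤ) : dP P G T x = dP P G' T x := by
  unfold dP
  refine Finset.sum_congr rfl fun i _ => ?_
  rw [h (T.erase i) (Finset.erase_subset _ _)]

theorem A2_sub {P T : Finset (Fin n)} (G G' : Form n M) (x : Fin n → ℤ) :
    dP P (fun S y => G S y - G' S y) T x = dP P G T x - dP P G' T x := by
  unfold dP
  rw [← Finset.sum_sub_distrib]
  refine Finset.sum_congr rfl fun i _ => ?_
  rw [← smul_sub]
  congr 1
  dsimp only
  abel

theorem A2_neg {P T : Finset (Fin n)} (G : Form n M) (x : Fin n → ℤ) :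
    dP P (fun S y => - G S y) T x = - dP P G T x := by
  unfold dP
  rw [← Finset.sum_neg_distrib]
  refine Finset.sum_congr rfl fun i _ => ?_
  rw [← smul_neg]
  congr 1
  dsimp only
  abel

theorem A2_zero {P T : Finset (Fin n)} (x : Fin n → ℤ) :
    dP P (fun _ _ => (0 : M)) T x = 0 := by
  unfold dP
  simp

theorem A2_tele (F : ℤ → M) (p q : ℤ) (h : p ≤ q) :
    ∑ t ∈ Finset.Ico p q, (F (t + 1) - F t) = F q - F p := by
  induction q, h using Int.le_induction with
  | base => simp
  | succ q hq ih =>
    have : Finset.Ico p (q + 1) = insert q (Finset.Ico p q) := by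
      ext t; simp only [Finset.mem_Ico, Finset.mem_insert]; omega
    rw [this, Finset.sum_insert (by simp), ih]
    abel

theorem A2_asm {I : Fin n → Set ℤ} {P : Finset (Fin n)} {a : Fin n} (haP : ∀ i ∈ P, a < i)
    {m : ℕ} {w : Form n M}
    (hw : ∀ T x, w T x ≠ 0 → T ⊆ insert a P ∧ T.card = m ∧ Meets (insert a P) I T x)
    (u v : Form n M)
    (c1 : ∀ T ⊆ P, ∀ x, u T x ≠ 0 → T.card + 1 = m ∧ Meets P I T x ∧ x a ∈ I a)
    (c2 : ∀ T ⊆ P, ∀ x, v T x ≠ 0 → T.card + 2 = m ∧ Meets P I T x ∧
      (x a ∈ I a ∨ x a + 1 ∈ I a))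
    (c3 : ∀ T ⊆ P, ∀ x, dP P u T x = w T x)
    (c4 : ∀ T ⊆ P, ∀ x, u T (x + ev a) - u T x - dP P v T x = w (insert a T) x) :
    ∃ e : Form n M, (∀ T x, e T x ≠ 0 → T ⊆ insert a P ∧ T.card + 1 = m ∧
      Meets (insert a P) I T x) ∧ dP (insert a P) e = w := by
  have haP' : a ∉ P := fun h => lt_irrefl _ (haP a h)
  set e : Form n M := fun T x =>
    if T ⊆ insert a P then (if a ∈ T then v (T.erase a) x else u T x) else 0 with he
  have eP : ∀ S ⊆ P, e S = u S := by
    intro S hS
    funext x
    have h1 : a ∉ S := fun h => haP' (hS h)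
    simp only [he]
    rw [if_pos (hS.trans (Finset.subset_insert a P)), if_neg h1]
  have eI : ∀ S ⊆ P, e (insert a S) = v S := by
    intro S hS
    funext x
    have h1 : a ∉ S := fun h => haP' (hS h)
    simp only [he]
    rw [if_pos (Finset.insert_subset_insert a hS), if_pos (Finset.mem_insert_self a S),
      Finset.erase_insert h1]
  have split : ∀ T : Finset (Fin n), T ⊆ insert a P → T ⊆ P ∨ ∃ S ⊆ P, T = insert a S := by
    intro T hT
    by_cases h : a ∈ T
    · right
      refine ⟨T.erase a, ?_, (Finset.insert_erase h).symm⟩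
      intro i hi
      rw [Finset.mem_erase] at hi
      exact Finset.mem_of_mem_insert_of_ne (hT hi.2) hi.1
    · left
      intro i hi
      exact Finset.mem_of_mem_insert_of_ne (hT hi) (fun h' => h (h' ▸ hi))
  refine ⟨e, ?_, ?_⟩
  · intro T x hT
    have hsub : T ⊆ insert a P := by
      by_contra h
      apply hT
      simp only [he]
      rw [if_neg h]
    rcases split T hsub with h | ⟨S, hS, rfl⟩
    · rw [eP T h] at hT
      obtain ⟨h1, h2, h3⟩ := c1 T h x hT
      refine ⟨hsub, h1, ?_⟩
      intro i hi
      rcases Finset.mem_insert.1 hi with rfl | hi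
      · exact Or.inl h3
      · exact h2 i hi
    · rw [eI S hS] at hT
      obtain ⟨h1, h2, h3⟩ := c2 S hS x hT
      have haS : a ∉ S := fun h => haP' (hS h)
      refine ⟨hsub, ?_, ?_⟩
      · rw [Finset.card_insert_of_notMem haS]; omega
      · intro i hi
        rcases Finset.mem_insert.1 hi with rfl | hi
        · rcases h3 with h3 | h3
          · exact Or.inl h3
          · exact Or.inr ⟨Finset.mem_insert_self _ _, h3⟩
        · rcases h2 i hi with h | ⟨h, h'⟩
          · exact Or.inl h
          · exact Or.inr ⟨Finset.mem_insert_of_mem h, h'⟩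
  · funext T x
    by_cases hsub : T ⊆ insert a P
    · rcases split T hsub with h | ⟨S, hS, rfl⟩
      · have haT : a ∉ T := fun h' => haP' (h h')
        rw [dP_insert_notMem haT, A2_congr (G' := u) (fun S hST => eP S (hST.trans h)), c3 T h]
      · rw [dP_insert_mem haP hS, eP S hS,
          A2_congr (G' := v) (fun R hRS => eI R (hRS.trans hS)), c4 S hS]
    · have h1 : w T x = 0 := by
        by_contra h; exact hsub (hw T x h).1
      rw [h1]
      obtain ⟨b, hbT, hb⟩ := Finset.not_subset.1 hsub
      unfold dP
      refine Finset.sum_eq_zero fun i hi => ?_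
      have hbi : b ≠ i := fun h => hb (h ▸ (Finset.mem_inter.1 hi).2)
      have h2 : ¬ T.erase i ⊆ insert a P := fun h =>
        hb (h (Finset.mem_erase.2 ⟨hbi, hbT⟩))
      simp only [he, if_neg h2, sub_zero, smul_zero]

open Function in
theorem A2_meets_upd {I : Fin n → Set ℤ} {P T : Finset (Fin n)} {a : Fin n} (ha : a ∉ P)
    {x : Fin n → ℤ} {t : ℤ} (h : Meets P I T (update x a t)) : Meets P I T x := by
  intro i hi
  have hia : i ≠ a := fun h => ha (h ▸ hi)
  have := h i hi
  simpa [hia] using this

open Function in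
theorem A2 (I : Fin n → Set ℤ) (P : Finset (Fin n)) (a : Fin n) (haP : ∀ i ∈ P, a < i)
    (hI : Half (I a)) (hQ : QQ M I P) : QQ M I (insert a P) := by
  intro m w hm hw hcl
  have haP' : a ∉ P := fun h => lt_irrefl _ (haP a h)
  set β : Form n M := fun S y => w (insert a S) y with hβ
  -- supports
  have supA : ∀ T ⊆ P, ∀ x, w T x ≠ 0 → x a ∈ I a := by
    intro T hT x hx
    rcases (hw T x hx).2.2 a (Finset.mem_insert_self a P) with h | h
    · exact h
    · exact absurd (hT h.1) haP'
  have supB : ∀ T ⊆ P, ∀ x, β T x ≠ 0 → T.card + 1 = m ∧ Meets P I T x ∧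
      (x a ∈ I a ∨ x a + 1 ∈ I a) := by
    intro T hT x hx
    have haT : a ∉ T := fun h => haP' (hT h)
    obtain ⟨_, h2, h3⟩ := hw _ x hx
    rw [Finset.card_insert_of_notMem haT] at h2
    refine ⟨h2, ?_, ?_⟩
    · intro i hi
      have hia : i ≠ a := fun h => haP' (h ▸ hi)
      rcases h3 i (Finset.mem_insert_of_mem hi) with h | ⟨h, h'⟩
      · exact Or.inl h
      · exact Or.inr ⟨Finset.mem_of_mem_insert_of_ne h hia, h'⟩
    · rcases h3 a (Finset.mem_insert_self a P) with h | h
      · exact Or.inl h
      · exact Or.inr h.2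
  -- closedness
  have cl2 : ∀ T ⊆ P, ∀ x, dP P β T x = w T (x + ev a) - w T x := by
    intro T hT x
    have h := congrFun (congrFun hcl (insert a T)) x
    rw [dP_insert_mem haP hT] at h
    exact (sub_eq_zero.1 h).symm
  have tele : ∀ T ⊆ P, ∀ x p q, p ≤ q →
      ∑ t ∈ Finset.Ico p q, dP P β T (update x a t)
        = w T (update x a q) - w T (update x a p) := by
    intro T hT x p q hpq
    rw [← A2_tele (fun t => w T (update x a t)) p q hpq]
    refine Finset.sum_congr rfl fun t _ => ?_
    rw [cl2 T hT, A2_upd_ev]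
  rcases hI with ⟨l, u0, hlu, hIa⟩ | ⟨l, hIa⟩ | ⟨u0, hIa⟩
  · -- bounded
    set σ : Form n M := fun T x =>
      if T ⊆ P then ∑ t ∈ Finset.Ico (l - 1) (u0 + 1), β T (update x a t) else 0 with hσ
    have hσP : ∀ T ⊆ P, ∀ x, σ T x = ∑ t ∈ Finset.Ico (l - 1) (u0 + 1), β T (update x a t) := by
      intro T hT x
      simp only [hσ, if_pos hT]
    have hσupd : ∀ T x t, σ T (update x a t) = σ T x := by
      intro T x t
      simp only [hσ, update_idem]
    have hσsup : ∀ T x, σ T x ≠ 0 → T ⊆ P ∧ T.card + 1 = m ∧ Meets P I T x := by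
      intro T x hx
      have hT : T ⊆ P := by
        by_contra h
        apply hx
        simp only [hσ, if_neg h]
      rw [hσP T hT] at hx
      obtain ⟨t, _, ht⟩ := Finset.exists_ne_zero_of_sum_ne_zero hx
      obtain ⟨h1, h2, _⟩ := supB T hT _ ht
      exact ⟨hT, h1, A2_meets_upd haP' h2⟩
    have hσcl : dP P σ = 0 := by
      funext T x
      by_cases hT : T ⊆ P
      · rw [A2_congr (G' := fun S y => ∑ t ∈ Finset.Ico (l - 1) (u0 + 1), β S (update y a t))
          (fun S hS => funext fun y => hσP S (hS.trans hT) y)]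
        rw [A2_comm haP' (fun _ => Finset.Ico (l - 1) (u0 + 1)), tele T hT x _ _ (by omega)]
        have h1 : w T (update x a (u0 + 1)) = 0 := by
          by_contra h
          have := supA T hT _ h
          rw [hIa] at this
          simp at this
        have h2 : w T (update x a (l - 1)) = 0 := by
          by_contra h
          have := supA T hT _ h
          rw [hIa] at this
          simp at this
        rw [h1, h2]; simp
      · obtain ⟨b, hbT, hb⟩ := Finset.not_subset.1 hT
        unfold dP
        refine Finset.sum_eq_zero fun i hi => ?_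
        have hbi : b ≠ i := fun h => hb (h ▸ (Finset.mem_inter.1 hi).2)
        have h2 : ¬ T.erase i ⊆ P := fun h => hb (h (Finset.mem_erase.2 ⟨hbi, hbT⟩))
        simp only [hσ, if_neg h2, sub_zero, smul_zero]
    -- the form θ
    have hθ : ∃ θ : Form n M, (∀ T x, θ T x ≠ 0 → T ⊆ P ∧ T.card + 2 = m ∧ Meets P I T x) ∧
        dP P θ = σ := by
      by_cases hm0 : m = 0
      · refine ⟨0, fun T x h => absurd rfl h, ?_⟩
        have : σ = 0 := by
          funext T x
          by_contra h
          have := (hσsup T x h).2.1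
          omega
        rw [this]
        funext T x
        exact A2_zero x
      · have hcard : m < P.card + 1 := by
          rwa [Finset.card_insert_of_notMem haP'] at hm
        obtain ⟨θ, h1, h2⟩ := hQ (m - 1) σ (by omega) (fun T x h => by
          obtain ⟨h1, h2, h3⟩ := hσsup T x h
          exact ⟨h1, by omega, h3⟩) hσcl
        refine ⟨θ, fun T x h => ?_, h2⟩
        obtain ⟨h3, h4, h5⟩ := h1 T x h
        exact ⟨h3, by omega, h5⟩
    obtain ⟨θ, hθ1, hθ2⟩ := hθ
    set β' : Form n M := fun T x => β T x - (if x a = l then σ T x else 0) with hβ'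
    have hβ'0 : ∀ T ⊆ P, ∀ x t, (t < l - 1 ∨ u0 < t) → β' T (update x a t) = 0 := by
      intro T hT x t ht
      have h1 : β T (update x a t) = 0 := by
        by_contra h
        have := (supB T hT _ h).2.2
        rw [hIa] at this
        simp only [update_self, Set.mem_Icc] at this
        omega
      simp only [hβ', update_self]
      rw [h1, if_neg (by omega), sub_zero]
    have hβ'sum : ∀ T ⊆ P, ∀ x, ∑ t ∈ Finset.Ico (l - 1) (u0 + 1), β' T (update x a t) = 0 := by
      intro T hT x
      simp only [hβ', update_self, hσupd]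
      rw [Finset.sum_sub_distrib, ← hσP T hT x, Finset.sum_ite_eq']
      rw [if_pos (by simp only [Finset.mem_Ico]; omega), sub_self]
    have hβ'sup : ∀ T ⊆ P, ∀ x, β' T x ≠ 0 → T.card + 1 = m ∧ Meets P I T x := by
      intro T hT x hx
      by_cases h : β T x = 0
      · have h2 : σ T x ≠ 0 := by
          intro h3
          apply hx
          simp only [hβ', h, h3, ite_self, sub_zero]
        exact (hσsup T x h2).2
      · exact ⟨(supB T hT x h).1, (supB T hT x h).2.1⟩
    have hβ'd : ∀ T ⊆ P, ∀ x, dP P β' T x = dP P β T x := by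
      intro T _ x
      rw [hβ', A2_sub, A2_ind haP', hσcl]
      simp
    refine A2_asm haP hw
      (fun T x => ∑ t ∈ Finset.Ico (l - 1) (x a), β' T (update x a t))
      (fun T x => - (if x a = l then θ T x else 0)) ?_ ?_ ?_ ?_
    · intro T hT x hx
      obtain ⟨t, ht, htx⟩ := Finset.exists_ne_zero_of_sum_ne_zero hx
      obtain ⟨h1, h2⟩ := hβ'sup T hT _ htx
      rw [Finset.mem_Ico] at ht
      refine ⟨h1, A2_meets_upd haP' h2, ?_⟩
      rw [hIa, Set.mem_Icc]
      refine ⟨by omega, ?_⟩
      by_contra hgt
      apply hx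
      have : Finset.Ico (l - 1) (x a) = Finset.Ico (l - 1) (u0 + 1) ∪ Finset.Ico (u0 + 1) (x a) := by
        rw [Finset.Ico_union_Ico_eq_Ico (by omega) (by omega)]
      rw [this, Finset.sum_union (Finset.Ico_disjoint_Ico_consecutive _ _ _), hβ'sum T hT,
        zero_add]
      refine Finset.sum_eq_zero fun t ht => ?_
      rw [Finset.mem_Ico] at ht
      exact hβ'0 T hT x t (by omega)
    · intro T hT x hx
      have hxa : x a = l := by
        by_contra h
        apply hx
        rw [if_neg h, neg_zero]
      rw [if_pos hxa] at hx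
      obtain ⟨_, h2, h3⟩ := hθ1 T x (fun h => hx (by rw [h, neg_zero]))
      refine ⟨h2, h3, Or.inl ?_⟩
      rw [hIa, hxa, Set.mem_Icc]
      exact ⟨le_rfl, hlu⟩
    · intro T hT x
      rw [A2_comm haP' (fun s => Finset.Ico (l - 1) s)]
      simp only [hβ'd T hT]
      by_cases hx : l - 1 ≤ x a
      · rw [tele T hT x _ _ hx, update_eq_self]
        have h2 : w T (update x a (l - 1)) = 0 := by
          by_contra h
          have := supA T hT _ h
          rw [hIa] at this
          simp at this
        rw [h2, sub_zero]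
      · have h2 : w T x = 0 := by
          by_contra h
          have := supA T hT _ h
          rw [hIa, Set.mem_Icc] at this
          omega
        rw [h2, Finset.Ico_eq_empty (by omega), Finset.sum_empty]
    · intro T hT x
      rw [A2_neg, A2_ind haP', hθ2]
      simp only [A2_add_ev_self, A2_upd_self]
      by_cases hx : l - 1 ≤ x a
      · have : Finset.Ico (l - 1) (x a + 1) = insert (x a) (Finset.Ico (l - 1) (x a)) := by
          ext t; simp only [Finset.mem_Ico, Finset.mem_insert]; omega
        rw [this, Finset.sum_insert (by simp), update_eq_self]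
        simp only [hβ', hβ]
        abel
      · rw [Finset.Ico_eq_empty (by omega), Finset.Ico_eq_empty (by omega), Finset.sum_empty,
          if_neg (by omega)]
        have h2 : w (insert a T) x = 0 := by
          by_contra h
          have := (supB T hT x h).2.2
          rw [hIa, Set.mem_Icc, Set.mem_Icc] at this
          omega
        rw [h2]; simp
  · -- bounded from below
    refine A2_asm haP hw
      (fun T x => ∑ t ∈ Finset.Ico (l - 1) (x a), β T (update x a t))
      (fun _ _ => 0) ?_ (fun _ _ _ h => absurd rfl h) ?_ ?_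
    · intro T hT x hx
      obtain ⟨t, ht, htx⟩ := Finset.exists_ne_zero_of_sum_ne_zero hx
      obtain ⟨h1, h2, _⟩ := supB T hT _ htx
      rw [Finset.mem_Ico] at ht
      refine ⟨h1, A2_meets_upd haP' h2, ?_⟩
      rw [hIa, Set.mem_Ici]
      omega
    · intro T hT x
      rw [A2_comm haP' (fun s => Finset.Ico (l - 1) s)]
      by_cases hx : l - 1 ≤ x a
      · rw [tele T hT x _ _ hx, update_eq_self]
        have h2 : w T (update x a (l - 1)) = 0 := by
          by_contra h
          have := supA T hT _ h
          rw [hIa] at this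
          simp at this
        rw [h2, sub_zero]
      · have h2 : w T x = 0 := by
          by_contra h
          have := supA T hT _ h
          rw [hIa, Set.mem_Ici] at this
          omega
        rw [h2, Finset.Ico_eq_empty (by omega), Finset.sum_empty]
    · intro T hT x
      rw [A2_zero, sub_zero]
      simp only [A2_add_ev_self, A2_upd_self]
      by_cases hx : l - 1 ≤ x a
      · have : Finset.Ico (l - 1) (x a + 1) = insert (x a) (Finset.Ico (l - 1) (x a)) := by
          ext t; simp only [Finset.mem_Ico, Finset.mem_insert]; omega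
        rw [this, Finset.sum_insert (by simp), update_eq_self]
        simp only [hβ]
        abel
      · rw [Finset.Ico_eq_empty (by omega), Finset.Ico_eq_empty (by omega), Finset.sum_empty]
        have h2 : w (insert a T) x = 0 := by
          by_contra h
          have := (supB T hT x h).2.2
          rw [hIa, Set.mem_Ici, Set.mem_Ici] at this
          omega
        rw [h2]; simp
  · -- bounded from above
    refine A2_asm haP hw
      (fun T x => - ∑ t ∈ Finset.Ico (x a) (u0 + 1), β T (update x a t))
      (fun _ _ => 0) ?_ (fun _ _ _ h => absurd rfl h) ?_ ?_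
    · intro T hT x hx
      obtain ⟨t, ht, htx⟩ := Finset.exists_ne_zero_of_sum_ne_zero (neg_ne_zero.1 hx)
      obtain ⟨h1, h2, _⟩ := supB T hT _ htx
      rw [Finset.mem_Ico] at ht
      refine ⟨h1, A2_meets_upd haP' h2, ?_⟩
      rw [hIa, Set.mem_Iic]
      omega
    · intro T hT x
      rw [A2_neg, A2_comm haP' (fun s => Finset.Ico s (u0 + 1))]
      by_cases hx : x a ≤ u0 + 1
      · rw [tele T hT x _ _ hx, update_eq_self]
        have h2 : w T (update x a (u0 + 1)) = 0 := by
          by_contra h
          have := supA T hT _ h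
          rw [hIa] at this
          simp at this
        rw [h2, zero_sub, neg_neg]
      · have h2 : w T x = 0 := by
          by_contra h
          have := supA T hT _ h
          rw [hIa, Set.mem_Iic] at this
          omega
        rw [h2, Finset.Ico_eq_empty (by omega), Finset.sum_empty, neg_zero]
    · intro T hT x
      rw [A2_zero, sub_zero]
      simp only [A2_add_ev_self, A2_upd_self]
      by_cases hx : x a ≤ u0
      · have : Finset.Ico (x a) (u0 + 1) = insert (x a) (Finset.Ico (x a + 1) (u0 + 1)) := by
          ext t; simp only [Finset.mem_Ico, Finset.mem_insert]; omega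
        rw [this, Finset.sum_insert (by simp), update_eq_self]
        simp only [hβ]
        abel
      · rw [Finset.Ico_eq_empty (by omega), Finset.Ico_eq_empty (by omega), Finset.sum_empty]
        have h2 : w (insert a T) x = 0 := by
          by_contra h
          have := (supB T hT x h).2.2
          rw [hIa, Set.mem_Iic, Set.mem_Iic] at this
          omega
        rw [h2]; simp

end LibBR40
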