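import Pool.Agent.LibBR40.A2

set_option autoImplicit false

/-! BR40 row A3.  The local lemma. -/

namespace LibBR40

variable {n : ℕ} {M : Type*} [AddCommGroup M]

theorem A3_all (I : Fin n → Set ℤ) (hI : ∀ i, Half (I i)) (P : Finset (Fin n)) :
    QQ M I P := by
  induction P using Finset.induction_on_min with
  | empty =>
    intro m w hm
    simp at hm
  | insert a s ha ih => exact A2 I s a ha (hI a) ih

theorem LL (I : Fin n → Set ℤ) (hI : ∀ i, Half (I i)) (m : ℕ) (hm : m < n) (w : Form n M)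
    (hw : ∀ T x, w T x ≠ 0 → T.card = m ∧ Meets Finset.univ I T x) (hcl : dd w = 0) :
    ∃ e : Form n M, (∀ T x, e T x ≠ 0 → T.card + 1 = m ∧ Meets Finset.univ I T x) ∧
      dd e = w := by
  obtain ⟨e, h1, h2⟩ := A3_all (M := M) I hI Finset.univ m w (by simpa using hm)
    (fun T x h => ⟨Finset.subset_univ T, hw T x h⟩) (by rw [dP_univ]; exact hcl)
  exact ⟨e, fun T x h => (h1 T x h).2, by rw [← dP_univ]; exact h2⟩

end LibBR40
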