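import Pool.Agent.LibBR40.A1

set_option autoImplicit false

/-! BR40 row B1.  Algebra of the Cech direction: signs only. -/

namespace LibBR40

theorem B1_ins_lt {α : Type*} [LinearOrder α] {i j : α} {T : Finset α} (hj : j ∉ T)
    (h : j < i) : sg i (insert j T) = - sg i T := by
  have := A1_sg_erase_lt (i := i) (T := insert j T) (Finset.mem_insert_self j T) h
  rw [Finset.erase_insert hj] at this
  rw [this, neg_neg]

theorem B1_ins_ge {α : Type*} [LinearOrder α] {i j : α} {T : Finset α} (hj : j ∉ T)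
    (h : i ≤ j) : sg i (insert j T) = sg i T := by
  have := A1_sg_erase_gt (i := i) (j := j) (T := insert j T) h
  rw [Finset.erase_insert hj] at this
  exact this.symm

theorem B1_sq {α : Type*} [LinearOrder α] (i : α) (T : Finset α) : sg i T * sg i T = 1 := by
  unfold sg
  rw [← mul_pow]
  simp

theorem B1_anti {α : Type*} [LinearOrder α] {j l : α} {S : Finset α} (hj : j ∉ S) (hl : l ∉ S)
    (h : j ≠ l) : sg j S * sg l (insert j S) = - (sg l S * sg j (insert l S)) := by
  rcases lt_or_gt_of_ne h with h' | h'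
  · rw [B1_ins_lt hj h', B1_ins_ge hl h'.le]; ring
  · rw [B1_ins_ge hj h'.le, B1_ins_lt hl h']; ring

theorem cb_cb {ι W : Type*} [LinearOrder ι] [Fintype ι] [AddCommGroup W] (w : Finset ι → W) :
    cb (cb w) = 0 := by
  funext S
  have key : cb (cb w) S = ∑ p ∈ (Sᶜ ×ˢ Sᶜ).filter (fun p => p.1 ≠ p.2),
      (sg p.1 S * sg p.2 (insert p.1 S)) • w (insert p.2 (insert p.1 S)) := by
    rw [Finset.sum_filter, Finset.sum_product]
    unfold cb
    refine Finset.sum_congr rfl fun j hj => ?_
    rw [Finset.smul_sum, ← Finset.sum_filter]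
    refine Finset.sum_congr ?_ fun l hl => ?_
    · ext l
      simp only [Finset.mem_compl, Finset.mem_insert, Finset.mem_filter, not_or, ne_eq]
      constructor
      · rintro ⟨h1, h2⟩; exact ⟨h2, fun h => h1 h.symm⟩
      · rintro ⟨h1, h2⟩; exact ⟨fun h => h2 h.symm, h1⟩
    · simp only [mul_smul]
  rw [key]
  refine Finset.sum_involution (fun p _ => (p.2, p.1)) ?_ ?_ ?_ ?_
  · rintro ⟨j, l⟩ hp
    simp only [Finset.mem_filter, Finset.mem_product, Finset.mem_compl] at hp
    obtain ⟨⟨hj, hl⟩, hjl⟩ := hp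
    simp only
    rw [B1_anti hl hj (Ne.symm hjl), Finset.insert_comm j l S, neg_smul]
    exact add_neg_cancel _
  · rintro ⟨j, l⟩ hp _
    simp only [Finset.mem_filter] at hp
    intro h
    exact hp.2 (congrArg Prod.snd h)
  · rintro ⟨j, l⟩ hp
    simp only [Finset.mem_filter, Finset.mem_product] at hp ⊢
    exact ⟨⟨hp.1.2, hp.1.1⟩, Ne.symm hp.2⟩
  · rintro ⟨j, l⟩ _
    rfl

theorem cb_sub {ι W : Type*} [LinearOrder ι] [Fintype ι] [AddCommGroup W] (v w : Finset ι → W) :
    cb (v - w) = cb v - cb w := by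
  funext S
  simp only [cb, Pi.sub_apply]
  rw [← Finset.sum_sub_distrib]
  refine Finset.sum_congr rfl fun j _ => ?_
  rw [smul_sub]

variable {ι : Type*} [LinearOrder ι] [Fintype ι] {n : ℕ} {M : Type*} [AddCommGroup M]

theorem cb_apply (w : Finset ι → Form n M) (S : Finset ι) (T : Finset (Fin n)) (x : Fin n → ℤ) :
    cb w S T x = ∑ j ∈ Sᶜ, sg j S • w (insert j S) T x := by
  simp only [cb, Finset.sum_apply, Pi.smul_apply]

theorem cb_cs (b : (Fin n → ℤ) → ι) (w : Finset ι → Form n M) :
    cb (cs b w) + cs b (cb w) = w := by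
  funext S T x
  rw [Pi.add_apply, Pi.add_apply, Pi.add_apply, cb_apply]
  by_cases hb : b x ∈ S
  · have h1 : cs b (cb w) S T x =
        sg (b x) S • ∑ j ∈ (S.erase (b x))ᶜ, sg j (S.erase (b x)) •
          w (insert j (S.erase (b x))) T x := by
      simp only [cs, if_pos hb]
      rw [cb_apply]
    have h2 : (S.erase (b x))ᶜ = insert (b x) Sᶜ := by
      ext j
      simp only [Finset.mem_compl, Finset.mem_erase, Finset.mem_insert, not_and]
      tauto
    have h3 : b x ∉ Sᶜ := by simp [hb]
    rw [h1, h2, Finset.sum_insert h3, smul_add, Finset.insert_erase hb, ← mul_smul,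
      A1_sg_erase_gt le_rfl, B1_sq, one_smul, add_left_comm, Finset.smul_sum,
      ← Finset.sum_add_distrib]
    convert add_zero (w S T x)
    refine Finset.sum_eq_zero fun j hj => ?_
    have hjS : j ∉ S := by simpa using hj
    have hjb : j ≠ b x := fun h => hjS (h ▸ hb)
    have h4 : b x ∈ insert j S := Finset.mem_insert_of_mem hb
    have h5 : (insert j S).erase (b x) = insert j (S.erase (b x)) := by
      ext l
      simp only [Finset.mem_erase, Finset.mem_insert]
      constructor
      · rintro ⟨h6, h7 | h7⟩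
        · exact Or.inl h7
        · exact Or.inr ⟨h6, h7⟩
      · rintro (h7 | ⟨h6, h7⟩)
        · exact ⟨fun h => hjb (h7 ▸ h), Or.inl h7⟩
        · exact ⟨h6, Or.inr h7⟩
    simp only [cs, if_pos h4]
    rw [h5, ← mul_smul, ← mul_smul, ← add_smul]
    have h6 : sg j S * sg (b x) (insert j S) + sg (b x) S * sg j (S.erase (b x)) = 0 := by
      rcases lt_or_gt_of_ne hjb with h | h
      · rw [B1_ins_lt hjS h, A1_sg_erase_gt h.le]; ring
      · rw [B1_ins_ge hjS h.le, A1_sg_erase_lt hb h]; ring
    rw [h6, zero_smul]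
  · have h1 : cs b (cb w) S T x = 0 := by
      simp only [cs, if_neg hb]
    rw [h1, add_zero, Finset.sum_eq_single (b x)]
    · simp only [cs, if_pos (Finset.mem_insert_self (b x) S)]
      rw [Finset.erase_insert hb, B1_ins_ge hb le_rfl, ← mul_smul, B1_sq, one_smul]
    · intro j _ hj
      have : b x ∉ insert j S := by
        rw [Finset.mem_insert, not_or]
        exact ⟨fun h => hj h.symm, hb⟩
      simp only [cs, if_neg this, smul_zero]
    · intro h
      exact absurd hb (by simpa using h)

theorem cb_dd (w : Finset ι → Form n M) (S : Finset ι) :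
    cb (fun S => dd (w S)) S = dd (cb w S) := by
  unfold cb
  rw [dd_sum]
  refine Finset.sum_congr rfl fun j _ => ?_
  rw [dd_zsmul]

end LibBR40
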