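import Pool.Agent.LibBR40.B1

set_option autoImplicit false

/-! BR40 row B2.  The zigzag, forward. -/

namespace LibBR40

variable {ι : Type*} [LinearOrder ι] [Fintype ι] {n : ℕ} {M : Type*} [AddCommGroup M]

theorem B2_Thk_mono {r r' : ℕ} (h : r ≤ r') {K : Set (Fin n → ℤ)} {x : Fin n → ℤ}
    (hx : x ∈ Thk r K) : x ∈ Thk r' K := by
  obtain ⟨y, hy, h1⟩ := hx
  exact ⟨y, hy, fun i => (h1 i).trans (by exact_mod_cast h)⟩

theorem exists_base [Nonempty ι] (K : ι → Set (Fin n → ℤ)) :
    ∃ b : (Fin n → ℤ) → ι, ∀ (r : ℕ) (x : Fin n → ℤ), (∃ j, x ∈ Thk r (K j)) →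
      x ∈ Thk r (K (b x)) := by
  classical
  have : ∀ x : Fin n → ℤ, ∃ b : ι, ∀ r : ℕ, (∃ j, x ∈ Thk r (K j)) → x ∈ Thk r (K b) := by
    intro x
    by_cases h : ∃ r : ℕ, ∃ j, x ∈ Thk r (K j)
    · obtain ⟨j, hj⟩ := Nat.find_spec h
      refine ⟨j, fun r hr => B2_Thk_mono (Nat.find_min' h hr) hj⟩
    · exact ⟨Classical.arbitrary ι, fun r hr => absurd ⟨r, hr⟩ h⟩
  choose b hb using this
  exact ⟨b, fun r x hx => hb x r hx⟩

theorem zz_cb_zero (b : (Fin n → ℤ) → ι) (c : Form n M) :
    cb (zz b c 0) = fun S => if S = ∅ then c else 0 := by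
  have h := cb_cs b (fun S : Finset ι => if S = ∅ then c else (0 : Form n M))
  have h2 : cb (fun S : Finset ι => if S = ∅ then c else (0 : Form n M)) = 0 := by
    funext S
    unfold cb
    refine Finset.sum_eq_zero fun j _ => ?_
    dsimp only
    rw [if_neg (Finset.insert_ne_empty j S), smul_zero]
  have h3 : cs b (0 : Finset ι → Form n M) = 0 := by
    funext S T x
    simp [cs]
  rw [h2, h3, add_zero] at h
  exact h

theorem B2_cs_zero (b : (Fin n → ℤ) → ι) : cs b (0 : Finset ι → Form n M) = 0 := by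
  funext S T x
  simp [cs]

theorem B2_step (b : (Fin n → ℤ) → ι) (c : Form n M) (q : ℕ)
    (h2 : cb (fun S => dd (zz b c q S)) = 0) :
    cb (zz b c (q + 1)) = fun S => dd (zz b c q S) := by
  have h := cb_cs b (fun S => dd (zz b c q S))
  rw [h2, B2_cs_zero, add_zero] at h
  exact h

theorem B2_aux (b : (Fin n → ℤ) → ι) (c : Form n M) (hcl : dd c = 0) (q : ℕ) :
    cb (fun S => dd (zz b c q S)) = 0 := by
  induction q with
  | zero =>
    funext S
    rw [cb_dd, zz_cb_zero]
    by_cases hS : S = ∅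
    · simp only [if_pos hS, hcl]; rfl
    · simp only [if_neg hS, dd_zero]; rfl
  | succ q ih =>
    funext S
    rw [cb_dd, B2_step b c q ih]
    exact dd_dd _

theorem zz_cb_succ (b : (Fin n → ℤ) → ι) (c : Form n M) (hcl : dd c = 0) (q : ℕ) :
    cb (zz b c (q + 1)) = fun S => dd (zz b c q S) :=
  B2_step b c q (B2_aux b c hcl q)

theorem zz_supp {m0 : ℕ} (K : ι → Set (Fin n → ℤ)) (b : (Fin n → ℤ) → ι)
    (hb : ∀ (r : ℕ) (x : Fin n → ℤ), (∃ j, x ∈ Thk r (K j)) → x ∈ Thk r (K (b x)))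
    (c : Form n M) (hc : ∀ T x, c T x ≠ 0 → T.card = m0 ∧ ∃ j, x ∈ K j) (q : ℕ)
    (S : Finset ι) (T : Finset (Fin n)) (x : Fin n → ℤ) (h : zz b c q S T x ≠ 0) :
    S.card = q + 1 ∧ T.card = m0 + q ∧ ∀ j ∈ S, x ∈ Thk q (K j) := by
  induction q generalizing S T x with
  | zero =>
    simp only [zz, cs] at h
    have hbS : b x ∈ S := by
      by_contra hno
      exact h (if_neg hno)
    rw [if_pos hbS] at h
    have he : S.erase (b x) = ∅ := by
      by_contra hno
      apply h
      rw [if_neg hno]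
      simp
    rw [if_pos he] at h
    have hcx : c T x ≠ 0 := by
      intro h0
      apply h
      rw [h0, smul_zero]
    obtain ⟨h1, j, hj⟩ := hc T x hcx
    have hS : S = {b x} := by
      have := Finset.insert_erase hbS
      rw [he] at this
      exact this.symm
    have hx : x ∈ Thk 0 (K (b x)) := hb 0 x ⟨j, x, hj, fun i => by simp⟩
    refine ⟨by rw [hS]; simp, by simpa using h1, ?_⟩
    intro l hl
    rw [hS, Finset.mem_singleton] at hl
    rw [hl]
    exact hx
  | succ q ih =>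
    simp only [zz, cs] at h
    have hbS : b x ∈ S := by
      by_contra hno
      exact h (if_neg hno)
    rw [if_pos hbS] at h
    have h1 : dd (zz b c q (S.erase (b x))) T x ≠ 0 := by
      intro h0
      apply h
      rw [h0, smul_zero]
    obtain ⟨i, hi, h2⟩ := Finset.exists_ne_zero_of_sum_ne_zero h1
    have h3 : ∃ y : Fin n → ℤ, (∀ l, |x l - y l| ≤ 1) ∧
        zz b c q (S.erase (b x)) (T.erase i) y ≠ 0 := by
      by_cases h4 : zz b c q (S.erase (b x)) (T.erase i) x = 0
      · refine ⟨x + ev i, fun l => ?_, ?_⟩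
        · simp only [ev, Pi.add_apply]
          by_cases hl : l = i
          · subst hl; simp
          · simp [hl]
        · intro h5
          apply h2
          rw [h4, h5]; simp
      · exact ⟨x, fun l => by simp, h4⟩
    obtain ⟨y, hy, h4⟩ := h3
    obtain ⟨h5, h6, h7⟩ := ih _ _ _ h4
    have hthk : ∀ j ∈ S.erase (b x), x ∈ Thk (q + 1) (K j) := by
      intro j hj
      obtain ⟨z, hz, hz2⟩ := h7 j hj
      refine ⟨z, hz, fun l => ?_⟩
      have := hy l
      have := hz2 l
      push_cast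
      calc |x l - z l| = |(x l - y l) + (y l - z l)| := by ring_nf
        _ ≤ |x l - y l| + |y l - z l| := abs_add_le _ _
        _ ≤ q + 1 := by linarith
    have hne : (S.erase (b x)).Nonempty := Finset.card_pos.1 (by omega)
    obtain ⟨j0, hj0⟩ := hne
    have hbx : x ∈ Thk (q + 1) (K (b x)) := hb (q + 1) x ⟨j0, hthk j0 hj0⟩
    refine ⟨?_, ?_, ?_⟩
    · have := Finset.card_erase_add_one hbS; omega
    · have := Finset.card_erase_add_one hi; omega
    · intro j hj
      by_cases hjb : j = b x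
      · rw [hjb]; exact hbx
      · exact hthk j (Finset.mem_erase.2 ⟨hjb, hj⟩)

end LibBR40
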