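import Pool.Agent.LibBR40.A3
import Pool.Agent.LibBR40.B2

set_option autoImplicit false

/-! BR40 row B3 (MEDIUM/STRONG).  The zigzag, backward.  You may use A1, A3 (LL), B1, B2.

PLAN.  If `ι` is empty then `c = 0` (hc), take `e = 0`.  Otherwise take `b` from `exists_base`, `z q = zz b c q`.
`z (k+1) = 0` : a nonzero value at `x` needs `S.card = k + 2` and `x ∈ Thk (k+1) (K j) ⊆ Thk n (K j)` for all `j ∈ S`
(`k + 1 ≤ n`), against `hord` (`Set.ncard` of a set containing `↑S`).
Claim, for `q = k + 1, k, ..., 0` (downward induction): there are `η η' : Finset ι → Form n M` with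
 (i) `∀ S, dd (η S) = z q S - cb η' S`,
 (ii) `∀ S T x, η S T x ≠ 0 → S.card = q + 1 ∧ T.card + 1 = m0 + q ∧ Meets univ (E S) T x ∧ (∃ y, ∀ j ∈ S, y ∈ Thk n (K j))`.
Start `q = k + 1` : `η = η' = 0`.  Step from `q + 1` (with `η`, `η'`) to `q` : for each `S` look at
`u S = z q S - cb η S`.  `dd (u S) = dd (z q S) - cb (fun S => dd (η S)) S = cb (z (q+1)) S - cb (z (q+1) - cb η') S
= cb (cb η') S = 0` (zz_cb_succ, cb_dd, cb_sub, cb_cb).  If `S.card ≠ q + 1` or no `y` lies in all `Thk n (K j)`, `j ∈ S`,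
then `u S = 0` (supports of `z q S`, and `η (insert j S)` is zero as well), take `0`.  Otherwise `S` is not empty and
`u S` has degree `m0 + q < n` (`q ≤ k`) and support in `E S` : for `z q S` by `hKE` (`Thk q ⊆ Thk n`, and
`x i ∈ E S i` gives `Meets`), for `η (insert j S)` by `hmono` (`Meets` is monotone in the box; the point `y` of
(ii) for `insert j S`).  Apply `LL` with the box `E S`.
End: `q = 0`, `e := cb η ∅`, `dd e = cb (fun S => dd (η S)) ∅ = cb (z 0) ∅ - cb (cb η') ∅ = c` (zz_cb_zero).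
`e T x ≠ 0` gives `j` with `η {j} T x ≠ 0`, and then `(K j).Nonempty` from the point `y`. -/

namespace LibBR40

variable {ι : Type*} [LinearOrder ι] [Fintype ι] {n : ℕ} {M : Type*} [AddCommGroup M]

omit [LinearOrder ι] [Fintype ι] in
private theorem B3_Thk_mono {r s : ℕ} (h : r ≤ s) (K : Set (Fin n → ℤ)) : Thk r K ⊆ Thk s K := by
  rintro x ⟨y, hy, hxy⟩
  exact ⟨y, hy, fun i => (hxy i).trans (by exact_mod_cast h)⟩

private theorem B3_cb_ne (w : Finset ι → Form n M) (S : Finset ι) (T : Finset (Fin n))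
    (x : Fin n → ℤ) (h : cb w S T x ≠ 0) : ∃ j, j ∉ S ∧ w (insert j S) T x ≠ 0 := by
  by_contra hcon
  push Not at hcon
  apply h
  unfold cb
  rw [Finset.sum_apply, Finset.sum_apply]
  refine Finset.sum_eq_zero fun j hj => ?_
  rw [Finset.mem_compl] at hj
  rw [Pi.smul_apply, Pi.smul_apply, hcon j hj, smul_zero]

theorem LT {m0 k : ℕ} (c : Form n M) (K : ι → Set (Fin n → ℤ))
    (hc : ∀ T x, c T x ≠ 0 → T.card = m0 ∧ ∃ j, x ∈ K j) (hcl : dd c = 0)
    (hord : ∀ x, {j | x ∈ Thk n (K j)}.ncard ≤ k + 1) (hmk : m0 + k < n)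
    (E : Finset ι → Fin n → Set ℤ) (hE : ∀ S i, Half (E S i))
    (hKE : ∀ S : Finset ι, S.Nonempty → ∀ x, (∀ j ∈ S, x ∈ Thk n (K j)) → ∀ i, x i ∈ E S i)
    (hmono : ∀ (S : Finset ι) (j : ι), S.Nonempty → j ∉ S →
      (∃ x, ∀ l ∈ insert j S, x ∈ Thk n (K l)) → ∀ i, E (insert j S) i ⊆ E S i) :
    ∃ e : Form n M, (∀ T x, e T x ≠ 0 → T.card + 1 = m0 ∧
      ∃ j, (K j).Nonempty ∧ Meets Finset.univ (E {j}) T x) ∧ dd e = c := by
  classical
  rcases isEmpty_or_nonempty ι with hι | hι
  · refine ⟨0, fun T x h => absurd rfl h, ?_⟩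
    rw [dd_zero]
    funext T x
    by_contra h
    obtain ⟨_, j, _⟩ := hc T x (fun h' => h h'.symm)
    exact hι.false j
  obtain ⟨b, hb⟩ := exists_base K
  have hsupp := fun q S T x h => zz_supp (M := M) K b hb c hc q S T x h
  have hcb0 : cb (0 : Finset ι → Form n M) = 0 := by
    funext S
    unfold cb
    simp
  have main : ∀ q ≤ k + 1, ∃ η η' : Finset ι → Form n M,
      (∀ S, dd (η S) = zz b c q S - cb η' S) ∧
      (∀ S T x, η S T x ≠ 0 → S.card = q + 1 ∧ T.card + 1 = m0 + q ∧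
        Meets Finset.univ (E S) T x ∧ ∃ y, ∀ j ∈ S, y ∈ Thk n (K j)) := by
    intro q hq
    induction hq using Nat.decreasingInduction with
    | self =>
      refine ⟨0, 0, fun S => ?_, fun S T x h => absurd rfl h⟩
      rw [hcb0, Pi.zero_apply, dd_zero, sub_zero]
      funext T x
      by_contra h
      obtain ⟨h1, _, h3⟩ := hsupp (k + 1) S T x (fun h' => h h'.symm)
      have h4 : (S : Set ι) ⊆ {j | x ∈ Thk n (K j)} := by
        intro j hj
        exact B3_Thk_mono (by omega) (K j) (h3 j hj)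
      have h5 := Set.ncard_le_ncard h4 (Set.toFinite _)
      rw [Set.ncard_coe_finset] at h5
      have h6 := hord x
      omega
    | of_succ q hq ih =>
      obtain ⟨η, η', h1, h2⟩ := ih
      have hcl' : ∀ S, dd (zz b c q S - cb η S) = 0 := by
        intro S
        have e1 : dd (zz b c q S) = cb (zz b c (q + 1)) S := by
          rw [zz_cb_succ b c hcl q]
        have e2 : (fun S => dd (η S)) = zz b c (q + 1) - cb η' := by
          funext S
          rw [h1 S]
          rfl
        rw [dd_sub, e1, ← cb_dd, e2, cb_sub, cb_cb, Pi.sub_apply, Pi.zero_apply, sub_zero,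
          sub_self]
      have hu : ∀ S T x, (zz b c q S - cb η S) T x ≠ 0 →
          S.card = q + 1 ∧ T.card = m0 + q ∧ (∃ y, ∀ j ∈ S, y ∈ Thk n (K j)) ∧
          Meets Finset.univ (E S) T x := by
        intro S T x h
        by_cases hz : zz b c q S T x = 0
        · have h3 : cb η S T x ≠ 0 := by
            intro h4
            apply h
            rw [Pi.sub_apply, Pi.sub_apply, hz, h4, sub_zero]
          obtain ⟨j, hj, h5⟩ := B3_cb_ne η S T x h3
          obtain ⟨h6, h7, h8, y, hy⟩ := h2 _ _ _ h5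
          rw [Finset.card_insert_of_notMem hj] at h6
          have hS : S.Nonempty := by
            rw [← Finset.card_pos]
            omega
          refine ⟨by omega, by omega, ⟨y, fun l hl => hy l (Finset.mem_insert_of_mem hl)⟩, ?_⟩
          intro i hi
          have h9 := hmono S j hS hj ⟨y, hy⟩ i
          rcases h8 i hi with h10 | ⟨h10, h11⟩
          · exact Or.inl (h9 h10)
          · exact Or.inr ⟨h10, h9 h11⟩
        · obtain ⟨h3, h4, h5⟩ := hsupp q S T x hz
          have h6 : ∀ j ∈ S, x ∈ Thk n (K j) := fun j hj =>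
            B3_Thk_mono (by omega) (K j) (h5 j hj)
          have hS : S.Nonempty := by
            rw [← Finset.card_pos]
            omega
          exact ⟨h3, h4, ⟨x, h6⟩, fun i _ => Or.inl (hKE S hS x h6 i)⟩
      have hex : ∀ S : Finset ι, ∃ e : Form n M, dd e = zz b c q S - cb η S ∧
          ∀ T x, e T x ≠ 0 → S.card = q + 1 ∧ T.card + 1 = m0 + q ∧
            Meets Finset.univ (E S) T x ∧ ∃ y, ∀ j ∈ S, y ∈ Thk n (K j) := by
        intro S
        by_cases hS : S.card = q + 1 ∧ ∃ y, ∀ j ∈ S, y ∈ Thk n (K j)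
        · obtain ⟨e, he1, he2⟩ := LL (E S) (hE S) (m0 + q) (by omega) (zz b c q S - cb η S)
            (fun T x h => ⟨(hu S T x h).2.1, (hu S T x h).2.2.2⟩) (hcl' S)
          refine ⟨e, he2, fun T x h => ?_⟩
          obtain ⟨h3, h4⟩ := he1 T x h
          exact ⟨hS.1, h3, h4, hS.2⟩
        · refine ⟨0, ?_, fun T x h => absurd rfl h⟩
          rw [dd_zero]
          funext T x
          by_contra h
          obtain ⟨h3, _, h5, _⟩ := hu S T x (fun h' => h h'.symm)
          exact hS ⟨h3, h5⟩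
      choose e he1 he2 using hex
      exact ⟨e, η, he1, he2⟩
  obtain ⟨η, η', h1, h2⟩ := main 0 (Nat.zero_le _)
  refine ⟨cb η ∅, fun T x h => ?_, ?_⟩
  · obtain ⟨j, _, h3⟩ := B3_cb_ne η ∅ T x h
    obtain ⟨_, h5, h6, y, hy⟩ := h2 _ _ _ h3
    rw [insert_empty_eq] at h6 hy
    obtain ⟨z, hz, _⟩ := hy j (Finset.mem_singleton_self j)
    exact ⟨by omega, j, ⟨z, hz⟩, h6⟩
  · have e2 : (fun S => dd (η S)) = zz b c 0 - cb η' := by
      funext S
      rw [h1 S]
      rfl
    rw [← cb_dd, e2, cb_sub, cb_cb, zz_cb_zero, Pi.sub_apply, Pi.zero_apply, sub_zero]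
    exact if_pos rfl

end LibBR40
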