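import Pool.Agent.LibBR40.A1

set_option autoImplicit false

/-! BR40 row B5 (SHORT/MEDIUM).  The clamp map is a chain map, and closed forms of degree 0 and 1 on
the whole lattice.  You may use A1.

PLAN `dd_ext`.  Fix `T, x`.  Call `j ∈ T` bad if not `0 ≤ x j < N`.  If there is no bad `j` : every term agrees, since for
`i ∈ T` the other coordinates are not changed and `cl N (x + ev i) = cl N x + ev i`.  If `j` is bad: the terms `i ≠ j`
vanish on the left (`j ∈ T.erase i` is bad at `x` and at `x + ev i`), and the term `i = j` is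
`w (T.erase j) (cl N (x + ev j)) - w (T.erase j) (cl N x)` or `0 - 0` (same condition for both), with
`cl N (x + ev j) = cl N x` as `x j < 0` or `x j ≥ N`.
PLAN `closed_zero` : `w ∅ (x + ev i) = w ∅ x` (component `{i}` of `dd w`), so `w ∅` is constant (induction on coordinates).
PLAN `closed_one` : claim by induction on a finset `P` : there is `g` with `w {i} x = g (x + ev i) - g x` for all `i ∈ P`.
Step: replace `w` by `w' = w - (difference form of g)`, closed, with `w' {i} = 0` for `i ∈ P`; component `{i, a}` of
closedness for a new `a` gives `w' {a} (x + ev i) = w' {a} x` for `i ∈ P`.  On `ℤ` every `f` has `F` with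
`F (t+1) - F t = f t` and `F 0 = 0` (unique); put `g' x = F (x a)` for `f t = w' {a} (update x a t)`; `g'` does not depend
on the coordinates of `P` (uniqueness of F, or a formula for F with sums over `Ico 0 t` and `Ico t 0`). -/

namespace LibBR40

variable {n : ℕ} {M : Type*} [AddCommGroup M]

private theorem B5_ev_same (i : Fin n) : ev i i = 1 := by
  simp [ev]

private theorem B5_ev_ne {i j : Fin n} (h : j ≠ i) : ev i j = 0 := by
  simp [ev, Pi.single_apply, h]

private theorem B5_cl_good (N : ℕ) {x : Fin n → ℤ} {i : Fin n} (h0 : 0 ≤ x i) (h1 : x i < N) :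
    cl N (x + ev i) = cl N x + ev i := by
  funext j
  by_cases hj : j = i
  · subst hj
    simp only [cl, Pi.add_apply, B5_ev_same]
    omega
  · simp only [cl, Pi.add_apply, B5_ev_ne hj, add_zero]

private theorem B5_cl_bad (N : ℕ) {x : Fin n → ℤ} {i : Fin n} (h : ¬ (0 ≤ x i ∧ x i < N)) :
    cl N (x + ev i) = cl N x := by
  funext j
  by_cases hj : j = i
  · subst hj
    simp only [cl, Pi.add_apply, B5_ev_same]
    omega
  · simp only [cl, Pi.add_apply, B5_ev_ne hj, add_zero]

private theorem B5_cond (N : ℕ) (T : Finset (Fin n)) (x : Fin n → ℤ) (i : Fin n) :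
    (∀ j ∈ T.erase i, 0 ≤ (x + ev i) j ∧ (x + ev i) j < (N : ℤ)) ↔
      ∀ j ∈ T.erase i, 0 ≤ x j ∧ x j < (N : ℤ) := by
  refine forall₂_congr fun j hj => ?_
  rw [Pi.add_apply, B5_ev_ne (Finset.ne_of_mem_erase hj), add_zero]

theorem dd_ext (N : ℕ) (w : Form n M) : dd (ext N w) = ext N (dd w) := by
  funext T x
  by_cases hT : ∀ i ∈ T, 0 ≤ x i ∧ x i < (N : ℤ)
  · have h1 : ext N (dd w) T x = dd w T (cl N x) := by
      unfold ext
      exact if_pos hT
    rw [h1]
    unfold dd
    refine Finset.sum_congr rfl fun i hi => ?_
    have h2 : ∀ j ∈ T.erase i, 0 ≤ x j ∧ x j < (N : ℤ) :=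
      fun j hj => hT j (Finset.mem_of_mem_erase hj)
    have h3 : ext N w (T.erase i) x = w (T.erase i) (cl N x) := by
      unfold ext
      exact if_pos h2
    have h4 : ext N w (T.erase i) (x + ev i) = w (T.erase i) (cl N (x + ev i)) := by
      unfold ext
      exact if_pos ((B5_cond N T x i).2 h2)
    rw [h3, h4, B5_cl_good N (hT i hi).1 (hT i hi).2]
  · have h1 : ext N (dd w) T x = 0 := by
      unfold ext
      exact if_neg hT
    rw [h1]
    have hT' := hT
    push Not at hT'
    obtain ⟨j, hj, hjx⟩ := hT'
    have hbad : ¬ (0 ≤ x j ∧ x j < (N : ℤ)) := fun h => absurd (hjx h.1) (not_le.2 h.2)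
    unfold dd
    refine Finset.sum_eq_zero fun i hi => ?_
    by_cases hij : i = j
    · subst hij
      have h5 : ext N w (T.erase i) (x + ev i) = ext N w (T.erase i) x := by
        unfold ext
        by_cases h6 : ∀ j ∈ T.erase i, 0 ≤ x j ∧ x j < (N : ℤ)
        · rw [if_pos h6, if_pos ((B5_cond N T x i).2 h6), B5_cl_bad N hbad]
        · rw [if_neg h6, if_neg (fun h => h6 ((B5_cond N T x i).1 h))]
      rw [h5, sub_self, smul_zero]
    · have h7 : ¬ ∀ j ∈ T.erase i, 0 ≤ x j ∧ x j < (N : ℤ) :=
        fun h => hbad (h j (Finset.mem_erase.2 ⟨fun h => hij h.symm, hj⟩))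
      have h3 : ext N w (T.erase i) x = 0 := by
        unfold ext
        exact if_neg h7
      have h4 : ext N w (T.erase i) (x + ev i) = 0 := by
        unfold ext
        exact if_neg fun h => h7 ((B5_cond N T x i).1 h)
      rw [h3, h4, sub_self, smul_zero]

private theorem B5_single (w : Form n M) (i : Fin n) (x : Fin n → ℤ) :
    dd w {i} x = w ∅ (x + ev i) - w ∅ x := by
  have h1 : sg i ({i} : Finset (Fin n)) = 1 := by
    simp [sg, Finset.filter_singleton]
  simp [dd, h1]

private theorem B5_shift {f : (Fin n → ℤ) → M} {i : Fin n} (h : ∀ x, f (x + ev i) = f x) (t : ℤ)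
    (x : Fin n → ℤ) : f (x + t • ev i) = f x := by
  induction t using Int.induction_on with
  | zero => simp
  | succ t ih =>
    rw [add_smul, one_smul, ← add_assoc, h, ih]
  | pred t ih =>
    rw [← ih, ← h (x + (-(t : ℤ) - 1) • ev i)]
    congr 1
    rw [sub_smul, one_smul]
    abel

private theorem B5_const {f : (Fin n → ℤ) → M} (h : ∀ i x, f (x + ev i) = f x)
    (x y : Fin n → ℤ) : f x = f y := by
  have key : ∀ s : Finset (Fin n), f (fun i => if i ∈ s then y i else x i) = f x := by
    intro s
    induction s using Finset.induction_on with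
    | empty => simp
    | insert a s ha ih =>
      have h1 : (fun i => if i ∈ insert a s then y i else x i) =
          (fun i => if i ∈ s then y i else x i) + (y a - x a) • ev a := by
        funext i
        by_cases hi : i = a
        · subst hi
          simp [ha, B5_ev_same]
        · simp [hi, B5_ev_ne hi]
      rw [h1, B5_shift (h a), ih]
  have h2 := key Finset.univ
  simp only [Finset.mem_univ, if_true] at h2
  exact h2.symm

theorem closed_zero (w : Form n M) (hw : dd w = 0) (x y : Fin n → ℤ) : w ∅ x = w ∅ y := by
  refine B5_const (f := w ∅) (fun i x => ?_) x y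
  have h1 := congrFun (congrFun hw {i}) x
  rw [B5_single] at h1
  exact sub_eq_zero.1 h1

private theorem B5_cross_lt (w : Form n M) (hw : dd w = 0) {i a : Fin n} (hia : i < a)
    (x : Fin n → ℤ) : w {a} (x + ev i) - w {a} x = w {i} (x + ev a) - w {i} x := by
  have h1 : dd w {i, a} x = 0 := congrFun (congrFun hw {i, a}) x
  have hne : i ≠ a := hia.ne
  have s1 : sg i ({i, a} : Finset (Fin n)) = 1 := by
    have : ({i, a} : Finset (Fin n)).filter (fun j => j < i) = ∅ := by
      ext j
      simp only [Finset.mem_filter, Finset.mem_insert, Finset.mem_singleton]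
      constructor
      · rintro ⟨rfl | rfl, h⟩
        · exact absurd h (lt_irrefl _)
        · exact absurd h hia.asymm
      · intro h
        exact absurd h (Finset.notMem_empty _)
    rw [sg, this, Finset.card_empty, pow_zero]
  have s2 : sg a ({i, a} : Finset (Fin n)) = -1 := by
    have : ({i, a} : Finset (Fin n)).filter (fun j => j < a) = {i} := by
      ext j
      simp only [Finset.mem_filter, Finset.mem_insert, Finset.mem_singleton]
      constructor
      · rintro ⟨rfl | rfl, h⟩
        · rfl
        · exact absurd h (lt_irrefl _)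
      · rintro rfl
        exact ⟨Or.inl rfl, hia⟩
    rw [sg, this, Finset.card_singleton, pow_one]
  have e1 : ({i, a} : Finset (Fin n)).erase i = {a} := by
    ext j
    simp only [Finset.mem_erase, Finset.mem_insert, Finset.mem_singleton]
    constructor
    · rintro ⟨h, rfl | rfl⟩
      · exact absurd rfl h
      · rfl
    · rintro rfl
      exact ⟨hne.symm, Or.inr rfl⟩
  have e2 : ({i, a} : Finset (Fin n)).erase a = {i} := by
    ext j
    simp only [Finset.mem_erase, Finset.mem_insert, Finset.mem_singleton]
    constructor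
    · rintro ⟨h, rfl | rfl⟩
      · rfl
      · exact absurd rfl h
    · rintro rfl
      exact ⟨hne, Or.inl rfl⟩
  unfold dd at h1
  rw [Finset.sum_pair hne, s1, s2, e1, e2, one_smul, neg_smul, one_smul, ← sub_eq_add_neg] at h1
  exact sub_eq_zero.1 h1

private theorem B5_cross (w : Form n M) (hw : dd w = 0) {i a : Fin n} (hia : i ≠ a)
    (x : Fin n → ℤ) : w {a} (x + ev i) - w {a} x = w {i} (x + ev a) - w {i} x := by
  rcases lt_or_gt_of_ne hia with h | h
  · exact B5_cross_lt w hw h x
  · exact (B5_cross_lt w hw h x).symm

private noncomputable def B5_prim (f : ℤ → M) (t : ℤ) : M :=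
  (∑ s ∈ Finset.Ico 0 t, f s) - ∑ s ∈ Finset.Ico t 0, f s

private theorem B5_prim_succ (f : ℤ → M) (t : ℤ) : B5_prim f (t + 1) - B5_prim f t = f t := by
  unfold B5_prim
  rcases le_or_gt 0 t with h | h
  · have e1 : Finset.Ico (t + 1) 0 = ∅ := Finset.Ico_eq_empty (by omega)
    have e2 : Finset.Ico t 0 = ∅ := Finset.Ico_eq_empty (by omega)
    have e3 : Finset.Ico 0 (t + 1) = insert t (Finset.Ico 0 t) := by
      ext s
      simp only [Finset.mem_insert, Finset.mem_Ico]
      omega
    have e4 : t ∉ Finset.Ico 0 t := by simp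
    rw [e1, e2, e3, Finset.sum_insert e4, Finset.sum_empty]
    abel
  · have e1 : Finset.Ico 0 (t + 1) = ∅ := Finset.Ico_eq_empty (by omega)
    have e2 : Finset.Ico 0 t = ∅ := Finset.Ico_eq_empty (by omega)
    have e3 : Finset.Ico t 0 = insert t (Finset.Ico (t + 1) 0) := by
      ext s
      simp only [Finset.mem_insert, Finset.mem_Ico]
      omega
    have e4 : t ∉ Finset.Ico (t + 1) 0 := by simp
    rw [e1, e2, e3, Finset.sum_insert e4, Finset.sum_empty]
    abel

private theorem B5_one (w : Form n M) (hw : dd w = 0) (P : Finset (Fin n)) :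
    ∃ g : (Fin n → ℤ) → M, ∀ i ∈ P, ∀ x, w {i} x = g (x + ev i) - g x := by
  classical
  induction P using Finset.induction_on with
  | empty => exact ⟨0, fun i hi => absurd hi (Finset.notMem_empty _)⟩
  | insert a P ha ih =>
    obtain ⟨g, hg⟩ := ih
    obtain ⟨h, hh⟩ : ∃ h : (Fin n → ℤ) → M, ∀ x, h x = w {a} x - (g (x + ev a) - g x) :=
      ⟨_, fun _ => rfl⟩
    have hinv : ∀ i ∈ P, ∀ x, h (x + ev i) = h x := by
      intro i hi x
      have hne : i ≠ a := fun h => ha (h ▸ hi)
      have h1 := B5_cross w hw hne x
      have h2 := hg i hi x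
      have h3 := hg i hi (x + ev a)
      rw [h2, h3] at h1
      rw [hh, hh, add_right_comm x (ev i) (ev a)]
      have h4 : w {a} (x + ev i) = g (x + ev a + ev i) - g (x + ev a) - (g (x + ev i) - g x) +
          w {a} x := by
        rw [← h1]
        abel
      rw [h4]
      abel
    refine ⟨fun x => g x + B5_prim (fun t => h (Function.update x a t)) (x a), fun i hi x => ?_⟩
    rcases Finset.mem_insert.1 hi with rfl | hi
    · have e1 : (fun t => h (Function.update (x + ev i) i t)) =
          fun t => h (Function.update x i t) := by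
        funext t
        congr 1
        funext j
        by_cases hj : j = i
        · subst hj
          simp
        · simp [Function.update_of_ne hj, B5_ev_ne hj]
      have e2 : (x + ev i) i = x i + 1 := by
        rw [Pi.add_apply, B5_ev_same]
      have e3 := B5_prim_succ (fun t => h (Function.update x i t)) (x i)
      simp only [Function.update_eq_self] at e3
      simp only [e1, e2]
      rw [sub_eq_iff_eq_add] at e3
      rw [e3, hh]
      abel
    · have hne : i ≠ a := fun h => ha (h ▸ hi)
      have e1 : (fun t => h (Function.update (x + ev i) a t)) =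
          fun t => h (Function.update x a t) := by
        funext t
        rw [← hinv i hi (Function.update x a t)]
        congr 1
        funext j
        by_cases hj : j = a
        · subst hj
          simp [B5_ev_ne hne.symm]
        · simp [Function.update_of_ne hj]
      have e2 : (x + ev i) a = x a := by
        rw [Pi.add_apply, B5_ev_ne hne.symm, add_zero]
      simp only [e1, e2]
      rw [hg i hi x]
      abel

theorem closed_one (w : Form n M) (hw : dd w = 0) :
    ∃ g : (Fin n → ℤ) → M, ∀ i x, w {i} x = g (x + ev i) - g x := by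
  obtain ⟨g, hg⟩ := B5_one w hw Finset.univ
  exact ⟨g, fun i x => hg i (Finset.mem_univ i) x⟩

end LibBR40
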