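import Pool.Agent.LibBR40.B3
import Pool.Agent.LibBR40.B5

set_option autoImplicit false

/-! BR40 row B6 (MEDIUM).  The lattice theorem on the box `[0, N]^n`, from B3 (LT) and B5 (dd_ext).

PLAN.  Apply `LT` to `c = ext N (dd a) = dd (ext N a)` (closed by `dd_dd`), `m0 = m + 1`, and
`K' j = {x | cl N x ∈ K j}`.  `c T x ≠ 0` gives `0 ≤ x i < N` for `i ∈ T` and `dd a T (cl N x) ≠ 0`, degree `m + 1`, and
`cl N x` is in the box with `(cl N x) i < N` for `i ∈ T`, so `cl N x ∈ K j` by `h1`.  `cl N` is 1-Lipschitz in each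
coordinate, so `x ∈ Thk n (K' j) → cl N x ∈ Thk n (K j)`, `hord` follows from `h2` (`Set.ncard_le_ncard`).
Boxes: put `ν = μ + n`, `ρ q = (2 * (n - q) + 1) * ν` (natural subtraction), for nonempty `S`
`E S i = {t | |max 0 (min t N) - z (S.min' _) i| ≤ ρ S.card}`, `E ∅ i = Icc 0 0`.
`Half (E S i)` : `2 * ρ < N` by `h4` (`ρ ≤ (2n+1)ν`: use `S.card ≥ 1`, so `ρ ≤ (2n-1)ν`) and `0 ≤ z ≤ N`; with `z` the centre:
if `0 < z - ρ` and `z + ρ < N` it is `Icc (z-ρ) (z+ρ)`; if `z - ρ ≤ 0` it is `Iic (z+ρ)` (then `z + ρ < N`); if `z + ρ ≥ N`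
it is `Ici (z-ρ)` (then `z - ρ > 0`).
`hKE` : `cl N x` is within `μ + n = ν ≤ ρ` of `z (min S)` (h3).  `hmono` : if all of `insert j S` have a common point,
the centres of the two minima differ by at most `2ν`; `(insert j S).card ≤ k + 1 ≤ n` (hord), so
`ρ S.card = ρ (S.card + 1) + 2ν`.  For `S = {j}` : `ρ 1 ≤ 2 n (μ + n)`, so `E {j} i ⊆ {t | ... ≤ 2 n (μ + n)}`.
`e T x ≠ 0` gives `(K' j).Nonempty`, so `(K j).Nonempty`. -/

namespace LibBR40

variable {ι : Type*} [LinearOrder ι] [Fintype ι] {n : ℕ} {M : Type*} [AddCommGroup M]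

private theorem B6_cl_le (N : ℕ) (s t : ℤ) :
    |max 0 (min s (N : ℤ)) - max 0 (min t (N : ℤ))| ≤ |s - t| := by
  rcases abs_cases (s - t) with ⟨h, h'⟩ | ⟨h, h'⟩ <;> rw [h, abs_le] <;> constructor <;> omega

private theorem B6_half {N : ℕ} {c ρ : ℤ} (hρ : 0 ≤ ρ) (h2 : 2 * ρ < N)
    (hc : 0 ≤ c ∧ c ≤ (N : ℤ)) : Half {t : ℤ | |max 0 (min t (N : ℤ)) - c| ≤ ρ} := by
  obtain ⟨hc0, hc1⟩ := hc
  by_cases h3 : c - ρ ≤ 0
  · right; right
    refine ⟨c + ρ, ?_⟩
    ext t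
    simp only [Set.mem_ofPred_eq, Set.mem_Iic, abs_le]
    constructor
    · rintro ⟨h5, h6⟩
      omega
    · intro h5
      constructor <;> omega
  · by_cases h4 : (N : ℤ) ≤ c + ρ
    · right; left
      refine ⟨c - ρ, ?_⟩
      ext t
      simp only [Set.mem_ofPred_eq, Set.mem_Ici, abs_le]
      constructor
      · rintro ⟨h5, h6⟩
        omega
      · intro h5
        constructor <;> omega
    · left
      refine ⟨c - ρ, c + ρ, by omega, ?_⟩
      ext t
      simp only [Set.mem_ofPred_eq, Set.mem_Icc, abs_le]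
      constructor
      · rintro ⟨h5, h6⟩
        constructor <;> omega
      · rintro ⟨h5, h6⟩
        constructor <;> omega

private def B6_rho (n ν q : ℕ) : ℕ := (2 * (n - q) + 1) * ν

private theorem B6_rho_ge (n ν q : ℕ) : ν ≤ B6_rho n ν q := by
  unfold B6_rho
  nlinarith [Nat.zero_le ((n - q) * ν)]

private theorem B6_rho_le {n q : ℕ} (ν : ℕ) (hq : 1 ≤ q) (hn : 1 ≤ n) :
    B6_rho n ν q ≤ 2 * n * ν := by
  unfold B6_rho
  exact Nat.mul_le_mul_right ν (by omega)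

private theorem B6_rho_succ {n q : ℕ} (ν : ℕ) (hq : q + 1 ≤ n) :
    B6_rho n ν q = B6_rho n ν (q + 1) + 2 * ν := by
  unfold B6_rho
  obtain ⟨d, rfl⟩ := Nat.exists_eq_add_of_le hq
  have h1 : q + 1 + d - q = d + 1 := by omega
  have h2 : q + 1 + d - (q + 1) = d := by omega
  rw [h1, h2]
  ring

/-- The boxes. -/
private def B6_E (N ν : ℕ) (z : ι → (Fin n → ℤ)) (S : Finset ι) (i : Fin n) : Set ℤ :=
  if h : S.Nonempty then
    {t : ℤ | |max 0 (min t (N : ℤ)) - z (S.min' h) i| ≤ ((B6_rho n ν S.card : ℕ) : ℤ)}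
  else Set.Icc 0 0

omit [Fintype ι] in
private theorem B6_mem_E {N ν : ℕ} {z : ι → (Fin n → ℤ)} {S : Finset ι} (h : S.Nonempty)
    {i : Fin n} {t : ℤ} : t ∈ B6_E N ν z S i ↔
      |max 0 (min t (N : ℤ)) - z (S.min' h) i| ≤ ((B6_rho n ν S.card : ℕ) : ℤ) := by
  unfold B6_E
  rw [dif_pos h]
  rfl

/-- Points near a set are near its centre. -/
private theorem B6_near {N μ : ℕ} {K : Set (Fin n → ℤ)} {c : Fin n → ℤ}
    (h3 : ∀ x ∈ K, ∀ i, |x i - c i| ≤ (μ : ℤ)) {x : Fin n → ℤ}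
    (hx : x ∈ Thk n {y | cl N y ∈ K}) (i : Fin n) :
    |max 0 (min (x i) (N : ℤ)) - c i| ≤ ((μ + n : ℕ) : ℤ) := by
  obtain ⟨y, hy, hxy⟩ := hx
  have h1 : |max 0 (min (y i) (N : ℤ)) - c i| ≤ (μ : ℤ) := h3 (cl N y) hy i
  have h2 := (B6_cl_le N (x i) (y i)).trans (hxy i)
  have h4 := abs_sub_le (max 0 (min (x i) (N : ℤ))) (max 0 (min (y i) (N : ℤ))) (c i)
  push_cast
  linarith

private theorem B6_dd_ne {a : Form n M} {m : ℕ} (ha : ∀ T x, a T x ≠ 0 → T.card = m)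
    {T : Finset (Fin n)} {x : Fin n → ℤ} (h : dd a T x ≠ 0) : T.card = m + 1 := by
  obtain ⟨i, hi, hne⟩ := Finset.exists_ne_zero_of_sum_ne_zero h
  have h1 : (T.erase i).card = m := by
    by_contra hc
    apply hne
    have h2 : ∀ y, a (T.erase i) y = 0 := fun y => by
      by_contra h3
      exact hc (ha _ y h3)
    rw [h2, h2, sub_zero, smul_zero]
  rw [Finset.card_erase_of_mem hi] at h1
  have h2 : 0 < T.card := Finset.card_pos.2 ⟨i, hi⟩
  omega

theorem LTbox {k N μ m : ℕ} (hm : m + 1 + k < n) (K : ι → Set (Fin n → ℤ))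
    (z : ι → (Fin n → ℤ)) (a : Form n M) (ha : ∀ T x, a T x ≠ 0 → T.card = m)
    (h1 : ∀ T x, (∀ i, 0 ≤ x i ∧ x i ≤ (N : ℤ)) → (∀ i ∈ T, x i < (N : ℤ)) →
      dd a T x ≠ 0 → ∃ j, x ∈ K j)
    (h2 : ∀ x, {j | x ∈ Thk n (K j)}.ncard ≤ k + 1)
    (h3 : ∀ j, ∀ x ∈ K j, ∀ i, |x i - z j i| ≤ (μ : ℤ))
    (h4 : 4 * n * (μ + n) < N)
    (h5 : ∀ j i, 0 ≤ z j i ∧ z j i ≤ (N : ℤ)) :
    ∃ e : Form n M, (∀ T x, e T x ≠ 0 → T.card = m ∧ ∃ j, (K j).Nonempty ∧
      Meets Finset.univ (fun i => {t : ℤ | |max 0 (min t (N : ℤ)) - z j i| ≤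
        ((2 * n * (μ + n) : ℕ) : ℤ)}) T x) ∧ dd (ext N a - e) = 0 := by
  have hn : 1 ≤ n := by omega
  have hN : 0 < N := lt_of_le_of_lt (Nat.zero_le _) h4
  have hcl : ∀ (x : Fin n → ℤ) (i : Fin n), cl N x i = max 0 (min (x i) (N : ℤ)) :=
    fun x i => rfl
  have hord : ∀ x, {j | x ∈ Thk n {y | cl N y ∈ K j}}.ncard ≤ k + 1 := by
    intro x
    refine le_trans (Set.ncard_le_ncard ?_ (Set.toFinite _)) (h2 (cl N x))
    rintro j ⟨y, hy, hxy⟩
    refine ⟨cl N y, hy, fun i => ?_⟩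
    rw [hcl, hcl]
    exact (B6_cl_le N (x i) (y i)).trans (hxy i)
  obtain ⟨e, he, hde⟩ := LT (m0 := m + 1) (k := k) (dd (ext N a)) (fun j => {x | cl N x ∈ K j})
    (by
      intro T x hT
      rw [dd_ext] at hT
      unfold ext at hT
      split_ifs at hT with hc
      · refine ⟨B6_dd_ne ha hT, ?_⟩
        refine h1 T (cl N x) (fun i => ?_) (fun i hi => ?_) hT
        · rw [hcl]
          constructor <;> omega
        · have := hc i hi
          rw [hcl]
          omega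
      · exact absurd rfl hT)
    (dd_dd _) hord hm (B6_E N (μ + n) z)
    (by
      intro S i
      by_cases h : S.Nonempty
      · have h6 : B6_E N (μ + n) z S i = {t : ℤ | |max 0 (min t (N : ℤ)) - z (S.min' h) i| ≤
            ((B6_rho n (μ + n) S.card : ℕ) : ℤ)} := by
          ext t
          exact B6_mem_E h
        rw [h6]
        refine B6_half (by positivity) ?_ (h5 _ i)
        have h7 := B6_rho_le (μ + n) (Finset.card_pos.2 h) hn
        have h8 : 2 * B6_rho n (μ + n) S.card < N := by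
          refine lt_of_le_of_lt ?_ h4
          calc 2 * B6_rho n (μ + n) S.card ≤ 2 * (2 * n * (μ + n)) := by omega
            _ = 4 * n * (μ + n) := by ring
        exact_mod_cast h8
      · left
        refine ⟨0, 0, le_rfl, ?_⟩
        unfold B6_E
        rw [dif_neg h])
    (by
      intro S h x hx i
      rw [B6_mem_E h]
      refine (B6_near (h3 _) (hx _ (Finset.min'_mem S h)) i).trans ?_
      exact_mod_cast B6_rho_ge n (μ + n) S.card)
    (by
      rintro S j h hj ⟨x, hx⟩ i t ht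
      have hi : (insert j S).Nonempty := Finset.insert_nonempty j S
      rw [B6_mem_E hi] at ht
      rw [B6_mem_E h]
      have hcard : S.card + 1 ≤ n := by
        rw [← Finset.card_insert_of_notMem hj, ← Set.ncard_coe_finset]
        refine le_trans (Set.ncard_le_ncard ?_ (Set.toFinite _)) ((hord x).trans (by omega))
        intro l hl
        exact hx l hl
      have e1 := B6_near (h3 _) (hx _ (Finset.min'_mem _ hi)) i
      have e2 := B6_near (h3 _) (hx _ (Finset.mem_insert_of_mem (Finset.min'_mem S h))) i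
      have e3 := B6_rho_succ (μ + n) hcard
      rw [Finset.card_insert_of_notMem hj] at ht
      rw [e3]
      rw [abs_le] at e1 e2 ht ⊢
      push_cast at e1 e2 ht ⊢
      constructor <;> linarith [e1.1, e1.2, e2.1, e2.2, ht.1, ht.2])
  refine ⟨e, fun T x hT => ?_, ?_⟩
  · obtain ⟨h6, j, ⟨y, hy⟩, hM⟩ := he T x hT
    refine ⟨by omega, j, ⟨cl N y, hy⟩, ?_⟩
    have hsub : ∀ i t, t ∈ B6_E N (μ + n) z {j} i → |max 0 (min t (N : ℤ)) - z j i| ≤
        ((2 * n * (μ + n) : ℕ) : ℤ) := by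
      intro i t ht
      rw [B6_mem_E (Finset.singleton_nonempty j), Finset.min'_singleton, Finset.card_singleton]
        at ht
      refine ht.trans ?_
      exact_mod_cast B6_rho_le (μ + n) le_rfl hn
    intro i hi
    rcases hM i hi with h7 | ⟨h7, h8⟩
    · exact Or.inl (hsub i _ h7)
    · exact Or.inr ⟨h7, hsub i _ h8⟩
  · rw [dd_sub, hde, sub_self]

end LibBR40
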