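import Pool.Agent.LibBR40.B6

set_option autoImplicit false

/-! BR40 row B8.  Potentials on the box far from all centres. -/

namespace LibBR40

variable {ι : Type*} [LinearOrder ι] [Fintype ι] {n : ℕ} {M : Type*} [AddCommGroup M]

theorem B8_cl {N : ℕ} {x : Fin n → ℤ} (h : ∀ l, 0 ≤ x l ∧ x l ≤ (N : ℤ)) : cl N x = x := by
  funext l
  obtain ⟨h1, h2⟩ := h l
  simp only [cl]
  rw [min_eq_left h2, max_eq_right h1]

theorem B8_far {N μ : ℕ} {T : Finset (Fin n)} {x zj : Fin n → ℤ}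
    (hx : ∀ l, 0 ≤ x l ∧ x l ≤ (N : ℤ)) (hT : ∀ l ∈ T, x l < (N : ℤ))
    (h : Meets Finset.univ (fun i => {t : ℤ | |max 0 (min t (N : ℤ)) - zj i| ≤
        ((2 * n * (μ + n) : ℕ) : ℤ)}) T x) (l : Fin n) : |x l - zj l| ≤ (Rad n μ : ℤ) := by
  have hR : (Rad n μ : ℤ) = ((2 * n * (μ + n) : ℕ) : ℤ) + 1 := by
    unfold Rad; push_cast; ring
  obtain ⟨h1, h2⟩ := hx l
  rcases h l (Finset.mem_univ l) with h3 | ⟨h3, h4⟩
  · simp only [Set.mem_setOf_eq] at h3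
    rw [min_eq_left h2, max_eq_right h1] at h3
    rw [hR]
    linarith
  · have h5 := hT l h3
    simp only [Set.mem_setOf_eq] at h4
    rw [min_eq_left (by omega), max_eq_right (by omega)] at h4
    rw [hR]
    calc |x l - zj l| = |(x l + 1 - zj l) - 1| := by ring_nf
      _ ≤ |x l + 1 - zj l| + |(1 : ℤ)| := abs_sub _ _
      _ ≤ _ := by rw [abs_one]; linarith

theorem LT1 {k N μ : ℕ} (hkn : k + 3 ≤ n) (K : ι → Set (Fin n → ℤ))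
    (z : ι → (Fin n → ℤ)) (a : Form n M) (ha : ∀ T x, a T x ≠ 0 → T.card = 1)
    (h1 : ∀ T x, (∀ i, 0 ≤ x i ∧ x i ≤ (N : ℤ)) → (∀ i ∈ T, x i < (N : ℤ)) →
      dd a T x ≠ 0 → ∃ j, x ∈ K j)
    (h2 : ∀ x, {j | x ∈ Thk n (K j)}.ncard ≤ k + 1)
    (h3 : ∀ j, ∀ x ∈ K j, ∀ i, |x i - z j i| ≤ (μ : ℤ))
    (h4 : 4 * n * (μ + n) < N)
    (h5 : ∀ j i, 0 ≤ z j i ∧ z j i ≤ (N : ℤ)) :
    ∃ g : (Fin n → ℤ) → M, ∀ (x : Fin n → ℤ) (i : Fin n), (∀ l, 0 ≤ x l ∧ x l ≤ (N : ℤ)) →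
      x i < (N : ℤ) → (∀ j, (K j).Nonempty → ∃ l, (Rad n μ : ℤ) < |x l - z j l|) →
      a {i} x = g (x + ev i) - g x := by
  obtain ⟨e, he, hcl⟩ := LTbox (m := 1) (k := k) (by omega) K z a ha h1 h2 h3 h4 h5
  obtain ⟨g, hg⟩ := closed_one _ hcl
  refine ⟨g, fun x i hx hxi hfar => ?_⟩
  rw [← hg i x]
  have hei : e {i} x = 0 := by
    by_contra h
    obtain ⟨_, j, hj, hM⟩ := he {i} x h
    obtain ⟨l, hl⟩ := hfar j hj
    have := B8_far hx (T := {i}) (fun l hl => by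
      rw [Finset.mem_singleton] at hl; rw [hl]; exact hxi) hM l
    omega
  have hext : ext N a {i} x = a {i} x := by
    unfold ext
    rw [if_pos, B8_cl hx]
    intro l hl
    rw [Finset.mem_singleton] at hl
    rw [hl]
    exact ⟨(hx i).1, hxi⟩
  change a {i} x = ext N a {i} x - e {i} x
  rw [hei, hext, sub_zero]

theorem LT0 {k N μ : ℕ} (hkn : k + 3 ≤ n) (K : ι → Set (Fin n → ℤ))
    (z : ι → (Fin n → ℤ)) (a : Form n M) (ha : ∀ T x, a T x ≠ 0 → T.card = 0)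
    (h1 : ∀ T x, (∀ i, 0 ≤ x i ∧ x i ≤ (N : ℤ)) → (∀ i ∈ T, x i < (N : ℤ)) →
      dd a T x ≠ 0 → ∃ j, x ∈ K j)
    (h2 : ∀ x, {j | x ∈ Thk n (K j)}.ncard ≤ k + 1)
    (h3 : ∀ j, ∀ x ∈ K j, ∀ i, |x i - z j i| ≤ (μ : ℤ))
    (h4 : 4 * n * (μ + n) < N)
    (h5 : ∀ j i, 0 ≤ z j i ∧ z j i ≤ (N : ℤ)) :
    ∃ g : M, ∀ x : Fin n → ℤ, (∀ l, 0 ≤ x l ∧ x l ≤ (N : ℤ)) →
      (∀ j, (K j).Nonempty → ∃ l, (Rad n μ : ℤ) < |x l - z j l|) → a ∅ x = g := by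
  obtain ⟨e, he, hcl⟩ := LTbox (m := 0) (k := k) (by omega) K z a ha h1 h2 h3 h4 h5
  refine ⟨(ext N a - e) ∅ 0, fun x hx hfar => ?_⟩
  rw [← closed_zero _ hcl x 0]
  have hei : e ∅ x = 0 := by
    by_contra h
    obtain ⟨_, j, hj, hM⟩ := he ∅ x h
    obtain ⟨l, hl⟩ := hfar j hj
    have := B8_far hx (T := ∅) (fun l hl => absurd hl (Finset.notMem_empty l)) hM l
    omega
  have hext : ext N a ∅ x = a ∅ x := by
    unfold ext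
    rw [if_pos, B8_cl hx]
    intro l hl
    exact absurd hl (Finset.notMem_empty l)
  change a ∅ x = ext N a ∅ x - e ∅ x
  rw [hei, hext, sub_zero]

end LibBR40
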