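import Pool.Agent.LibBR40.Defs

set_option autoImplicit false

/-! BR40 row D1. -/

namespace LibBR40

/-- closed shrinking of a finite open cover of a compact set -/
theorem D1_shrink {X : Type*} [MetricSpace X] {C : Set X} (hC : IsCompact C) (m : ℕ)
    (U : Fin m → Set X) (hU : ∀ i, IsOpen (U i)) (hCU : C ⊆ ⋃ i, U i) :
    ∃ V : Fin m → Set X, (∀ i, IsCompact (V i)) ∧ (∀ i, V i ⊆ U i) ∧ (∀ i, V i ⊆ C) ∧
      C ⊆ ⋃ i, V i := by
  obtain ⟨K, h1, h2, h3⟩ := hC.finite_compact_cover (Finset.univ : Finset (Fin m)) U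
    (fun i _ => hU i) (by simpa using hCU)
  refine ⟨K, h1, h2, fun i x hx => ?_, ?_⟩
  · rw [h3]
    exact Set.mem_iUnion₂.2 ⟨i, Finset.mem_univ i, hx⟩
  · intro x hx
    rw [h3] at hx
    obtain ⟨i, _, hi⟩ := Set.mem_iUnion₂.1 hx
    exact Set.mem_iUnion.2 ⟨i, hi⟩

theorem D1 {n : ℕ} (hn : 3 ≤ n) (B : Set (Eu n))
    (hB : ∀ (m : ℕ) (U : Fin m → Set (EuclideanSpace ℝ (Fin n))),
            (∀ i, IsOpen (U i)) → B ⊆ ⋃ i, U i →
            ∃ V : Fin m → Set (EuclideanSpace ℝ (Fin n)),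
              (∀ i, IsOpen (V i)) ∧ (∀ i, V i ⊆ U i) ∧ B ⊆ ⋃ i, V i ∧
              ∀ x ∈ B, Set.ncard {i : Fin m | x ∈ V i} ≤ n - 2)
    (C : Set (Eu n)) (hCB : C ⊆ B) (hC : IsCompact C) : CovDim (n - 3) C := by
  intro m U hU hCU
  obtain ⟨V, hVo, hVU, hVB, hVc⟩ := hB (m + 1) (Fin.cons Cᶜ U)
    (by
      intro i
      refine Fin.cases ?_ (fun i => ?_) i
      · exact hC.isClosed.isOpen_compl
      · exact hU i)
    (by
      intro x hx
      by_cases h : x ∈ C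
      · obtain ⟨i, hi⟩ := Set.mem_iUnion.1 (hCU h)
        exact Set.mem_iUnion.2 ⟨i.succ, hi⟩
      · exact Set.mem_iUnion.2 ⟨0, h⟩)
  have hcov : C ⊆ ⋃ i : Fin m, V i.succ := by
    intro x hx
    obtain ⟨i, hi⟩ := Set.mem_iUnion.1 (hVB (hCB hx))
    revert hi
    refine Fin.cases (fun hi => ?_) (fun i hi => ?_) i
    · exact absurd hx (hVU 0 hi)
    · exact Set.mem_iUnion.2 ⟨i, hi⟩
  obtain ⟨W, hW1, hW2, hW3, hW4⟩ := D1_shrink hC m (fun i => V i.succ)
    (fun i => hVo i.succ) hcov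
  refine ⟨W, hW1, fun i => (hW2 i).trans (hVU i.succ), hW3, hW4, fun x => ?_⟩
  by_cases hx : x ∈ C
  · have h1 := hVc x (hCB hx)
    have h2 : {i | x ∈ W i}.ncard ≤ {i : Fin (m + 1) | x ∈ V i}.ncard := by
      refine Set.ncard_le_ncard_of_injOn Fin.succ (fun i hi => hW2 i hi)
        ((Fin.succ_injective m).injOn) (Set.toFinite _)
    omega
  · have : {i | x ∈ W i} = ∅ := by
      ext i
      simp only [Set.mem_setOf_eq, Set.mem_empty_iff_false, iff_false]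
      exact fun h => hx (hW3 i h)
    rw [this]; simp

theorem CovDim_mono {X : Type*} [MetricSpace X] {k : ℕ} {C C' : Set X} (h : C' ⊆ C)
    (hC : IsCompact C) (hC' : IsCompact C') (hd : CovDim k C) : CovDim k C' := by
  intro m U hU hCU
  obtain ⟨V, hV1, hV2, hV3, hV4, hV5⟩ := hd (m + 1) (Fin.cons C'ᶜ U)
    (by
      intro i
      refine Fin.cases ?_ (fun i => ?_) i
      · exact hC'.isClosed.isOpen_compl
      · exact hU i)
    (by
      intro x _
      by_cases h : x ∈ C'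
      · obtain ⟨i, hi⟩ := Set.mem_iUnion.1 (hCU h)
        exact Set.mem_iUnion.2 ⟨i.succ, hi⟩
      · exact Set.mem_iUnion.2 ⟨0, h⟩)
  refine ⟨fun i => V i.succ ∩ C', fun i => (hV1 i.succ).inter hC',
    fun i x hx => hV2 i.succ hx.1, fun i => Set.inter_subset_right, ?_, fun x => ?_⟩
  · intro x hx
    obtain ⟨i, hi⟩ := Set.mem_iUnion.1 (hV4 (h hx))
    revert hi
    refine Fin.cases (fun hi => ?_) (fun i hi => ?_) i
    · exact absurd hx (hV2 0 hi)
    · exact Set.mem_iUnion.2 ⟨i, hi, hx⟩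
  · refine le_trans ?_ (hV5 x)
    exact Set.ncard_le_ncard_of_injOn Fin.succ (fun i hi => hi.1)
        ((Fin.succ_injective m).injOn) (Set.toFinite _)

end LibBR40
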