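import Pool.Agent.LibBR40.Defs

set_option autoImplicit false

/-! BR40 row D2 (SHORT/MEDIUM).  Injective images and finite-to-one preimages.  Only Mathlib.

PLAN `D2`.  `f` is a homeomorphism of the compact `C` onto `f '' C`.  Let `U i` be open, `f '' C ⊆ ⋃ U i`.  `C ∩ f ⁻¹' (U i)` is
open in `C` : `= C ∩ O i` with `O i` open (`ContinuousOn` : `continuousOn_iff'`).  `hd` for the `O i` gives compact `V i ⊆ C ∩ O i`; take
`f '' V i` : compact, inside `U i` and `f '' C`, a cover; by injectivity `{i | y ∈ f '' V i} = {i | x ∈ V i}` for the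
preimage `x` (empty if `y ∉ f '' C`).
PLAN `D5`.  Let `U i` (`i : Fin m`) be open, `C ⊆ ⋃ U i`.  For `y ∈ f '' C` the fibre `C ∩ f ⁻¹' {y}` is finite: choose pairwise
disjoint open `O_{y,l}` around its points, each inside some `U i` (index `i(y,l)`).  The image of the compact
`C \ ⋃_l O_{y,l}` is compact and does not contain `y`; its complement `W_y` is an open neighbourhood of `y` with
`C ∩ f ⁻¹' W_y ⊆ ⋃_l O_{y,l}`.  Finitely many `W_1, ..., W_s` cover the compact `f '' C`; `hd` gives compact `G t ⊆ W_t`,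
`G t ⊆ f '' C`, order `≤ k + 1`.  Put `V i` = union over `t` and over the `l` with `i(y_t, l) = i` of
`C ∩ f ⁻¹' (G t) ∩ O_{t,l}`; this piece is compact since it is `C ∩ f ⁻¹' (G t)` minus the other (open) `O_{t,l'}`.
Order at `x` : if `x ∈ V i` choose `t` with `f x ∈ G t` and `x ∈ O_{t,l}`, `i(t,l) = i`; for given `t` there is only one `l`
(disjoint), so `i ↦ t` is injective and `{i | x ∈ V i}.ncard ≤ {t | f x ∈ G t}.ncard ≤ k + 1`. -/

namespace LibBR40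

/-- the local data at a point `y` -/
private theorem D2_loc {n m : ℕ} (f : Eu n → Eu n) (C : Set (Eu n)) (hC : IsCompact C)
    (hf : ContinuousOn f C) (y : Eu n) (hfin : (C ∩ f ⁻¹' {y}).Finite)
    (U : Fin m → Set (Eu n)) (hU : ∀ i, IsOpen (U i)) (ι : Eu n → Fin m)
    (hι : ∀ x ∈ C, x ∈ U (ι x)) :
    ∃ (O : Eu n → Set (Eu n)) (W : Set (Eu n)), IsOpen W ∧ y ∈ W ∧ (∀ x, IsOpen (O x)) ∧
      (∀ x, O x ⊆ U (ι x)) ∧ (C ∩ f ⁻¹' {y}).PairwiseDisjoint O ∧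
      ∀ x ∈ C, f x ∈ W → ∃ x' ∈ C ∩ f ⁻¹' {y}, x ∈ O x' := by
  obtain ⟨O', hO', hd⟩ := hfin.t2_separation
  have hop : ∀ x, IsOpen (O' x ∩ U (ι x)) := fun x => (hO' x).2.inter (hU _)
  have hcl : IsClosed (f '' (C \ ⋃ x' ∈ C ∩ f ⁻¹' {y}, O' x' ∩ U (ι x'))) :=
    ((hC.diff (isOpen_biUnion fun x' _ => hop x')).image_of_continuousOn
      (hf.mono Set.diff_subset)).isClosed
  refine ⟨fun x => O' x ∩ U (ι x), (f '' (C \ ⋃ x' ∈ C ∩ f ⁻¹' {y}, O' x' ∩ U (ι x')))ᶜ,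
    hcl.isOpen_compl, ?_, hop, fun x => Set.inter_subset_right, ?_, ?_⟩
  · rintro ⟨x, ⟨hxC, hx⟩, hxy⟩
    apply hx
    exact Set.mem_biUnion (x := x) ⟨hxC, hxy⟩ ⟨(hO' x).1, hι x hxC⟩
  · intro a ha b hb hab
    exact (hd ha hb hab).mono Set.inter_subset_left Set.inter_subset_left
  · intro x hxC hxW
    by_contra hcon
    push Not at hcon
    apply hxW
    refine ⟨x, ⟨hxC, ?_⟩, rfl⟩
    intro hx
    obtain ⟨x', hx', hxx'⟩ := Set.mem_iUnion₂.1 hx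
    exact hcon x' hx' hxx'

/-- the pieces are compact -/
private theorem D2_piece {n : ℕ} (f : Eu n → Eu n) (C : Set (Eu n)) (hC : IsCompact C)
    (hf : ContinuousOn f C) (F : Set (Eu n)) (O : Eu n → Set (Eu n)) (W : Set (Eu n))
    (hO : ∀ x, IsOpen (O x)) (hd : F.PairwiseDisjoint O)
    (hW : ∀ x ∈ C, f x ∈ W → ∃ x' ∈ F, x ∈ O x') (G : Set (Eu n)) (hG : IsCompact G)
    (hGW : G ⊆ W) (x' : Eu n) (hx' : x' ∈ F) : IsCompact (C ∩ f ⁻¹' G ∩ O x') := by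
  have h1 : C ∩ f ⁻¹' G ∩ O x' = (C ∩ f ⁻¹' G) \ ⋃ z ∈ F \ {x'}, O z := by
    ext x
    constructor
    · rintro ⟨⟨hxC, hxG⟩, hxO⟩
      refine ⟨⟨hxC, hxG⟩, ?_⟩
      intro hx
      obtain ⟨z, hz, hxz⟩ := Set.mem_iUnion₂.1 hx
      exact Set.disjoint_left.1 (hd hz.1 hx' hz.2) hxz hxO
    · rintro ⟨⟨hxC, hxG⟩, hxO⟩
      refine ⟨⟨hxC, hxG⟩, ?_⟩
      obtain ⟨z, hz, hxz⟩ := hW x hxC (hGW hxG)
      by_cases hzx : z = x'
      · rw [← hzx]; exact hxz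
      · exact absurd (Set.mem_biUnion (x := z) (⟨hz, hzx⟩ : z ∈ F \ {x'}) hxz) hxO
  rw [h1]
  refine IsCompact.diff ?_ (isOpen_biUnion fun z _ => hO z)
  exact hC.of_isClosed_subset (hf.preimage_isClosed_of_isClosed hC.isClosed hG.isClosed)
    Set.inter_subset_left

theorem D2 {n k : ℕ} (f : Eu n → Eu n) (C : Set (Eu n)) (hC : IsCompact C)
    (hf : ContinuousOn f C) (hi : Set.InjOn f C) (hd : CovDim k C) : CovDim k (f '' C) := by
  intro m U hU hcov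
  choose O hO hOe using fun i => continuousOn_iff'.1 hf (U i) (hU i)
  have hOC : ∀ i x, x ∈ C → (x ∈ O i ↔ f x ∈ U i) := fun i x hx => by
    have h1 : x ∈ f ⁻¹' U i ∩ C ↔ x ∈ O i ∩ C := by rw [hOe i]
    constructor
    · intro h; exact (h1.2 ⟨h, hx⟩).1
    · intro h; exact (h1.1 ⟨h, hx⟩).1
  obtain ⟨V, hVc, hVO, hVC, hVcov, hord⟩ := hd m O hO (fun x hx => by
    obtain ⟨i, hi'⟩ := Set.mem_iUnion.1 (hcov ⟨x, hx, rfl⟩)
    exact Set.mem_iUnion.2 ⟨i, (hOC i x hx).2 hi'⟩)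
  refine ⟨fun i => f '' V i, fun i => (hVc i).image_of_continuousOn (hf.mono (hVC i)), ?_, ?_, ?_,
    ?_⟩
  · rintro i _ ⟨x, hx, rfl⟩
    exact (hOC i x (hVC i hx)).1 (hVO i hx)
  · rintro i _ ⟨x, hx, rfl⟩
    exact ⟨x, hVC i hx, rfl⟩
  · rintro _ ⟨x, hx, rfl⟩
    obtain ⟨i, hi'⟩ := Set.mem_iUnion.1 (hVcov hx)
    exact Set.mem_iUnion.2 ⟨i, x, hi', rfl⟩
  · intro y
    by_cases hy : y ∈ f '' C
    · obtain ⟨x, hx, rfl⟩ := hy
      have h1 : {i | f x ∈ f '' V i} = {i | x ∈ V i} := by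
        ext i
        constructor
        · rintro ⟨x', hx', hxx'⟩
          have := hi (hVC i hx') hx hxx'
          show x ∈ V i
          rw [← this]
          exact hx'
        · intro h
          exact ⟨x, h, rfl⟩
      rw [h1]
      exact hord x
    · have h1 : {i | y ∈ f '' V i} = ∅ := by
        rw [Set.eq_empty_iff_forall_notMem]
        rintro i ⟨x, hx, rfl⟩
        exact hy ⟨x, hVC i hx, rfl⟩
      rw [h1, Set.ncard_empty]
      exact Nat.zero_le _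

theorem D5 {n k : ℕ} (f : Eu n → Eu n) (C : Set (Eu n)) (hC : IsCompact C)
    (hf : ContinuousOn f C) (hfin : ∀ y, (C ∩ f ⁻¹' {y}).Finite)
    (hd : CovDim k (f '' C)) : CovDim k C := by
  classical
  intro m U hU hcov
  rcases C.eq_empty_or_nonempty with hCe | ⟨x0, hx0⟩
  · refine ⟨fun _ => ∅, fun _ => isCompact_empty, fun _ => Set.empty_subset _,
      fun _ => Set.empty_subset _, ?_, ?_⟩
    · rw [hCe]; exact Set.empty_subset _
    · intro x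
      have h1 : {i : Fin m | x ∈ (∅ : Set (Eu n))} = ∅ := by
        rw [Set.eq_empty_iff_forall_notMem]
        rintro i hi
        exact hi
      rw [h1, Set.ncard_empty]
      exact Nat.zero_le _
  haveI : Nonempty (Fin m) := by
    obtain ⟨i, -⟩ := Set.mem_iUnion.1 (hcov hx0)
    exact ⟨i⟩
  have hex : ∀ x, ∃ i, x ∈ C → x ∈ U i := fun x => by
    by_cases hx : x ∈ C
    · obtain ⟨i, hi⟩ := Set.mem_iUnion.1 (hcov hx)
      exact ⟨i, fun _ => hi⟩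
    · exact ⟨Classical.arbitrary _, fun h => absurd h hx⟩
  choose ι hι using hex
  choose O W hWo hyW hOo hOU hOd hOW using fun y =>
    D2_loc f C hC hf y (hfin y) U hU ι hι
  obtain ⟨t, htC, htcov⟩ := (hC.image_of_continuousOn hf).elim_nhds_subcover W
    (fun y _ => (hWo y).mem_nhds (hyW y))
  let e : Fin t.card → Eu n := fun j => (t.equivFin.symm j : Eu n)
  obtain ⟨G, hGc, hGW, hGC, hGcov, hord⟩ := hd t.card (fun j => W (e j)) (fun j => hWo _)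
    (fun y hy => by
      obtain ⟨z, hz, hyz⟩ := Set.mem_iUnion₂.1 (htcov hy)
      refine Set.mem_iUnion.2 ⟨t.equivFin ⟨z, hz⟩, ?_⟩
      show y ∈ W ((t.equivFin.symm (t.equivFin ⟨z, hz⟩) : t) : Eu n)
      rw [Equiv.symm_apply_apply]
      exact hyz)
  let Fb : Fin t.card → Set (Eu n) := fun j => C ∩ f ⁻¹' {e j}
  refine ⟨fun i => ⋃ j : Fin t.card, ⋃ x' ∈ {x' | x' ∈ Fb j ∧ ι x' = i},
    C ∩ f ⁻¹' (G j) ∩ O (e j) x', ?_, ?_, ?_, ?_, ?_⟩
  · intro i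
    refine isCompact_iUnion fun j => ?_
    refine Set.Finite.isCompact_biUnion ((hfin (e j)).subset fun x' hx' => hx'.1) fun x' hx' => ?_
    exact D2_piece f C hC hf (Fb j) (O (e j)) (W (e j)) (hOo (e j)) (hOd (e j)) (hOW (e j)) (G j)
      (hGc j) (hGW j) x' hx'.1
  · intro i x hx
    obtain ⟨j, hx⟩ := Set.mem_iUnion.1 hx
    obtain ⟨x', hx', hx⟩ := Set.mem_iUnion₂.1 hx
    have := hOU (e j) x' hx.2
    rwa [hx'.2] at this
  · intro i x hx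
    obtain ⟨j, hx⟩ := Set.mem_iUnion.1 hx
    obtain ⟨x', hx', hx⟩ := Set.mem_iUnion₂.1 hx
    exact hx.1.1
  · intro x hx
    obtain ⟨j, hj⟩ := Set.mem_iUnion.1 (hGcov ⟨x, hx, rfl⟩)
    obtain ⟨x', hx', hxx'⟩ := hOW (e j) x hx (hGW j hj)
    exact Set.mem_iUnion.2 ⟨ι x', Set.mem_iUnion.2 ⟨j, Set.mem_iUnion₂.2
      ⟨x', ⟨hx', rfl⟩, ⟨⟨hx, hj⟩, hxx'⟩⟩⟩⟩
  · intro x
    have hch : ∀ i : Fin m, ∃ j : Fin t.card, x ∈ (⋃ j : Fin t.card,
        ⋃ x' ∈ {x' | x' ∈ Fb j ∧ ι x' = i}, C ∩ f ⁻¹' (G j) ∩ O (e j) x') →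
        ∃ x', (x' ∈ Fb j ∧ ι x' = i) ∧ x ∈ C ∩ f ⁻¹' (G j) ∩ O (e j) x' := fun i => by
      by_cases hx : x ∈ (⋃ j : Fin t.card,
        ⋃ x' ∈ {x' | x' ∈ Fb j ∧ ι x' = i}, C ∩ f ⁻¹' (G j) ∩ O (e j) x')
      · obtain ⟨j, hx⟩ := Set.mem_iUnion.1 hx
        obtain ⟨x', hx', hx⟩ := Set.mem_iUnion₂.1 hx
        exact ⟨j, fun _ => ⟨x', hx', hx⟩⟩
      · obtain ⟨j, -⟩ := Set.mem_iUnion.1 (hGcov ⟨x0, hx0, rfl⟩)
        exact ⟨j, fun h => absurd h hx⟩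
    choose jj hjj using hch
    refine le_trans (Set.ncard_le_ncard_of_injOn jj ?_ ?_) (hord (f x))
    · intro i hi
      obtain ⟨x', -, hx⟩ := hjj i hi
      exact hx.1.2
    · intro i hi i' hi' hii
      obtain ⟨x', hx', hx⟩ := hjj i hi
      obtain ⟨x'', hx'', hxx⟩ := hjj i' hi'
      rw [← hii] at hx'' hxx
      by_cases hne : x' = x''
      · rw [← hx'.2, ← hx''.2, hne]
      · exact absurd hxx.2 (Set.disjoint_left.1 (hOd (e (jj i)) hx'.1 hx''.1 hne) hx.2)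

end LibBR40
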