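import Pool.Agent.LibBR40.Defs

set_option autoImplicit false

/-! BR40 row D3 (STRONG).  Countable sum theorem for `CovDim` on compact metric sets.  Only Mathlib.

PLAN.  Step lemma: `C` compact, `F ⊆ C` compact with `CovDim k F`, `U : Fin m → Set X` open with `C ⊆ ⋃ U i`.  Then there is an
open `U' : Fin m → Set X` with `closure (U' i) ⊆ U i`, `C ⊆ ⋃ U' i`, and `{i | x ∈ closure (U' i)}.ncard ≤ k + 1` for all `x ∈ F`.
Proof: `CovDim k F` gives compact `D i ⊆ U i`, order `≤ k + 1`, covering `F`.  There are open `G i ⊇ D i` with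
`closure (G i) ⊆ U i` and the order of the `closure (G i)` is still `≤ k + 1` (take thickenings of radius `τ`: for each finset `S`
with `S.card = k + 2` the intersection of the compact `D i`, `i ∈ S`, is empty, so for small `τ` the intersection of the
`cthickening τ (D i)` over `S` is empty as well: the function `x ↦ ∑_{i∈S} infDist x (D i)`; it is enough to know this for `x ∈ C`).
`⋃ G i` is an open neighbourhood of `F`; choose open `N ⊇ F` with `closure N ⊆ ⋃ G i` (metric: thickening of the compact F).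
Shrink the cover `U` of the compact `C` to open `S i` with `closure (S i) ⊆ U i`, `C ⊆ ⋃ S i`
(`exists_iUnion_eq_closure_subset`-type lemmas, or Lebesgue number), and put `U' i = G i ∪ (S i \ closure N)`.
Cover: `x ∈ closure N` is in some `G i`.  On `F` : `closure (S i \ closure N)` does not meet `N ⊇ F`.
Main: given a finite open cover `U` of `C` construct `U_0 = U`, `U_{t+1}` from `U_t` and `F t` (choice, `Nat.rec` on the subtype
of open covers of `C`).  Put `V i = C ∩ ⋂_t closure (U_{t+1} i)` : compact, `⊆ U i`.  Cover: for `x ∈ C` and each `t` some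
`i(t)` has `x ∈ U_t i(t)`; some `i` occurs infinitely often (finite index set), and `U_{t+1} i ⊆ U_t i`, so `x ∈ U_t i`
for all `t`.  Order: `x ∈ C` is in some `F t`, so `{i | x ∈ closure (U_{t+1} i)}.ncard ≤ k + 1`. -/

namespace LibBR40

private theorem D3_tau {X : Type*} [MetricSpace X] {k m : ℕ} (F : Set X) (hF : IsCompact F)
    (D U : Fin m → Set X) (hD : ∀ i, IsCompact (D i)) (hU : ∀ i, IsOpen (U i))
    (hDU : ∀ i, D i ⊆ U i) (ho : ∀ x, {i | x ∈ D i}.ncard ≤ k + 1) :
    ∃ τ : ℝ, 0 < τ ∧ (∀ i, Metric.cthickening τ (D i) ⊆ U i) ∧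
      ∀ x ∈ F, {i | x ∈ Metric.cthickening τ (D i)}.ncard ≤ k + 1 := by
  classical
  have h1 : ∀ i, ∃ n : ℕ, ∀ n' : ℕ, n ≤ n' → Metric.cthickening (1 / ((n' : ℝ) + 1)) (D i) ⊆ U i := by
    intro i
    obtain ⟨δ, hδ, hs⟩ := (hD i).exists_cthickening_subset_open (hU i) (hDU i)
    obtain ⟨n, hn⟩ := exists_nat_one_div_lt hδ
    refine ⟨n, fun n' hn' => (Metric.cthickening_mono ?_ _).trans hs⟩
    refine le_trans ?_ hn.le
    exact one_div_le_one_div_of_le (by positivity) (by exact_mod_cast Nat.add_le_add_right hn' 1)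
  have h2 : ∀ S : Finset (Fin m), S.card = k + 2 → ∃ n : ℕ, ∀ n' : ℕ, n ≤ n' →
      ∀ x ∈ F, ∃ i ∈ S, x ∉ Metric.cthickening (1 / ((n' : ℝ) + 1)) (D i) := by
    intro S hS
    have hcov : F ⊆ ⋃ n : ℕ, ⋃ i ∈ S, (Metric.cthickening (1 / ((n : ℝ) + 1)) (D i))ᶜ := by
      intro x hx
      have : ∃ i ∈ S, x ∉ D i := by
        by_contra hcon
        push Not at hcon
        have hsub : (S : Set (Fin m)) ⊆ {i | x ∈ D i} := fun i hi => hcon i hi
        have := Set.ncard_le_ncard hsub (Set.toFinite _)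
        rw [Set.ncard_coe_finset, hS] at this
        have := ho x
        omega
      obtain ⟨i, hi, hxi⟩ := this
      have hcl : x ∉ closure (D i) := by rwa [(hD i).isClosed.closure_eq]
      have hpos : ∃ n : ℕ, x ∉ Metric.cthickening (1 / ((n : ℝ) + 1)) (D i) := by
        by_contra hcon
        push Not at hcon
        apply hcl
        rw [Metric.closure_eq_iInter_cthickening' (D i) (Set.range fun n : ℕ => 1 / ((n : ℝ) + 1))
          ?_]
        · simp only [Set.mem_iInter]
          rintro δ ⟨n, rfl⟩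
          exact hcon n
        · intro ε hε
          obtain ⟨n, hn⟩ := exists_nat_one_div_lt hε
          exact ⟨_, ⟨n, rfl⟩, ⟨by positivity, hn.le⟩⟩
      obtain ⟨n, hn⟩ := hpos
      simp only [Set.mem_iUnion]
      exact ⟨n, i, hi, hn⟩
    have mono : ∀ n n' : ℕ, n ≤ n' → (⋃ i ∈ S, (Metric.cthickening (1 / ((n : ℝ) + 1)) (D i))ᶜ) ⊆
        ⋃ i ∈ S, (Metric.cthickening (1 / ((n' : ℝ) + 1)) (D i))ᶜ := by
      intro n n' hn
      refine Set.iUnion₂_mono fun i _ => Set.compl_subset_compl.mpr (Metric.cthickening_mono ?_ _)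
      exact one_div_le_one_div_of_le (by positivity) (by exact_mod_cast Nat.add_le_add_right hn 1)
    obtain ⟨n, hn⟩ := hF.elim_directed_cover
      (fun n : ℕ => ⋃ i ∈ S, (Metric.cthickening (1 / ((n : ℝ) + 1)) (D i))ᶜ)
      (fun n => isOpen_biUnion fun i _ => Metric.isClosed_cthickening.isOpen_compl) hcov
      (Monotone.directed_le fun a b hab => mono a b hab)
    refine ⟨n, fun n' hn' x hx => ?_⟩
    have := mono n n' hn' (hn hx)
    simp only [Set.mem_iUnion] at this
    obtain ⟨i, hi, hxi⟩ := this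
    exact ⟨i, hi, hxi⟩
  choose n1 hn1 using h1
  choose! n2 hn2 using h2
  set N := (Finset.univ.sup n1) + (Finset.univ.sup n2) with hN
  have hN1 : ∀ i, n1 i ≤ N := fun i => le_trans (Finset.le_sup (f := n1) (Finset.mem_univ i))
    (Nat.le_add_right _ _)
  have hN2 : ∀ S, n2 S ≤ N := fun S => le_trans (Finset.le_sup (f := n2) (Finset.mem_univ S))
    (Nat.le_add_left _ _)
  refine ⟨1 / ((N : ℝ) + 1), by positivity, fun i => hn1 i N (hN1 i), fun x hx => ?_⟩
  by_contra hcon
  push Not at hcon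
  have hfin : ({i | x ∈ Metric.cthickening (1 / ((N : ℝ) + 1)) (D i)}).Finite := Set.toFinite _
  have hc2 : k + 2 ≤ (hfin.toFinset).card := by
    rw [← Set.ncard_eq_toFinset_card _ hfin]; omega
  obtain ⟨S, hS, hSc⟩ := Finset.exists_subset_card_eq hc2
  obtain ⟨i, hi, hxi⟩ := hn2 S hSc N (hN2 S) x hx
  have := hS hi
  rw [Set.Finite.mem_toFinset] at this
  exact hxi this

private theorem D3_step {X : Type*} [MetricSpace X] {k m : ℕ} (C F : Set X) (hC : IsCompact C)
    (hF : IsCompact F) (hFC : F ⊆ C) (hd : CovDim k F) (U : Fin m → Set X)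
    (hU : ∀ i, IsOpen (U i)) (hCU : C ⊆ ⋃ i, U i) :
    ∃ U' : Fin m → Set X, (∀ i, IsOpen (U' i)) ∧ (∀ i, closure (U' i) ⊆ U i) ∧
      C ⊆ ⋃ i, U' i ∧ ∀ x ∈ F, {i | x ∈ closure (U' i)}.ncard ≤ k + 1 := by
  obtain ⟨D, hDc, hDU, hDF, hFD, ho⟩ := hd m U hU (hFC.trans hCU)
  obtain ⟨τ, hτ, hτU, hτo⟩ := D3_tau F hF D U hDc hU hDU ho
  set G : Fin m → Set X := fun i => Metric.thickening τ (D i) with hG
  have hGo : ∀ i, IsOpen (G i) := fun i => Metric.isOpen_thickening
  have hGc : ∀ i, closure (G i) ⊆ Metric.cthickening τ (D i) := fun i =>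
    Metric.closure_thickening_subset_cthickening _ _
  have hFG : F ⊆ ⋃ i, G i := hFD.trans (Set.iUnion_mono fun i => Metric.self_subset_thickening hτ _)
  obtain ⟨δ, hδ, hK⟩ := hF.exists_cthickening_subset_open (isOpen_iUnion hGo) hFG
  obtain ⟨S, hCS, hSo, hSU⟩ := exists_subset_iUnion_closure_subset hC.isClosed hU
    (fun x _ => Set.toFinite _) hCU
  refine ⟨fun i => G i ∪ (S i \ Metric.cthickening δ F), fun i => (hGo i).union
    ((hSo i).sdiff Metric.isClosed_cthickening), fun i => ?_, fun x hx => ?_, fun x hx => ?_⟩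
  · rw [closure_union]
    exact Set.union_subset ((hGc i).trans (hτU i))
      ((closure_mono Set.sdiff_subset).trans (hSU i))
  · by_cases h : x ∈ Metric.cthickening δ F
    · have := hK h
      rw [Set.mem_iUnion] at this ⊢
      obtain ⟨i, hi⟩ := this
      exact ⟨i, Or.inl hi⟩
    · have := hCS hx
      rw [Set.mem_iUnion] at this ⊢
      obtain ⟨i, hi⟩ := this
      exact ⟨i, Or.inr ⟨hi, h⟩⟩
  · refine le_trans (Set.ncard_le_ncard ?_ (Set.toFinite _)) (hτo x hx)
    intro i hi
    have hi' : x ∈ closure (G i ∪ (S i \ Metric.cthickening δ F)) := hi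
    rw [closure_union] at hi'
    rcases hi' with h | h
    · exact hGc i h
    · exfalso
      rw [mem_closure_iff] at h
      obtain ⟨y, hy1, hy2⟩ := h (Metric.thickening δ F) Metric.isOpen_thickening
        (Metric.self_subset_thickening hδ _ hx)
      exact hy2.2 (Metric.thickening_subset_cthickening _ _ hy1)

theorem D3 {X : Type*} [MetricSpace X] {k : ℕ} (C : Set X) (hC : IsCompact C)
    (F : ℕ → Set X) (hF : ∀ t, IsCompact (F t)) (hd : ∀ t, CovDim k (F t))
    (hCF : C = ⋃ t, F t) : CovDim k C := by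
  classical
  intro m U hU hCU
  have hFC : ∀ t, F t ⊆ C := fun t => hCF ▸ Set.subset_iUnion F t
  let T := {U : Fin m → Set X // (∀ i, IsOpen (U i)) ∧ C ⊆ ⋃ i, U i}
  have hstep : ∀ (t : ℕ) (W : T), ∃ W' : T, (∀ i, closure (W'.1 i) ⊆ W.1 i) ∧
      ∀ x ∈ F t, {i | x ∈ closure (W'.1 i)}.ncard ≤ k + 1 := by
    intro t W
    obtain ⟨U', h1, h2, h3, h4⟩ := D3_step C (F t) hC (hF t) (hFC t) (hd t) W.1 W.2.1 W.2.2
    exact ⟨⟨U', h1, h3⟩, h2, h4⟩
  choose st hst1 hst2 using hstep
  let W : ℕ → T := fun n => Nat.rec (⟨U, hU, hCU⟩ : T) (fun t w => st t w) n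
  have hW0 : W 0 = ⟨U, hU, hCU⟩ := rfl
  have hWs : ∀ t, W (t + 1) = st t (W t) := fun t => rfl
  have hcl : ∀ t i, closure ((W (t + 1)).1 i) ⊆ (W t).1 i := by
    intro t i; rw [hWs]; exact hst1 t (W t) i
  have hanti : ∀ i, ∀ s t, s ≤ t → (W t).1 i ⊆ (W s).1 i := by
    intro i s t hst
    induction t, hst using Nat.le_induction with
    | base => exact subset_rfl
    | succ t _ ih => exact (subset_closure.trans (hcl t i)).trans ih
  refine ⟨fun i => C ∩ ⋂ t, closure ((W (t + 1)).1 i), fun i => ?_, fun i => ?_, fun i => ?_, ?_,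
    fun x => ?_⟩
  · exact hC.inter_right (isClosed_iInter fun t => isClosed_closure)
  · refine Set.inter_subset_right.trans ((Set.iInter_subset _ 0).trans ?_)
    exact hcl 0 i
  · exact Set.inter_subset_left
  · intro x hx
    have h1 : ∀ t, ∃ i, x ∈ (W t).1 i := by
      intro t
      have := (W t).2.2 hx
      rwa [Set.mem_iUnion] at this
    choose f hf using h1
    have hinf : ∃ i, ∀ s, ∃ t, s ≤ t ∧ f t = i := by
      by_contra hcon
      push Not at hcon
      choose s hs using hcon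
      have h2 := hs (f (Finset.univ.sup s)) (Finset.univ.sup s) (Finset.le_sup (Finset.mem_univ _))
      exact h2 rfl
    obtain ⟨i, hi⟩ := hinf
    rw [Set.mem_iUnion]
    refine ⟨i, hx, ?_⟩
    rw [Set.mem_iInter]
    intro s
    obtain ⟨t, hst, hft⟩ := hi (s + 1)
    exact subset_closure (hanti i (s + 1) t hst (hft ▸ hf t))
  · by_cases hx : x ∈ C
    · rw [hCF, Set.mem_iUnion] at hx
      obtain ⟨t, ht⟩ := hx
      refine le_trans (Set.ncard_le_ncard ?_ (Set.toFinite _)) (hst2 t (W t) x ht)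
      intro i hi
      have := (Set.mem_iInter.mp hi.2) t
      rw [← hWs]; exact this
    · have : {i : Fin m | x ∈ C ∩ ⋂ t, closure ((W (t + 1)).1 i)} = ∅ := by
        ext i
        simp only [Set.mem_ofPred_eq, Set.mem_empty_iff_false, iff_false]
        exact fun h => hx h.1
      rw [this, Set.ncard_empty]
      omega

end LibBR40
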