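import Pool.Agent.LibBR40.D1
import Pool.Agent.LibBR40.D2
import Pool.Agent.LibBR40.D3

set_option autoImplicit false

/-! BR40 row D4 (STRONG).  Proper open finite-to-one maps do not raise the dimension of compact sets.
You may use D1 (CovDim_mono), D2, D3.

PLAN.  For `y ∈ V` let `N y = (U ∩ f ⁻¹' {y}).ncard`.
(a) `{y ∈ V | m ≤ N y}` is open: `m` different preimages have disjoint open neighbourhoods in `U`, the intersection of `V` and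
their images is open (`opn`).
(b) Let `y0 ∈ V`, `m = N y0`, preimages `x_1, ..., x_m`, disjoint open `O_i ∋ x_i`, `O_i ⊆ U`.  There is an open `W ∋ y0`, `W ⊆ V`,
with `U ∩ f ⁻¹' W ⊆ ⋃ O_i` and `W ⊆ f '' O_i` for all `i` : take a compact neighbourhood `K ⊆ V` of `y0`; the compact set
`(U ∩ f ⁻¹' K) \ ⋃ O_i` has compact image not containing `y0`.
(c) Let `Wc ⊆ W` be a closed ball around `y0`, `S = {y ∈ Wc | N y = m}`, compact by (a) (`N ≥ m` on `W`).  On `U ∩ f ⁻¹' S` every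
`O_i` contains exactly one preimage of each `y ∈ S`, so `f` is injective on `E_i = B0 ∩ f ⁻¹' S ∩ O_i`, and
`E_i = (B0 ∩ f ⁻¹' S) \ ⋃_{l ≠ i} O_l` is compact.  `CovDim k (E_i)` (CovDim_mono), `CovDim k (f '' E_i)` (D2), and
`S ∩ f '' B0 = ⋃ i, f '' E_i`.
(d) For each `m` the set `{y ∈ f '' B0 | N y = m}` is covered by countably many of the balls (interiors) of (c)
(`TopologicalSpace.isOpen_biUnion_countable` or Lindelof), so `f '' B0` is a countable union of the compact sets `f '' E_i`;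
enumerate with `ℕ` (empty sets allowed; if `B0 = ∅` trivial) and apply D3. -/

namespace LibBR40

private theorem D4_loc {n : ℕ} {f : Eu n → Eu n} {U V : Set (Eu n)} (h : OD f U V) (y0 : Eu n)
    (hy0 : y0 ∈ V) : ∃ (O : Eu n → Set (Eu n)) (W : Set (Eu n)), IsOpen W ∧ y0 ∈ W ∧ W ⊆ V ∧
      (∀ x ∈ U ∩ f ⁻¹' {y0}, IsOpen (O x) ∧ x ∈ O x ∧ O x ⊆ U) ∧
      (U ∩ f ⁻¹' {y0}).PairwiseDisjoint O ∧
      U ∩ f ⁻¹' W ⊆ (⋃ x ∈ U ∩ f ⁻¹' {y0}, O x) ∧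
      ∀ x ∈ U ∩ f ⁻¹' {y0}, W ⊆ f '' (O x) := by
  obtain ⟨O', hO', hd⟩ := (h.fin y0 hy0).t2_separation
  set P := U ∩ f ⁻¹' {y0} with hP
  have hO : ∀ x ∈ P, IsOpen (O' x ∩ U) ∧ x ∈ O' x ∩ U ∧ O' x ∩ U ⊆ U := fun x hx =>
    ⟨(hO' x).2.inter h.oU, ⟨(hO' x).1, hx.1⟩, Set.inter_subset_right⟩
  obtain ⟨ε, hε, hεV⟩ := Metric.isOpen_iff.mp h.oV y0 hy0
  have hKV : Metric.closedBall y0 (ε / 2) ⊆ V :=
    (Metric.closedBall_subset_ball (by linarith)).trans hεV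
  have hKc : IsCompact (Metric.closedBall y0 (ε / 2)) := isCompact_closedBall _ _
  have hun : IsOpen (⋃ x ∈ P, O' x ∩ U) := isOpen_biUnion fun x hx => (hO x hx).1
  have hQc : IsCompact ((U ∩ f ⁻¹' Metric.closedBall y0 (ε / 2)) \ ⋃ x ∈ P, O' x ∩ U) :=
    (h.prp _ hKV hKc).diff hun
  have hQU : ((U ∩ f ⁻¹' Metric.closedBall y0 (ε / 2)) \ ⋃ x ∈ P, O' x ∩ U) ⊆ U :=
    fun x hx => hx.1.1
  have hfQ := hQc.image_of_continuousOn (h.cont.mono hQU)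
  refine ⟨fun x => O' x ∩ U, Metric.ball y0 (ε / 2) ∩
    (f '' ((U ∩ f ⁻¹' Metric.closedBall y0 (ε / 2)) \ ⋃ x ∈ P, O' x ∩ U))ᶜ ∩
      ⋂ x ∈ P, f '' (O' x ∩ U), ?_, ?_, ?_, hO, ?_, ?_, ?_⟩
  · refine (Metric.isOpen_ball.inter hfQ.isClosed.isOpen_compl).inter ?_
    exact (h.fin y0 hy0).isOpen_biInter fun x hx => h.opn _ (hO x hx).1 (hO x hx).2.2
  · refine ⟨⟨Metric.mem_ball_self (by linarith), ?_⟩, ?_⟩
    · rintro ⟨x, hx, hxy⟩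
      apply hx.2
      have hxP : x ∈ P := ⟨hx.1.1, hxy⟩
      exact Set.mem_biUnion hxP (hO x hxP).2.1
    · rw [Set.mem_iInter₂]
      intro x hx
      exact ⟨x, (hO x hx).2.1, hx.2⟩
  · intro y hy
    exact hKV (Metric.ball_subset_closedBall hy.1.1)
  · intro x hx x' hx' hne
    exact (hd hx hx' hne).mono Set.inter_subset_left Set.inter_subset_left
  · rintro x ⟨hxU, hxW⟩
    by_contra hcon
    exact hxW.1.2 ⟨x, ⟨⟨hxU, Metric.ball_subset_closedBall hxW.1.1⟩, hcon⟩, rfl⟩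
  · intro x hx y hy
    exact (Set.mem_iInter₂.mp hy.2) x hx

private theorem D4_g {n : ℕ} {f : Eu n → Eu n} {U V : Set (Eu n)} (h : OD f U V) {y0 y : Eu n}
    {O : Eu n → Set (Eu n)} {W : Set (Eu n)} (hyV : y ∈ V) (hy : y ∈ W)
    (hO : ∀ x ∈ U ∩ f ⁻¹' {y0}, IsOpen (O x) ∧ x ∈ O x ∧ O x ⊆ U)
    (hd : (U ∩ f ⁻¹' {y0}).PairwiseDisjoint O)
    (hW : ∀ x ∈ U ∩ f ⁻¹' {y0}, W ⊆ f '' (O x)) :
    (U ∩ f ⁻¹' {y0}).ncard ≤ (U ∩ f ⁻¹' {y}).ncard ∧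
    ((U ∩ f ⁻¹' {y}).ncard = (U ∩ f ⁻¹' {y0}).ncard → ∀ x ∈ U ∩ f ⁻¹' {y0}, ∀ a ∈ O x, ∀ b ∈ O x,
      f a = y → f b = y → a = b) := by
  classical
  have hg : ∀ x ∈ U ∩ f ⁻¹' {y0}, ∃ z ∈ O x, f z = y := fun x hx => hW x hx hy
  choose! g hg1 hg2 using hg
  have hmaps : ∀ x ∈ U ∩ f ⁻¹' {y0}, g x ∈ U ∩ f ⁻¹' {y} := fun x hx =>
    ⟨(hO x hx).2.2 (hg1 x hx), hg2 x hx⟩
  have hinj : Set.InjOn g (U ∩ f ⁻¹' {y0}) := by
    intro x hx x' hx' hxx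
    by_contra hne
    have := Set.disjoint_left.mp (hd hx hx' hne) (hg1 x hx)
    exact this (hxx ▸ hg1 x' hx')
  have hfin := h.fin y hyV
  refine ⟨Set.ncard_le_ncard_of_injOn g hmaps hinj hfin, fun heq => ?_⟩
  have hsurj : ∀ z ∈ U ∩ f ⁻¹' {y}, ∃ x ∈ U ∩ f ⁻¹' {y0}, g x = z := by
    have himg : g '' (U ∩ f ⁻¹' {y0}) = U ∩ f ⁻¹' {y} := by
      refine Set.eq_of_subset_of_ncard_le (Set.image_subset_iff.mpr hmaps) ?_ hfin
      rw [Set.InjOn.ncard_image hinj, heq]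
    intro z hz
    rw [← himg] at hz
    exact hz
  have key : ∀ x ∈ U ∩ f ⁻¹' {y0}, ∀ a ∈ O x, f a = y → a = g x := by
    intro x hx a ha hfa
    obtain ⟨x', hx', hgx'⟩ := hsurj a ⟨(hO x hx).2.2 ha, hfa⟩
    have : x' = x := by
      by_contra hne
      exact Set.disjoint_left.mp (hd hx' hx hne) (hg1 x' hx') (hgx' ▸ ha)
    rw [← this]; exact hgx'.symm
  intro x hx a ha b hb hfa hfb
  rw [key x hx a ha hfa, key x hx b hb hfb]

private theorem D4_point {n k : ℕ} {f : Eu n → Eu n} {U V : Set (Eu n)} (h : OD f U V)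
    (B0 : Set (Eu n)) (hB0 : B0 ⊆ U) (hc : IsCompact B0) (hd : CovDim k B0) (x0 : Eu n)
    (hx0 : x0 ∈ U) : ∃ (O' : Set (Eu n)) (E : Set (Eu n)), IsOpen O' ∧ x0 ∈ O' ∧
      E ⊆ B0 ∧ IsCompact (f '' E) ∧ CovDim k (f '' E) ∧
      (∀ x ∈ B0, x ∈ O' → (U ∩ f ⁻¹' {f x}).ncard = (U ∩ f ⁻¹' {f x0}).ncard → x ∈ E) := by
  classical
  have hy0 : f x0 ∈ V := h.img ▸ Set.mem_image_of_mem f hx0
  obtain ⟨O, W, hWo, hyW, hWV, hO, hdis, hcov, hWO⟩ := D4_loc h (f x0) hy0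
  set P := U ∩ f ⁻¹' {f x0} with hP
  have hx0P : x0 ∈ P := ⟨hx0, rfl⟩
  obtain ⟨r, hr, hrW⟩ := Metric.isOpen_iff.mp hWo (f x0) hyW
  have hbW : Metric.closedBall (f x0) (r / 2) ⊆ W :=
    (Metric.closedBall_subset_ball (by linarith)).trans hrW
  -- the set of larger fibres is open
  have hbig : IsOpen {y | y ∈ V ∧ P.ncard < (U ∩ f ⁻¹' {y}).ncard} := by
    rw [isOpen_iff_forall_mem_open]
    rintro y ⟨hyV, hyN⟩
    obtain ⟨O1, W1, hW1o, hyW1, hW1V, hO1, hdis1, _, hWO1⟩ := D4_loc h y hyV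
    refine ⟨W1, fun z hz => ⟨hW1V hz, lt_of_lt_of_le hyN ?_⟩, hW1o, hyW1⟩
    exact (D4_g h (hW1V hz) hz hO1 hdis1 hWO1).1
  set S := Metric.closedBall (f x0) (r / 2) \ {y | y ∈ V ∧ P.ncard < (U ∩ f ⁻¹' {y}).ncard}
    with hS
  have hSc : IsClosed S := Metric.isClosed_closedBall.sdiff hbig
  have hSN : ∀ y ∈ S, (U ∩ f ⁻¹' {y}).ncard = P.ncard := by
    intro y hy
    have hyW' := hbW hy.1
    have h1 : P.ncard ≤ (U ∩ f ⁻¹' {y}).ncard := (D4_g h (hWV hyW') hyW' hO hdis hWO).1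
    have h2 : ¬ P.ncard < (U ∩ f ⁻¹' {y}).ncard := fun h3 => hy.2 ⟨hWV hyW', h3⟩
    omega
  set E := (B0 ∩ f ⁻¹' S) \ ⋃ x ∈ P \ {x0}, O x with hE
  have hEB : E ⊆ B0 := fun x hx => hx.1.1
  have hpre : IsClosed (B0 ∩ f ⁻¹' S) :=
    (h.cont.mono hB0).preimage_isClosed_of_isClosed hc.isClosed hSc
  have hEc : IsCompact E := by
    refine IsCompact.diff (hc.of_isClosed_subset hpre Set.inter_subset_left) ?_
    exact isOpen_biUnion fun x hx => (hO x hx.1).1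
  have hEO : ∀ x ∈ E, x ∈ O x0 := by
    rintro x ⟨⟨hxB, hxS⟩, hxO⟩
    have hxc := hcov ⟨hB0 hxB, hbW hxS.1⟩
    rw [Set.mem_iUnion₂] at hxc
    obtain ⟨z, hz, hxz⟩ := hxc
    by_cases hzx : z = x0
    · rwa [hzx] at hxz
    · exact absurd (Set.mem_biUnion (show z ∈ P \ {x0} from ⟨hz, hzx⟩) hxz) hxO
  have hinj : Set.InjOn f E := by
    intro a ha b hb hab
    have haS : f a ∈ S := ha.1.2
    have hyW' := hbW haS.1
    exact (D4_g h (hWV hyW') hyW' hO hdis hWO).2 (hSN _ haS) x0 hx0P a (hEO a ha) b (hEO b hb)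
      rfl hab.symm
  have hcE : ContinuousOn f E := h.cont.mono (hEB.trans hB0)
  refine ⟨O x0 ∩ (U ∩ f ⁻¹' Metric.ball (f x0) (r / 2)), E, ?_, ?_, hEB,
    hEc.image_of_continuousOn hcE, ?_, ?_⟩
  · exact (hO x0 hx0P).1.inter (h.cont.isOpen_inter_preimage h.oU Metric.isOpen_ball)
  · exact ⟨(hO x0 hx0P).2.1, hx0, Metric.mem_ball_self (by linarith)⟩
  · exact D2 f E hEc hcE hinj (CovDim_mono hEB hc hEc hd)
  · rintro x hxB ⟨hxO, hxU, hxb⟩ hN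
    refine ⟨⟨hxB, Metric.ball_subset_closedBall hxb, ?_⟩, ?_⟩
    · rintro ⟨_, hlt⟩
      omega
    · intro hmem
      rw [Set.mem_iUnion₂] at hmem
      obtain ⟨z, hz, hxz⟩ := hmem
      exact Set.disjoint_left.mp (hdis hz.1 hx0P hz.2) hxz hxO

theorem D4 {n k : ℕ} {f : Eu n → Eu n} {U V : Set (Eu n)} (h : OD f U V)
    (B0 : Set (Eu n)) (hB0 : B0 ⊆ U) (hc : IsCompact B0) (hd : CovDim k B0) :
    CovDim k (f '' B0) := by
  classical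
  rcases B0.eq_empty_or_nonempty with rfl | hne
  · intro m Us _ _
    refine ⟨fun _ => ∅, fun _ => isCompact_empty, fun _ => Set.empty_subset _,
      fun _ => Set.empty_subset _, by simp, fun x => ?_⟩
    simp
  have hpt : ∀ x0 ∈ B0, ∃ (O' : Set (Eu n)) (E : Set (Eu n)), IsOpen O' ∧ x0 ∈ O' ∧
      E ⊆ B0 ∧ IsCompact (f '' E) ∧ CovDim k (f '' E) ∧
      (∀ x ∈ B0, x ∈ O' → (U ∩ f ⁻¹' {f x}).ncard = (U ∩ f ⁻¹' {f x0}).ncard → x ∈ E) :=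
    fun x0 hx0 => D4_point h B0 hB0 hc hd x0 (hB0 hx0)
  choose! O' E hO' hxO' hEB hEc hEd hE using hpt
  -- countable subcovers of the level sets
  have hcount : ∀ m : ℕ, ∃ T : Set (Eu n), T.Countable ∧
      T ⊆ {x | x ∈ B0 ∧ (U ∩ f ⁻¹' {f x}).ncard = m} ∧
      {x | x ∈ B0 ∧ (U ∩ f ⁻¹' {f x}).ncard = m} ⊆ ⋃ x ∈ T, O' x := by
    intro m
    obtain ⟨t, ht1, ht2, ht3⟩ := TopologicalSpace.countable_cover_nhdsWithin (f := O')
      (s := {x | x ∈ B0 ∧ (U ∩ f ⁻¹' {f x}).ncard = m})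
      (fun x hx => mem_nhdsWithin_of_mem_nhds ((hO' x hx.1).mem_nhds (hxO' x hx.1)))
    exact ⟨t, ht2, ht1, ht3⟩
  choose T hTc hTs hTcov using hcount
  have hTall : (⋃ m, T m).Countable := Set.countable_iUnion hTc
  have hTB : (⋃ m, T m) ⊆ B0 := Set.iUnion_subset fun m x hx => (hTs m hx).1
  have hcover : B0 ⊆ ⋃ x ∈ (⋃ m, T m), E x := by
    intro x hx
    have h1 := hTcov _ (show x ∈ {z | z ∈ B0 ∧ (U ∩ f ⁻¹' {f z}).ncard =
      (U ∩ f ⁻¹' {f x}).ncard} from ⟨hx, rfl⟩)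
    rw [Set.mem_iUnion₂] at h1
    obtain ⟨x0, hx0, hxx0⟩ := h1
    have h2 := hTs _ hx0
    refine Set.mem_biUnion (Set.mem_iUnion.mpr ⟨_, hx0⟩) (hE x0 h2.1 x hx hxx0 h2.2.symm)
  have hneT : (⋃ m, T m).Nonempty := by
    obtain ⟨x, hx⟩ := hne
    have := hcover hx
    rw [Set.mem_iUnion₂] at this
    obtain ⟨z, hz, _⟩ := this
    exact ⟨z, hz⟩
  obtain ⟨e, he⟩ := hTall.exists_eq_range hneT
  have heB : ∀ t, e t ∈ B0 := fun t => hTB (he ▸ Set.mem_range_self t)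
  refine D3 (f '' B0) (hc.image_of_continuousOn (h.cont.mono hB0)) (fun t => f '' E (e t))
    (fun t => hEc _ (heB t)) (fun t => hEd _ (heB t)) ?_
  apply Set.Subset.antisymm
  · rintro _ ⟨x, hx, rfl⟩
    have := hcover hx
    rw [Set.mem_iUnion₂] at this
    obtain ⟨z, hz, hxz⟩ := this
    rw [he] at hz
    obtain ⟨t, rfl⟩ := hz
    exact Set.mem_iUnion.mpr ⟨t, x, hxz, rfl⟩
  · exact Set.iUnion_subset fun t => Set.image_mono (hEB _ (heB t))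

end LibBR40
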