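import Mathlib

set_option autoImplicit false

open scoped Topology

/-! Definitions of the BR40 board (MP_5b12c2_an, local index at least six at every branch point when
the branch set has dimension at most n - 3).  No theorem in this file needs to be changed. -/

namespace LibBR40

/-! ### forms on the lattice `Fin n → ℤ`; the component `w T x` belongs to the cell with lower
corner `x` and directions `T` -/

/-- Forms on the lattice. -/
abbrev Form (n : ℕ) (M : Type*) := Finset (Fin n) → (Fin n → ℤ) → M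

/-- The unit vector in direction `i`. -/
def ev {n : ℕ} (i : Fin n) : Fin n → ℤ := Pi.single i 1

/-- The sign of the position of `i` with respect to `T`. -/
def sg {α : Type*} [LinearOrder α] (i : α) (T : Finset α) : ℤ :=
  (-1) ^ (T.filter (fun j => j < i)).card

/-- The coboundary in the directions of `P` only. -/
def dP {n : ℕ} {M : Type*} [AddCommGroup M] (P : Finset (Fin n)) (w : Form n M) : Form n M :=
  fun T x => ∑ i ∈ T ∩ P, sg i T • (w (T.erase i) (x + ev i) - w (T.erase i) x)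

/-- The coboundary. -/
def dd {n : ℕ} {M : Type*} [AddCommGroup M] (w : Form n M) : Form n M :=
  fun T x => ∑ i ∈ T, sg i T • (w (T.erase i) (x + ev i) - w (T.erase i) x)

/-- An interval of `ℤ`, not empty, bounded on at least one side. -/
def Half (J : Set ℤ) : Prop :=
  (∃ l u : ℤ, l ≤ u ∧ J = Set.Icc l u) ∨ (∃ l : ℤ, J = Set.Ici l) ∨ (∃ u : ℤ, J = Set.Iic u)

/-- In the directions of `P` the closed cell `(T, x)` meets the box `∏ I i`. -/
def Meets {n : ℕ} (P : Finset (Fin n)) (I : Fin n → Set ℤ) (T : Finset (Fin n))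
    (x : Fin n → ℤ) : Prop :=
  ∀ i ∈ P, x i ∈ I i ∨ (i ∈ T ∧ x i + 1 ∈ I i)

/-- Exactness with supports in the box `∏ I i`, in the directions of `P`, in degrees `< P.card`. -/
def QQ {n : ℕ} (M : Type*) [AddCommGroup M] (I : Fin n → Set ℤ) (P : Finset (Fin n)) : Prop :=
  ∀ (m : ℕ) (w : Form n M), m < P.card →
    (∀ T x, w T x ≠ 0 → T ⊆ P ∧ T.card = m ∧ Meets P I T x) → dP P w = 0 →
    ∃ e : Form n M, (∀ T x, e T x ≠ 0 → T ⊆ P ∧ T.card + 1 = m ∧ Meets P I T x) ∧ dP P e = w

/-! ### the Cech direction -/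

/-- The Cech boundary. -/
def cb {ι W : Type*} [LinearOrder ι] [Fintype ι] [AddCommGroup W] (w : Finset ι → W) :
    Finset ι → W :=
  fun S => ∑ j ∈ Sᶜ, sg j S • w (insert j S)

/-- The contraction of the Cech direction given by a base function `b`. -/
def cs {ι : Type*} [LinearOrder ι] {n : ℕ} {M : Type*} [AddCommGroup M]
    (b : (Fin n → ℤ) → ι) (w : Finset ι → Form n M) : Finset ι → Form n M :=
  fun S T x => if b x ∈ S then sg (b x) S • w (S.erase (b x)) T x else 0

/-- The lattice neighbourhood of radius `r`. -/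
def Thk {n : ℕ} (r : ℕ) (K : Set (Fin n → ℤ)) : Set (Fin n → ℤ) :=
  {x | ∃ y ∈ K, ∀ i, |x i - y i| ≤ (r : ℤ)}

/-- The zigzag. -/
def zz {ι : Type*} [LinearOrder ι] {n : ℕ} {M : Type*} [AddCommGroup M]
    (b : (Fin n → ℤ) → ι) (c : Form n M) : ℕ → Finset ι → Form n M
  | 0 => cs b (fun S => if S = ∅ then c else 0)
  | q + 1 => cs b (fun S => dd (zz b c q S))

/-- The clamp map onto the box `[0, N]^n`. -/
def cl {n : ℕ} (N : ℕ) (x : Fin n → ℤ) : Fin n → ℤ := fun i => max 0 (min (x i) (N : ℤ))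

/-- The extension of a form from the box to the whole lattice. -/
def ext {n : ℕ} {M : Type*} [AddCommGroup M] (N : ℕ) (w : Form n M) : Form n M :=
  fun T x => if ∀ i ∈ T, 0 ≤ x i ∧ x i < (N : ℤ) then w T (cl N x) else 0

/-- The radius of the lattice theorem. -/
def Rad (n μ : ℕ) : ℕ := 2 * n * (μ + n) + 1

/-! ### euclidean space -/

/-- Euclidean space. -/
abbrev Eu (n : ℕ) := EuclideanSpace ℝ (Fin n)

/-- The open cube. -/
def Cube {n : ℕ} (c : Eu n) (r : ℝ) : Set (Eu n) := {y | ∀ i, |y i - c i| < r}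

/-- The lattice point `x` of the closed cube with centre `c` and radius `r`, divided in `N` parts. -/
noncomputable def pt {n : ℕ} (c : Eu n) (r : ℝ) (N : ℕ) (x : Fin n → ℤ) : Eu n :=
  WithLp.toLp 2 (fun i => c i - r + (2 * r / N) * (x i : ℝ))

/-- The segment as a path in a subset. -/
noncomputable def segP {n : ℕ} {X : Set (Eu n)} (u v : X) (h : segment ℝ (u : Eu n) v ⊆ X) :
    Path u v where
  toFun t := ⟨AffineMap.lineMap (u : Eu n) (v : Eu n) (t : ℝ),
    h (by rw [segment_eq_image_lineMap]; exact ⟨t, t.2, rfl⟩)⟩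
  continuous_toFun := by
    refine Continuous.subtype_mk ?_ _
    exact (AffineMap.lineMap_continuous).comp continuous_subtype_val
  source' := by simp
  target' := by simp

/-- Additive, homotopy invariant functions of paths. -/
structure PSys (Y : Type*) [TopologicalSpace Y] (M : Type*) [AddCommGroup M] where
  a : ∀ {x y : Y}, Path x y → M
  tr : ∀ {x y z : Y} (p : Path x y) (q : Path y z), a (p.trans q) = a p + a q
  ho : ∀ {x y : Y} (p q : Path x y), p.Homotopic q → a p = a q

/-! ### dimension -/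

/-- Covering dimension at most `k`, for compact sets, with compact shrinkings. -/
def CovDim {X : Type*} [TopologicalSpace X] (k : ℕ) (C : Set X) : Prop :=
  ∀ (m : ℕ) (U : Fin m → Set X), (∀ i, IsOpen (U i)) → C ⊆ ⋃ i, U i →
    ∃ V : Fin m → Set X, (∀ i, IsCompact (V i)) ∧ (∀ i, V i ⊆ U i) ∧ (∀ i, V i ⊆ C) ∧
      C ⊆ ⋃ i, V i ∧ ∀ x, {i | x ∈ V i}.ncard ≤ k + 1

/-! ### open maps -/

/-- A proper open map with finite fibres of the open set `U` onto the open set `V`. -/
structure OD {n : ℕ} (f : Eu n → Eu n) (U V : Set (Eu n)) : Prop where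
  oU : IsOpen U
  oV : IsOpen V
  cont : ContinuousOn f U
  opn : ∀ O : Set (Eu n), IsOpen O → O ⊆ U → IsOpen (f '' O)
  img : f '' U = V
  prp : ∀ K : Set (Eu n), K ⊆ V → IsCompact K → IsCompact (U ∩ f ⁻¹' K)
  fin : ∀ y ∈ V, (U ∩ f ⁻¹' {y}).Finite

/-- The branch set of `f` in `U`. -/
def Br {n : ℕ} (f : Eu n → Eu n) (U : Set (Eu n)) : Set (Eu n) :=
  {x | x ∈ U ∧ ∀ O : Set (Eu n), IsOpen O → x ∈ O → O ⊆ U → ¬ Set.InjOn f O}

/-- The restriction of `f` to the complement of the preimage of `A`. -/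
def resMap {n : ℕ} (f : Eu n → Eu n) (U V A : Set (Eu n)) (h : ∀ y ∈ U, f y ∈ V) :
    ↥(U \ f ⁻¹' A) → ↥(V \ A) :=
  fun y => ⟨f y, h y y.2.1, y.2.2⟩

end LibBR40
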