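import Pool.Agent.LibBR40.Defs

set_option autoImplicit false

/-! BR40 row G1 (MEDIUM).  The group lemma.  Only Mathlib.

PLAN.  `hG` : every homomorphism of `G` to a commutative group is trivial.  (i) A finite solvable group with this property
is trivial: apply it to `Abelianization G` (`commutator G = ⊤`), then all `derivedSeries` are `⊤`.
(ii) `H` fixes `e`, so `H` embeds in `Equiv.Perm {x // x ≠ e}`, and this set has at most 4 elements; the symmetric group on at
most 4 letters is solvable.  So `H = ⊥` by (i) (subgroup of a solvable group).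
(iii) So the stabiliser of `e` in `G` is trivial, and the orbit map `G → F, g ↦ g e` is injective and surjective:
`Nat.card G = Nat.card F ≤ 5`.  A group of order `1, 2, 3, 4, 5` is commutative.  Then `hG` applied to the identity of `G`
(`CommGroup`) gives `G = ⊥`, and transitivity gives the claim. -/

namespace LibBR40

/-- a solvable group all of whose homomorphisms to commutative groups are trivial is trivial -/
theorem G1_triv {G : Type} [Group G] [Group.IsSolvable G]
    (hG : ∀ (Q : Type) [CommGroup Q] (φ : G →* Q), φ = 1) (g : G) : g = 1 := by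
  have h1 : commutator G = ⊤ := by
    rw [eq_top_iff]
    intro x _
    have := hG (Abelianization G) Abelianization.of
    rw [← Abelianization.ker_of, MonoidHom.mem_ker, this]
    rfl
  have h2 : ∀ n, derivedSeries G n = ⊤ := by
    intro n
    induction n with
    | zero => exact derivedSeries_zero G
    | succ n ih =>
      rw [derivedSeries_succ, ih]
      exact h1
  obtain ⟨n, hn⟩ := (inferInstance : Group.IsSolvable G).solvable
  have h3 : (⊤ : Subgroup G) = ⊥ := by rw [← h2 n, hn]
  have : g ∈ (⊥ : Subgroup G) := by rw [← h3]; exact Subgroup.mem_top g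
  exact Subgroup.mem_bot.mp this

/-- groups of order at most five are commutative -/
theorem G1_comm {G : Type} [Group G] [Finite G] (h : Nat.card G ≤ 5) (a b : G) : a * b = b * a := by
  have hpos : 0 < Nat.card G := Nat.card_pos
  have hc : Nat.card G = 1 ∨ Nat.card G = 2 ∨ Nat.card G = 3 ∨ Nat.card G = 4 ∨ Nat.card G = 5 := by
    omega
  have cyc : IsCyclic G → a * b = b * a := by
    intro hcyc
    let _ := hcyc.commGroup
    exact mul_comm a b
  rcases hc with hc | hc | hc | hc | hc
  · have : Subsingleton G := (Nat.card_eq_one_iff_unique.mp hc).1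
    rw [Subsingleton.elim a b]
  · have : Fact (Nat.Prime 2) := ⟨by norm_num⟩
    exact cyc (isCyclic_of_prime_card hc)
  · have : Fact (Nat.Prime 3) := ⟨by norm_num⟩
    exact cyc (isCyclic_of_prime_card hc)
  · have : Fact (Nat.Prime 2) := ⟨by norm_num⟩
    exact (IsPGroup.isMulCommutative_of_card_eq_prime_sq (p := 2) (by rw [hc]; norm_num)).is_comm.comm a b
  · have : Fact (Nat.Prime 5) := ⟨by norm_num⟩
    exact cyc (isCyclic_of_prime_card hc)

/-- the symmetric group on at most four letters is solvable -/
theorem G1_solv4 {X : Type} [Finite X] (h : Nat.card X ≤ 4) : Group.IsSolvable (Equiv.Perm X) := by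
  classical
  have k4 : Nat.card (Fin 4) = 4 := by simp
  -- the alternating group
  have hK : IsMulCommutative (alternatingGroup.kleinFour (Fin 4)) :=
    (alternatingGroup.kleinFour_isKleinFour k4).isMulCommutative
  let cK : CommGroup (alternatingGroup.kleinFour (Fin 4)) :=
    { (inferInstance : Group (alternatingGroup.kleinFour (Fin 4))) with
      mul_comm := fun a b ↦ hK.is_comm.comm a b }
  have sK : Group.IsSolvable (alternatingGroup.kleinFour (Fin 4)) :=
    @id (@Group.IsSolvable (alternatingGroup.kleinFour (Fin 4)) cK.toGroup) inferInstance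
  have sA : Group.IsSolvable (alternatingGroup (Fin 4)) := by
    refine Group.isSolvable_of_ker_le_range (alternatingGroup.kleinFour (Fin 4)).subtype
      (Abelianization.of : alternatingGroup (Fin 4) →* _) ?_
    rw [Abelianization.ker_of, ← alternatingGroup.kleinFour_eq_commutator k4, Subgroup.range_subtype]
  have s4 : Group.IsSolvable (Equiv.Perm (Fin 4)) := by
    refine Group.isSolvable_of_ker_le_range (alternatingGroup (Fin 4)).subtype
      (Equiv.Perm.sign : Equiv.Perm (Fin 4) →* _) ?_
    rw [Subgroup.range_subtype]
    exact le_of_eq rfl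
  let fX := Fintype.ofFinite X
  have hX : Fintype.card X ≤ Fintype.card (Fin 4) := by
    rw [Fintype.card_fin, ← Nat.card_eq_fintype_card]
    exact h
  obtain ⟨ι⟩ := Function.Embedding.nonempty_of_card_le hX
  exact Group.isSolvable_of_isSolvable_injective (Equiv.Perm.viaEmbeddingHom_injective ι)

theorem G1 {F : Type} [Finite F] (hF : Nat.card F ≤ 5) (e : F)
    (G H : Subgroup (Equiv.Perm F)) (hGt : ∀ x y : F, ∃ g ∈ G, g x = y)
    (hG : ∀ (Q : Type) [CommGroup Q] (φ : G →* Q), φ = 1)
    (hH : ∀ (Q : Type) [CommGroup Q] (φ : H →* Q), φ = 1)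
    (hHe : ∀ h ∈ H, h e = e) (hGH : ∀ g ∈ G, g e = e → g ∈ H) : ∀ x : F, x = e := by
  classical
  -- the stabiliser is trivial
  let X := {x : F // x ≠ e}
  have hX : Nat.card X ≤ 4 := by
    have h1 : Nat.card X + 1 = Nat.card F := by
      have := Nat.card_congr (Equiv.optionSubtypeNe e)
      rw [Finite.card_option] at this
      exact this
    omega
  have hsol := G1_solv4 hX
  have hstab : ∀ h : H, ∀ x : F, x ≠ e ↔ (h : Equiv.Perm F) x ≠ e := by
    intro h x
    constructor
    · intro hx hc
      exact hx ((h : Equiv.Perm F).injective (hc.trans (hHe h h.2).symm))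
    · intro hx hc
      exact hx (by rw [hc]; exact hHe h h.2)
  let ψ : H →* Equiv.Perm X :=
    { toFun := fun h ↦ (h : Equiv.Perm F).subtypePerm (fun x ↦ (hstab h x).symm)
      map_one' := by ext x; rfl
      map_mul' := by intro a b; ext x; rfl }
  have hψ : Function.Injective ψ := by
    intro a b hab
    apply Subtype.ext
    apply Equiv.ext
    intro x
    by_cases hx : x = e
    · rw [hx, hHe a a.2, hHe b b.2]
    · have := congrArg (fun q : Equiv.Perm X ↦ ((q ⟨x, hx⟩ : X) : F)) hab
      exact this
  have : Group.IsSolvable H := Group.isSolvable_of_isSolvable_injective hψ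
  have hH1 : ∀ h : H, h = 1 := fun h ↦ G1_triv hH h
  -- orbit map
  have hinj : Function.Injective (fun g : G ↦ (g : Equiv.Perm F) e) := by
    intro a b hab
    have h1 : ((a⁻¹ * b : G) : Equiv.Perm F) e = e := by
      change (a : Equiv.Perm F)⁻¹ ((b : Equiv.Perm F) e) = e
      rw [← show (a : Equiv.Perm F) e = (b : Equiv.Perm F) e from hab]
      exact Equiv.symm_apply_apply _ _
    have h2 := hGH _ (a⁻¹ * b : G).2 h1
    have h3 := hH1 ⟨_, h2⟩
    have h4 : ((a⁻¹ * b : G) : Equiv.Perm F) = 1 := congrArg Subtype.val h3
    have h5 : a⁻¹ * b = 1 := Subtype.ext h4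
    exact (inv_mul_eq_one.mp h5)
  have hcard : Nat.card G ≤ 5 := (Nat.card_le_card_of_injective _ hinj).trans hF
  let cg : CommGroup G := { (inferInstance : Group G) with mul_comm := G1_comm hcard }
  have hid : ∀ g : G, g = 1 := by
    intro g
    have := @hG G cg (MonoidHom.id G)
    exact congrArg (fun q : G →* G ↦ q g) this
  intro x
  obtain ⟨g, hg, hgx⟩ := hGt e x
  have := hid ⟨g, hg⟩
  have h4 : g = 1 := congrArg Subtype.val this
  rw [← hgx, h4]
  rfl

end LibBR40
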