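import Pool.Agent.LibBR40.G1

set_option autoImplicit false

/-! BR40 row M1 (MEDIUM/STRONG).  Monodromy.  You may use G1.

PLAN.  `hp.monodromyPerm (i v2) : FundamentalGroup X (i v2) →* Equiv.Perm (p ⁻¹' {i v2})` (Mathlib/Topology/Homotopy/Lifting.lean).
`G` = range of `(hp.monodromyPerm (i v2)).comp (FundamentalGroup.map i v2)`.
`H` = range of `(hp.monodromyPerm (i v2)).comp (FundamentalGroup.mapOfEq (⟨p, _⟩.comp j) hz)` (`hz : p (j z0) = i v2`).
`F = p ⁻¹' {i v2}`, `e = ⟨j z0, hz⟩`.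
`hG` : `φ : G →* Q` composed with the surjection `rangeRestrict` is a homomorphism from `FundamentalGroup X2 v2`, trivial by
`hX2`, so `φ` is trivial; the same for `H`.
Transitive: for `e1, e2 ∈ F` take `γ, Γ` from `hpath`; `hp.monodromy ⟦i ∘ γ⟧ e1 = e2` since `Γ` is the lift
(`IsCoveringMap.monodromy_map` or `eq_liftPath_iff'`).
`H` fixes `e` : for `ζ` a loop in `Z` the lift of `p ∘ j ∘ ζ` at `j z0` is `j ∘ ζ`, closed.
`hGH` : an element of `G` is the monodromy of `i ∘ γ`, `γ` a loop in `X2` (every element of the fundamental group is the class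
of a path); if it fixes `e` the lift `Γ` of `i ∘ γ` at `j z0` is a loop at `j z0`, `hlift` gives `ζ` with `j ∘ ζ = Γ`, so
`p ∘ j ∘ ζ = i ∘ γ`, and the element is the monodromy of the image of `⟦ζ⟧`, in `H`.
`G1` with `Nat.card F = ncard ≤ 5` gives the claim. -/

namespace LibBR40

private theorem M1_mon {X Y : Type} [TopologicalSpace X] [TopologicalSpace Y] {p : Y → X}
    (hp : IsCoveringMap p) {x : X} (f : Path x x) {e1 e2 : Y} (h1 : p e1 = x) (h2 : p e2 = x)
    (Γ : Path e1 e2) (hΓ : ∀ t, p (Γ t) = f t) :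
    hp.monodromy (Path.Homotopic.Quotient.mk f) ⟨e1, h1⟩ = ⟨e2, h2⟩ := by
  refine hp.monodromy_eq_of_map_eq (Path.Homotopic.Quotient.mk Γ) ?_
  exact congrArg Path.Homotopic.Quotient.mk
    (Path.ext (funext fun t => hΓ t) : Γ.map hp.continuous = f.cast h1 h2)

private theorem M1_lift {X Y : Type} [TopologicalSpace X] [TopologicalSpace Y] {p : Y → X}
    (hp : IsCoveringMap p) {x : X} (f : Path x x) (e1 : p ⁻¹' {x}) :
    ∃ Γ : Path (e1 : Y) (hp.monodromy (Path.Homotopic.Quotient.mk f) e1 : Y),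
      ∀ t, p (Γ t) = f t :=
  ⟨⟨hp.liftPath f e1 (f.source.trans e1.2.symm), hp.liftPath_zero .., rfl⟩,
    fun t => congrFun (hp.liftPath_lifts f e1 (f.source.trans e1.2.symm)) t⟩

theorem M1 {X Y X2 Z : Type} [TopologicalSpace X] [TopologicalSpace Y] [TopologicalSpace X2]
    [TopologicalSpace Z] (p : Y → X) (hp : IsCoveringMap p) (i : C(X2, X)) (v2 : X2)
    (j : C(Z, Y)) (z0 : Z) (hz : p (j z0) = i v2) (hfin : (p ⁻¹' {i v2}).Finite)
    (hcard : (p ⁻¹' {i v2}).ncard ≤ 5)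
    (hpath : ∀ e e' : Y, p e = i v2 → p e' = i v2 →
      ∃ (γ : Path v2 v2) (Γ : Path e e'), ∀ t, p (Γ t) = i (γ t))
    (hlift : ∀ (γ : Path v2 v2) (Γ : Path (j z0) (j z0)), (∀ t, p (Γ t) = i (γ t)) →
      ∃ ζ : Path z0 z0, ∀ t, j (ζ t) = Γ t)
    (hX2 : ∀ (Q : Type) [CommGroup Q] (φ : FundamentalGroup X2 v2 →* Q), φ = 1)
    (hZ : ∀ (Q : Type) [CommGroup Q] (φ : FundamentalGroup Z z0 →* Q), φ = 1) :
    ∀ e, p e = i v2 → e = j z0 := by
  classical
  let F : Type := p ⁻¹' {i v2}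
  let e : F := ⟨j z0, hz⟩
  let pj : C(Z, X) := (⟨p, hp.continuous⟩ : C(Y, X)).comp j
  let φG : FundamentalGroup X2 v2 →* Equiv.Perm F :=
    (hp.monodromyPerm (i v2)).comp (FundamentalGroup.map i v2)
  let φH : FundamentalGroup Z z0 →* Equiv.Perm F :=
    (hp.monodromyPerm (i v2)).comp (FundamentalGroup.mapOfEq pj hz)
  have hGval : ∀ (γ : Path v2 v2) (x : F),
      φG (Path.Homotopic.Quotient.mk γ) x =
        hp.monodromy (Path.Homotopic.Quotient.mk (γ.map i.continuous)) x := fun γ x => rfl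
  have hHval : ∀ (ζ : Path z0 z0) (x : F),
      φH (Path.Homotopic.Quotient.mk ζ) x =
        hp.monodromy (Path.Homotopic.Quotient.mk
          ((ζ.map pj.continuous).cast hz.symm hz.symm)) x := fun ζ x => by
    change hp.monodromy (FundamentalGroup.mapOfEq pj hz (Path.Homotopic.Quotient.mk ζ)) x = _
    rw [FundamentalGroup.mapOfEq_apply]
    rfl
  have : Finite F := hfin.to_subtype
  have hF : Nat.card F ≤ 5 := by
    rw [Nat.card_coe_set_eq]
    exact hcard
  have key := G1 hF e φG.range φH.range ?_ ?_ ?_ ?_ ?_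
  · intro e' he'
    have := key ⟨e', he'⟩
    exact congrArg Subtype.val this
  · intro x y
    obtain ⟨γ, Γ, hΓ⟩ := hpath x.1 y.1 x.2 y.2
    refine ⟨φG (Path.Homotopic.Quotient.mk γ), ⟨_, rfl⟩, ?_⟩
    rw [hGval]
    exact M1_mon hp (γ.map i.continuous) x.2 y.2 Γ hΓ
  · intro Q _ φ
    have h1 := hX2 Q (φ.comp φG.rangeRestrict)
    ext ⟨_, x, rfl⟩
    exact DFunLike.congr_fun h1 x
  · intro Q _ φ
    have h1 := hZ Q (φ.comp φH.rangeRestrict)
    ext ⟨_, x, rfl⟩
    exact DFunLike.congr_fun h1 x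
  · rintro _ ⟨x, rfl⟩
    obtain ⟨ζ, rfl⟩ := Path.Homotopic.Quotient.mk_surjective x
    rw [hHval]
    exact M1_mon hp _ hz hz (ζ.map j.continuous) fun t => rfl
  · rintro _ ⟨x, rfl⟩ hx
    obtain ⟨γ, rfl⟩ := Path.Homotopic.Quotient.mk_surjective x
    rw [hGval] at hx
    obtain ⟨Γ, hΓ⟩ := M1_lift hp (γ.map i.continuous) e
    have hend : j z0 = (hp.monodromy
        (Path.Homotopic.Quotient.mk (γ.map i.continuous)) e : Y) := by
      rw [hx]
    obtain ⟨ζ, hζ⟩ := hlift γ (Γ.cast rfl hend) hΓ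
    refine ⟨Path.Homotopic.Quotient.mk ζ, ?_⟩
    ext x : 1
    rw [hGval, hHval]
    congr 2
    ext t
    change p (j (ζ t)) = i (γ t)
    rw [hζ]
    exact hΓ t

end LibBR40
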