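import Pool.Agent.LibBR40.Defs

set_option autoImplicit false

/-! BR40 row N1 (STRONG).  Normal neighbourhoods of an open discrete map.  Only Mathlib.

PLAN.  `Cube c r` is open, convex (so connected), `Cube c r ⊆ ball` of radius `n r` etc.  Choose `ε > 0` with
`closedBall x ε ⊆ W` and (hdisc) `f y = f x → y = x` for `y ∈ closedBall x ε` (first take a smaller radius).
`f '' (sphere x ε)` is compact and does not contain `f x` : choose `r0 > 0` such that no point of it lies in the closed cube
`{y | ∀ i, |y i - f x i| ≤ r0}`.  For `0 < r ≤ r0` let `G = ball x ε ∩ f ⁻¹' (Cube (f x) r)`, open (`ContinuousOn` on the open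
`D`), and `U = connectedComponentIn G x`, open since the space is locally connected (`IsOpen.connectedComponentIn`).
Key: if `u ∈ closure U` and `f u ∈ Cube (f x) r` then `u ∈ closedBall x ε`, not on the sphere, so `u ∈ G`, and components are
relatively closed, so `u ∈ U`.  `prp` : for compact `K ⊆ Cube`, `U ∩ f ⁻¹' K = closure U ∩ f ⁻¹' K ∩ closedBall`, closed in
the compact ball (`f` continuous there, `K` closed).  `fin` : `U ∩ f ⁻¹' {y}` is compact (prp) and discrete (hdisc), so finite.
`img` : `f '' U ⊆ Cube`; `f '' U` is open, and closed in the cube: if `y ∈ Cube` is in the closure of `f '' U`, take a compact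
neighbourhood `K` of `y` in the cube, `f '' (U ∩ f ⁻¹' K)` is compact, contains points near `y`, so contains `y`; the cube is
preconnected, `f '' U` not empty, so equality (`IsPreconnected.subset_of_closure_inter_subset` or
`isPreconnected_iff_subset_of_disjoint`).  `opn` : from `hopen`. -/

namespace LibBR40

private theorem N1_cube_open {n : ℕ} (c : Eu n) (r : ℝ) : IsOpen (Cube c r) := by
  have : Cube c r = ⋂ i, {y : Eu n | |y i - c i| < r} := by
    ext y
    simp [Cube]
  rw [this]
  refine isOpen_iInter_of_finite fun i => ?_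
  exact isOpen_lt (by fun_prop) continuous_const

private theorem N1_cube_convex {n : ℕ} (c : Eu n) (r : ℝ) : Convex ℝ (Cube c r) := by
  intro y hy z hz a b ha hb hab i
  have h1 := hy i
  have h2 := hz i
  rw [abs_lt] at h1 h2
  have h3 : (a • y + b • z) i = a * y i + b * z i := by simp
  rw [h3]
  rw [abs_lt]
  have h4 : a * y i + b * z i - c i = a * (y i - c i) + b * (z i - c i) := by
    linear_combination (c i) * hab
  rw [h4]
  rcases ha.eq_or_lt with h | h
  · subst h
    have : b = 1 := by linarith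
    subst this
    constructor <;> linarith
  · constructor
    · nlinarith [mul_nonneg hb (by linarith : 0 ≤ z i - c i + r), mul_pos h (by linarith : 0 < y i - c i + r)]
    · nlinarith [mul_nonneg hb (by linarith : 0 ≤ r - (z i - c i)), mul_pos h (by linarith : 0 < r - (y i - c i))]

private theorem N1_cube_subset {n : ℕ} (c : Eu n) {δ r : ℝ} (hδ : 0 < δ) (hr : r ≤ δ / (n + 1)) :
    Cube c r ⊆ Metric.ball c δ := by
  intro y hy
  rw [Metric.mem_ball, EuclideanSpace.dist_eq, Real.sqrt_lt' hδ]
  have hn : (0 : ℝ) < n + 1 := by positivity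
  have h1 : ∀ i, dist (y i) (c i) ^ 2 ≤ (δ / (n + 1)) ^ 2 := by
    intro i
    have := hy i
    rw [Real.dist_eq]
    have h0 := abs_nonneg (y i - c i)
    nlinarith
  calc ∑ i, dist (y i) (c i) ^ 2 ≤ ∑ _i : Fin n, (δ / (n + 1)) ^ 2 := Finset.sum_le_sum fun i _ => h1 i
    _ = n * (δ / (n + 1)) ^ 2 := by simp
    _ < δ ^ 2 := by
      rw [div_pow, mul_div_assoc', div_lt_iff₀ (by positivity)]
      have : (0 : ℝ) < δ ^ 2 := by positivity
      have hn0 : (0 : ℝ) ≤ n := Nat.cast_nonneg n
      nlinarith [mul_nonneg hn0 this.le, mul_nonneg (mul_nonneg hn0 hn0) this.le]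

theorem N1 {n : ℕ} (D : Set (Eu n)) (f : Eu n → Eu n) (hD : IsOpen D)
    (hf : ContinuousOn f D)
    (hopen : ∀ U : Set (Eu n), IsOpen U → U ⊆ D → IsOpen (f '' U))
    (hdisc : ∀ x ∈ D, ∃ ε > (0 : ℝ), ∀ y ∈ D, dist y x < ε → f y = f x → y = x)
    (x : Eu n) (W : Set (Eu n)) (hW : IsOpen W) (hxW : x ∈ W) (hWD : W ⊆ D) :
    ∃ r0 > (0 : ℝ), ∀ r, 0 < r → r ≤ r0 → ∃ U : Set (Eu n), OD f U (Cube (f x) r) ∧
      IsConnected U ∧ x ∈ U ∧ U ⊆ W ∧ ∀ y ∈ U, f y = f x → y = x := by
  obtain ⟨ε₁, hε₁, hb1⟩ := Metric.isOpen_iff.1 hW x hxW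
  obtain ⟨ε₂, hε₂, hb2⟩ := hdisc x (hWD hxW)
  obtain ⟨ε, hε, hcb, hdx⟩ : ∃ ε > (0 : ℝ), Metric.closedBall x ε ⊆ W ∧
      ∀ y ∈ Metric.closedBall x ε, f y = f x → y = x := by
    refine ⟨min ε₁ ε₂ / 2, by positivity, ?_, ?_⟩
    · intro y hy
      apply hb1
      rw [Metric.mem_closedBall] at hy
      rw [Metric.mem_ball]
      have h1 := min_le_left ε₁ ε₂
      have h2 : 0 < min ε₁ ε₂ := by positivity
      linarith
    · intro y hy
      rw [Metric.mem_closedBall] at hy
      have h1 := min_le_left ε₁ ε₂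
      have h3 := min_le_right ε₁ ε₂
      have h2 : 0 < min ε₁ ε₂ := by positivity
      apply hb2 y (hWD (hb1 (by rw [Metric.mem_ball]; linarith)))
      linarith
  have hcbD : Metric.closedBall x ε ⊆ D := hcb.trans hWD
  have hfc : ContinuousOn f (Metric.closedBall x ε) := hf.mono hcbD
  have hS : IsCompact (f '' Metric.sphere x ε) :=
    (isCompact_sphere x ε).image_of_continuousOn (hfc.mono Metric.sphere_subset_closedBall)
  have hfx : f x ∉ f '' Metric.sphere x ε := by
    rintro ⟨y, hy, hyx⟩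
    have := hdx y (Metric.sphere_subset_closedBall hy) hyx
    rw [this, Metric.mem_sphere, dist_self] at hy
    exact hε.ne hy
  obtain ⟨δ, hδ, hδS⟩ := Metric.isOpen_iff.1 hS.isClosed.isOpen_compl (f x) hfx
  refine ⟨δ / (n + 1), by positivity, fun r hr hr0 => ?_⟩
  have hCS : ∀ y ∈ Cube (f x) r, y ∉ f '' Metric.sphere x ε := fun y hy =>
    hδS (N1_cube_subset (f x) hδ hr0 hy)
  set G : Set (Eu n) := Metric.ball x ε ∩ f ⁻¹' (Cube (f x) r) with hG
  have hGo : IsOpen G := (hfc.mono Metric.ball_subset_closedBall).isOpen_inter_preimage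
    Metric.isOpen_ball (N1_cube_open _ _)
  have hxG : x ∈ G := by
    refine ⟨Metric.mem_ball_self hε, fun i => ?_⟩
    rw [sub_self, abs_zero]
    exact hr
  set U : Set (Eu n) := connectedComponentIn G x with hU
  have hUG : U ⊆ G := connectedComponentIn_subset G x
  have hUo : IsOpen U := hGo.connectedComponentIn
  have hUc : IsConnected U := isConnected_connectedComponentIn_iff.2 hxG
  have hxU : x ∈ U := mem_connectedComponentIn hxG
  have hUb : U ⊆ Metric.closedBall x ε := fun y hy => Metric.ball_subset_closedBall (hUG hy).1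
  have hclU : closure U ⊆ Metric.closedBall x ε :=
    closure_minimal hUb Metric.isClosed_closedBall
  have key : ∀ u ∈ closure U, f u ∈ Cube (f x) r → u ∈ U := by
    intro u hu hfu
    have h1 : u ∈ Metric.ball x ε := by
      have h2 := hclU hu
      rw [Metric.mem_closedBall] at h2
      rw [Metric.mem_ball]
      refine lt_of_le_of_ne h2 fun h3 => ?_
      exact hCS _ hfu ⟨u, h3, rfl⟩
    have h2 : u ∈ G := ⟨h1, hfu⟩
    have h3 : IsPreconnected (insert u U) :=
      hUc.isPreconnected.subset_closure (Set.subset_insert u U)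
        (Set.insert_subset hu subset_closure)
    have h4 := h3.subset_connectedComponentIn (Set.mem_insert_of_mem u hxU)
      (Set.insert_subset h2 hUG)
    exact h4 (Set.mem_insert u U)
  have hprp : ∀ K : Set (Eu n), K ⊆ Cube (f x) r → IsCompact K → IsCompact (U ∩ f ⁻¹' K) := by
    intro K hK hKc
    have h1 : U ∩ f ⁻¹' K = closure U ∩ f ⁻¹' K := by
      apply Set.Subset.antisymm
      · exact Set.inter_subset_inter_left _ subset_closure
      · rintro u ⟨hu, hfu⟩
        exact ⟨key u hu (hK hfu), hfu⟩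
    rw [h1]
    refine (isCompact_closedBall x ε).of_isClosed_subset
      ((hfc.mono hclU).preimage_isClosed_of_isClosed isClosed_closure hKc.isClosed) ?_
    exact Set.inter_subset_left.trans hclU
  have hUD : U ⊆ D := hUb.trans hcbD
  have himg : f '' U = Cube (f x) r := by
    apply Set.Subset.antisymm
    · rintro _ ⟨u, hu, rfl⟩
      exact (hUG hu).2
    · refine (N1_cube_convex (f x) r).isPreconnected.subset_of_closure_inter_subset
        (hopen U hUo hUD) ⟨f x, hxG.2, ⟨x, hxU, rfl⟩⟩ ?_
      rintro y ⟨hy1, hy2⟩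
      obtain ⟨K, hKc, hyK, hKV⟩ := exists_compact_subset (N1_cube_open (f x) r) hy2
      have h1 : IsCompact (f '' (U ∩ f ⁻¹' K)) := (hprp K hKV hKc).image_of_continuousOn
        (hf.mono (Set.inter_subset_left.trans hUD))
      have h2 : y ∈ closure (f '' (U ∩ f ⁻¹' K)) := by
        rw [mem_closure_iff]
        intro o ho hyo
        obtain ⟨w, hw, u, hu, rfl⟩ := mem_closure_iff.1 hy1 (o ∩ interior K)
          (ho.inter isOpen_interior) ⟨hyo, hyK⟩
        exact ⟨f u, hw.1, u, ⟨hu, (interior_subset hw.2 : f u ∈ K)⟩, rfl⟩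
      rw [h1.isClosed.closure_eq] at h2
      exact Set.image_mono Set.inter_subset_left h2
  refine ⟨U, ⟨hUo, N1_cube_open _ _, hf.mono hUD, fun O hO hOU => hopen O hO (hOU.trans hUD),
    himg, hprp, ?_⟩, hUc, hxU, hUb.trans hcb, fun y hy => hdx y (hUb hy)⟩
  intro y hy
  have hK : IsCompact (U ∩ f ⁻¹' {y}) := hprp {y} (Set.singleton_subset_iff.2 hy) isCompact_singleton
  by_contra hinf
  obtain ⟨z, hz, hacc⟩ := Set.Infinite.exists_accPt_of_subset_isCompact (hs := hinf) hK subset_rfl
  obtain ⟨e, he, hz2⟩ := hdisc z (hUD hz.1)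
  rw [accPt_iff_nhds] at hacc
  obtain ⟨w, ⟨hw1, hw2⟩, hwz⟩ := hacc (Metric.ball z e) (Metric.ball_mem_nhds z he)
  apply hwz
  refine hz2 w (hUD hw2.1) hw1 ?_
  rw [show f w = y from hw2.2, show f z = y from hz.2]

end LibBR40
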