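import Pool.Agent.LibBR40.Defs

set_option autoImplicit false

/-! BR40 row N2.  Smaller cubes. -/

namespace LibBR40

theorem N2_isOpen_Cube {n : ℕ} (c : Eu n) (r : ℝ) : IsOpen (Cube c r) := by
  have : Cube c r = ⋂ i, {y : Eu n | |y i - c i| < r} := by
    ext y; simp [Cube]
  rw [this]
  refine isOpen_iInter_of_finite fun i => ?_
  have hc : Continuous fun y : Eu n => |y i - c i| := by fun_prop
  exact isOpen_lt hc continuous_const

theorem N2_convex_Cube {n : ℕ} (c : Eu n) (r : ℝ) : Convex ℝ (Cube c r) := by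
  intro x hx y hy a b ha hb hab i
  have h1 := hx i
  have h2 := hy i
  have e : (a • x + b • y) i - c i = a * (x i - c i) + b * (y i - c i) := by
    simp only [PiLp.add_apply, PiLp.smul_apply, smul_eq_mul]
    linear_combination (c i) * hab
  rw [e]
  have h3 : |a * (x i - c i) + b * (y i - c i)| ≤ a * |x i - c i| + b * |y i - c i| := by
    refine (abs_add_le _ _).trans ?_
    rw [abs_mul, abs_mul, abs_of_nonneg ha, abs_of_nonneg hb]
  refine lt_of_le_of_lt h3 ?_
  rcases ha.eq_or_lt with h | h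
  · subst h
    have : b = 1 := by linarith
    subst this
    simpa using h2
  · have h4 : a * |x i - c i| < a * r := mul_lt_mul_of_pos_left h1 h
    have h5 : b * |y i - c i| ≤ b * r := mul_le_mul_of_nonneg_left h2.le hb
    calc a * |x i - c i| + b * |y i - c i| < a * r + b * r := by linarith
      _ = r := by rw [← add_mul, hab, one_mul]

theorem N2_image_connected {n : ℕ} {f : Eu n → Eu n} {U V : Set (Eu n)} (h : OD f U V)
    (hV : IsPreconnected V) {G : Set (Eu n)} (hG : IsOpen G) (hGU : G ⊆ U) (hne : G.Nonempty)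
    (hcl : U ∩ closure G ⊆ G) : f '' G = V := by
  have hGV : f '' G ⊆ V := by rw [← h.img]; exact Set.image_mono hGU
  refine Set.Subset.antisymm hGV ?_
  refine hV.subset_of_closure_inter_subset (h.opn G hG hGU) ?_ ?_
  · obtain ⟨y, hy⟩ := hne
    exact ⟨f y, hGV ⟨y, hy, rfl⟩, ⟨y, hy, rfl⟩⟩
  · rintro v ⟨hv1, hv2⟩
    -- compact neighbourhood
    obtain ⟨K, hK, hvK, hKV⟩ := exists_compact_subset h.oV hv2
    have hc : IsCompact (U ∩ f ⁻¹' K) := h.prp K hKV hK
    have hc2 : IsCompact ((U ∩ f ⁻¹' K) ∩ closure G) := hc.inter_right isClosed_closure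
    have him : IsCompact (f '' ((U ∩ f ⁻¹' K) ∩ closure G)) :=
      hc2.image_of_continuousOn (h.cont.mono fun y hy => hy.1.1)
    have hmem : v ∈ closure (f '' ((U ∩ f ⁻¹' K) ∩ closure G)) := by
      rw [mem_closure_iff_nhds] at hv1 ⊢
      intro t ht
      obtain ⟨w, ⟨hwt, hwK⟩, ⟨y, hy, rfl⟩⟩ := hv1 (t ∩ interior K)
        (Filter.inter_mem ht (isOpen_interior.mem_nhds hvK))
      exact ⟨f y, hwt, y, ⟨⟨hGU hy, (interior_subset hwK : f y ∈ K)⟩, subset_closure hy⟩, rfl⟩
    rw [him.isClosed.closure_eq] at hmem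
    obtain ⟨y, ⟨⟨hyU, _⟩, hyG⟩, rfl⟩ := hmem
    exact ⟨y, hcl ⟨hyU, hyG⟩, rfl⟩

theorem N2 {n : ℕ} {f : Eu n → Eu n} {U : Set (Eu n)} {x : Eu n} {r : ℝ} (hr : 0 < r)
    (h : OD f U (Cube (f x) r)) (hx : x ∈ U) (hinj : ∀ y ∈ U, f y = f x → y = x) :
    (∀ r2, 0 < r2 → r2 ≤ r → OD f (U ∩ f ⁻¹' (Cube (f x) r2)) (Cube (f x) r2) ∧
      IsConnected (U ∩ f ⁻¹' (Cube (f x) r2))) ∧
    ∀ Q : Set (Eu n), IsOpen Q → x ∈ Q →
      ∃ r2, 0 < r2 ∧ r2 ≤ r ∧ U ∩ f ⁻¹' (Cube (f x) r2) ⊆ Q := by
  have hmono : ∀ {s t : ℝ}, s ≤ t → Cube (f x) s ⊆ Cube (f x) t :=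
    fun hst _ hy i => (hy i).trans_le hst
  have hself : ∀ {s : ℝ}, 0 < s → f x ∈ Cube (f x) s := fun hs i => by simpa using hs
  constructor
  · intro r2 hr2 hr2r
    have hsub := hmono hr2r
    have hU2o : IsOpen (U ∩ f ⁻¹' (Cube (f x) r2)) :=
      h.cont.isOpen_inter_preimage h.oU (N2_isOpen_Cube _ _)
    have hK : ∀ K : Set (Eu n), K ⊆ Cube (f x) r2 →
        (U ∩ f ⁻¹' (Cube (f x) r2)) ∩ f ⁻¹' K = U ∩ f ⁻¹' K := by
      intro K hK
      ext y
      constructor
      · rintro ⟨⟨h1, _⟩, h3⟩; exact ⟨h1, h3⟩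
      · rintro ⟨h1, h3⟩; exact ⟨⟨h1, hK h3⟩, h3⟩
    have hOD : OD f (U ∩ f ⁻¹' (Cube (f x) r2)) (Cube (f x) r2) := by
      refine ⟨hU2o, N2_isOpen_Cube _ _, h.cont.mono Set.inter_subset_left,
        fun O hO hOU => h.opn O hO (hOU.trans Set.inter_subset_left), ?_, ?_, ?_⟩
      · ext y
        constructor
        · rintro ⟨z, hz, rfl⟩; exact hz.2
        · intro hy
          have : y ∈ f '' U := by rw [h.img]; exact hsub hy
          obtain ⟨z, hz, rfl⟩ := this
          exact ⟨z, ⟨hz, hy⟩, rfl⟩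
      · intro K hKs hKc
        rw [hK K hKs]
        exact h.prp K (hKs.trans hsub) hKc
      · intro y hy
        rw [hK {y} (by simpa using hy)]
        exact h.fin y (hsub hy)
    refine ⟨hOD, ?_⟩
    have hx2 : x ∈ U ∩ f ⁻¹' (Cube (f x) r2) := ⟨hx, hself hr2⟩
    have hpre : IsPreconnected (Cube (f x) r2) := (N2_convex_Cube _ _).isPreconnected
    have hall : ∀ y ∈ U ∩ f ⁻¹' (Cube (f x) r2),
        x ∈ connectedComponentIn (U ∩ f ⁻¹' (Cube (f x) r2)) y := by
      intro y hy
      have hGo : IsOpen (connectedComponentIn (U ∩ f ⁻¹' (Cube (f x) r2)) y) :=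
        hU2o.connectedComponentIn
      have hGU := connectedComponentIn_subset (U ∩ f ⁻¹' (Cube (f x) r2)) y
      have hne : (connectedComponentIn (U ∩ f ⁻¹' (Cube (f x) r2)) y).Nonempty :=
        ⟨y, mem_connectedComponentIn hy⟩
      have himg := N2_image_connected hOD hpre hGo hGU hne (by
        rintro z ⟨hz1, hz2⟩
        have hpc : IsPreconnected (connectedComponentIn (U ∩ f ⁻¹' (Cube (f x) r2)) y) :=
          isPreconnected_connectedComponentIn
        have hpc2 : IsPreconnected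
            (insert z (connectedComponentIn (U ∩ f ⁻¹' (Cube (f x) r2)) y)) :=
          hpc.subset_closure (Set.subset_insert _ _)
            (Set.insert_subset hz2 subset_closure)
        have : insert z (connectedComponentIn (U ∩ f ⁻¹' (Cube (f x) r2)) y) ⊆
            connectedComponentIn (U ∩ f ⁻¹' (Cube (f x) r2)) y :=
          hpc2.subset_connectedComponentIn
            (Set.mem_insert_of_mem _ (mem_connectedComponentIn hy))
            (Set.insert_subset hz1 hGU)
        exact this (Set.mem_insert _ _))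
      have hfx : f x ∈ f '' connectedComponentIn (U ∩ f ⁻¹' (Cube (f x) r2)) y := by
        rw [himg]; exact hself hr2
      obtain ⟨z, hz, hzx⟩ := hfx
      have := hinj z (hGU hz).1 hzx
      exact this ▸ hz
    have heq : U ∩ f ⁻¹' (Cube (f x) r2) = connectedComponentIn (U ∩ f ⁻¹' (Cube (f x) r2)) x := by
      refine Set.Subset.antisymm ?_ (connectedComponentIn_subset _ _)
      intro y hy
      rw [← connectedComponentIn_eq (hall y hy)]
      exact mem_connectedComponentIn hy
    rw [heq]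
    exact ⟨⟨x, mem_connectedComponentIn hx2⟩, isPreconnected_connectedComponentIn⟩
  · intro Q hQ hxQ
    -- closed cube of radius r/2
    set K : Set (Eu n) := {y | ∀ i, |y i - f x i| ≤ r / 2} with hKdef
    have hKV : K ⊆ Cube (f x) r := fun y hy i => (hy i).trans_lt (by linarith)
    have hKcl : IsClosed K := by
      have : K = ⋂ i, {y : Eu n | |y i - f x i| ≤ r / 2} := by
        ext y; simp [hKdef]
      rw [this]
      refine isClosed_iInter fun i => ?_
      have hc : Continuous fun y : Eu n => |y i - f x i| := by fun_prop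
      exact isClosed_le hc continuous_const
    have hKb : Bornology.IsBounded K := by
      rw [Metric.isBounded_iff_subset_closedBall (f x)]
      refine ⟨√(n * (r / 2) ^ 2), fun y hy => ?_⟩
      rw [Metric.mem_closedBall, EuclideanSpace.dist_eq]
      apply Real.sqrt_le_sqrt
      calc ∑ i : Fin n, dist (y i) (f x i) ^ 2 ≤ ∑ _i : Fin n, (r / 2) ^ 2 := by
            refine Finset.sum_le_sum fun i _ => ?_
            rw [Real.dist_eq]
            exact pow_le_pow_left₀ (abs_nonneg _) (hy i) 2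
        _ = n * (r / 2) ^ 2 := by simp
    have hKc : IsCompact K := Metric.isCompact_of_isClosed_isBounded hKcl hKb
    have hc : IsCompact ((U ∩ f ⁻¹' K) \ Q) := (h.prp K hKV hKc).diff hQ
    have him : IsCompact (f '' ((U ∩ f ⁻¹' K) \ Q)) :=
      hc.image_of_continuousOn (h.cont.mono fun y hy => hy.1.1)
    have hnot : f x ∈ (f '' ((U ∩ f ⁻¹' K) \ Q))ᶜ := by
      rintro ⟨y, ⟨⟨hyU, _⟩, hyQ⟩, hyx⟩
      exact hyQ (hinj y hyU hyx ▸ hxQ)
    obtain ⟨ε, hε, hb⟩ := Metric.isOpen_iff.1 him.isClosed.isOpen_compl (f x) hnot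
    refine ⟨min (r / 2) (ε / (n + 1)), ?_, ?_, ?_⟩
    · have : 0 < ε / (n + 1) := by positivity
      exact lt_min (by linarith) this
    · exact (min_le_left _ _).trans (by linarith)
    · rintro y ⟨hyU, hy⟩
      by_contra hyQ
      have hyK : f y ∈ K := fun i => (hy i).le.trans (min_le_left _ _)
      have h1 : f y ∈ f '' ((U ∩ f ⁻¹' K) \ Q) := ⟨y, ⟨⟨hyU, hyK⟩, hyQ⟩, rfl⟩
      have h2 : f y ∈ Metric.ball (f x) ε := by
        rw [Metric.mem_ball, EuclideanSpace.dist_eq]
        have h3 : ∑ i : Fin n, dist (f y i) (f x i) ^ 2 ≤ n * (ε / (n + 1)) ^ 2 := by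
          calc ∑ i : Fin n, dist (f y i) (f x i) ^ 2 ≤ ∑ _i : Fin n, (ε / (n + 1)) ^ 2 := by
                refine Finset.sum_le_sum fun i _ => ?_
                rw [Real.dist_eq]
                exact pow_le_pow_left₀ (abs_nonneg _) ((hy i).le.trans (min_le_right _ _)) 2
            _ = n * (ε / (n + 1)) ^ 2 := by simp
        have h4 : (n : ℝ) * (ε / (n + 1)) ^ 2 < ε ^ 2 := by
          have hn : (0 : ℝ) < (n : ℝ) + 1 := by positivity
          rw [div_pow, mul_div_assoc', div_lt_iff₀ (by positivity)]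
          have : (n : ℝ) < ((n : ℝ) + 1) ^ 2 := by nlinarith [(Nat.cast_nonneg n : (0 : ℝ) ≤ n)]
          nlinarith [sq_pos_of_pos hε]
        calc √(∑ i : Fin n, dist (f y i) (f x i) ^ 2) < √(ε ^ 2) :=
              Real.sqrt_lt_sqrt (Finset.sum_nonneg fun i _ => by positivity) (h3.trans_lt h4)
          _ = ε := Real.sqrt_sq hε.le
      exact hb h2 h1

end LibBR40
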