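import Pool.Agent.LibBR40.Defs

set_option autoImplicit false

/-! BR40 row N3 (MEDIUM).  The image of the branch set: relatively closed, nowhere dense; the covering.
Only Mathlib.

PLAN `N3_dense` (Baire).  `N y = (U ∩ f ⁻¹' {y}).ncard`; `{y ∈ V | m ≤ N y}` is open (`m` preimages, disjoint neighbourhoods,
`opn`).  Let `O ⊆ V` be open, not empty.  The sets `O ∩ {N ≤ m}`, `m : ℕ`, are closed in `O` and cover it; `O` is a Baire space
(open subset of a complete metric space; work in a closed ball `⊆ O`, or `IsOpen.baireSpace`), so some `{N ≤ m}` contains an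
open nonempty `O' ⊆ O`.  Take `y0 ∈ O'` with `N y0 = m0` maximal on `O'` (values are `≤ m`).  Choose disjoint neighbourhoods
`O_i ⊆ U` of the `m0` preimages; for `y` near `y0` each `O_i` contains a preimage and there are at most `m0`, so exactly one in each
`O_i` and (by maximality) no others.  So with `W` = open neighbourhood of `y0` inside `O' ∩ ⋂ f '' O_i`, `f` is injective
on `O_i ∩ f ⁻¹' W`, an open set, and no preimage of `y0` is a branch point: `y0 ∉ f '' Br f U`.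
PLAN `N3_open`.  `Br f U` is relatively closed in `U` (if `f` is injective on an open `O ⊆ U` then `O ∩ Br f U = ∅`).  If
`y ∈ V \ f '' Br f U`, take a compact neighbourhood `K ⊆ V` of `y`; `U ∩ f ⁻¹' K ∩ Br f U` is compact (closed in a compact set), its
image is closed and does not contain `y`.  The second set is `U ∩ f ⁻¹' (V \ f '' Br f U)`, open by continuity on `U`.
PLAN `N3_cov`.  `Y = ↥(U \ f ⁻¹' A)`, `X = ↥(V \ A)`, both subtypes of open sets.  `p` is continuous; local homeomorphism: near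
a point of `Y` (not in `Br f U` since `f y ∉ A`) `f` is injective, continuous and open, use
`isLocalHomeomorph_iff_isOpenEmbedding_restrict`, or `IsOpenEmbedding.of_continuous_injective_isOpenMap`.  `p` is proper:
`isProperMap_iff_isCompact_preimage` (X is locally compact, T2), a compact `K' ⊆ X` is a compact `K ⊆ V \ A`, preimage
`U ∩ f ⁻¹' K` (`prp`), so `p` is closed; fibres finite; conclude with `IsClosedMap.isCoveringMapOn_of_isLocalHomeomorphOn`
(Mathlib/Topology/Covering/Basic.lean) on `univ`. -/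

namespace LibBR40

variable {n : ℕ} {f : Eu n → Eu n} {U V : Set (Eu n)}

/-- Disjoint neighbourhoods of the preimages of `y0` and a neighbourhood of `y0` over which each of them
contains a preimage. -/
private lemma N3_nhds (h : OD f U V) {y0 : Eu n} (hy0 : y0 ∈ V) :
    ∃ (P : Eu n → Set (Eu n)) (W : Set (Eu n)), IsOpen W ∧ y0 ∈ W ∧ W ⊆ V ∧
      (∀ x, IsOpen (P x)) ∧ (∀ x ∈ U ∩ f ⁻¹' {y0}, x ∈ P x ∧ P x ⊆ U) ∧
      ((U ∩ f ⁻¹' {y0}).PairwiseDisjoint P) ∧
      ∀ y ∈ W, ∀ x ∈ U ∩ f ⁻¹' {y0}, ∃ z ∈ P x, f z = y := by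
  have hfin := h.fin y0 hy0
  obtain ⟨Q, hQ, hQd⟩ := hfin.t2_separation
  refine ⟨fun x => Q x ∩ U, V ∩ ⋂ x ∈ U ∩ f ⁻¹' {y0}, f '' (Q x ∩ U), ?_, ?_, ?_, ?_, ?_, ?_, ?_⟩
  · refine h.oV.inter (hfin.isOpen_biInter (fun x _ => ?_))
    exact h.opn _ ((hQ x).2.inter h.oU) Set.inter_subset_right
  · refine ⟨hy0, ?_⟩
    simp only [Set.mem_iInter]
    intro x hx
    exact ⟨x, ⟨(hQ x).1, hx.1⟩, hx.2⟩
  · exact Set.inter_subset_left
  · intro x
    exact (hQ x).2.inter h.oU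
  · intro x hx
    exact ⟨⟨(hQ x).1, hx.1⟩, Set.inter_subset_right⟩
  · intro x hx x' hx' hne
    exact (hQd hx hx' hne).mono Set.inter_subset_left Set.inter_subset_left
  · intro y hy x hx
    have h1 := hy.2
    simp only [Set.mem_iInter] at h1
    obtain ⟨z, hz, hzy⟩ := h1 x hx
    exact ⟨z, hz, hzy⟩

/-- The number of preimages does not decrease near `y0`; the set of points with at least `m` preimages
is open. -/
private lemma N3_isOpen_ge (h : OD f U V) (m : ℕ) :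
    IsOpen {y | y ∈ V ∧ m ≤ (U ∩ f ⁻¹' {y}).ncard} := by
  classical
  rw [isOpen_iff_mem_nhds]
  rintro y0 ⟨hy0, hm⟩
  obtain ⟨P, W, hW, hyW, hWV, -, hP2, hPd, hz⟩ := N3_nhds h hy0
  refine Filter.mem_of_superset (hW.mem_nhds hyW) ?_
  intro y hy
  refine ⟨hWV hy, hm.trans ?_⟩
  have h1 : ∀ x : Eu n, ∃ z : Eu n, x ∈ U ∩ f ⁻¹' {y0} → z ∈ P x ∧ f z = y := by
    intro x
    by_cases hx : x ∈ U ∩ f ⁻¹' {y0}
    · obtain ⟨z, hz1, hz2⟩ := hz y hy x hx
      exact ⟨z, fun _ => ⟨hz1, hz2⟩⟩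
    · exact ⟨x, fun hx' => absurd hx' hx⟩
  choose g hg using h1
  refine Set.ncard_le_ncard_of_injOn g ?_ ?_ (h.fin y (hWV hy))
  · intro x hx
    exact ⟨(hP2 x hx).2 (hg x hx).1, (hg x hx).2⟩
  · intro x hx x' hx' he
    by_contra hne
    have h2 := (hg x hx).1
    have h3 := (hg x' hx').1
    rw [← he] at h3
    exact Set.disjoint_left.1 (hPd hx hx' hne) h2 h3

/-- At a local maximum of the number of preimages there is no branch point. -/
private lemma N3_max (h : OD f U V) {O : Set (Eu n)} (hO : IsOpen O) {y0 : Eu n}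
    (hy0 : y0 ∈ V) (hyO : y0 ∈ O)
    (hmax : ∀ y ∈ O, y ∈ V → (U ∩ f ⁻¹' {y}).ncard ≤ (U ∩ f ⁻¹' {y0}).ncard) :
    y0 ∉ f '' Br f U := by
  classical
  obtain ⟨P, W, hW, hyW, hWV, hP1, hP2, hPd, hz⟩ := N3_nhds h hy0
  rintro ⟨x, hxB, hxy⟩
  have hxF : x ∈ U ∩ f ⁻¹' {y0} := ⟨hxB.1, hxy⟩
  have hPU := (hP2 x hxF).2
  refine hxB.2 (P x ∩ f ⁻¹' (W ∩ O)) ?_ ⟨(hP2 x hxF).1, ?_⟩
    (Set.inter_subset_left.trans hPU) ?_
  · exact (h.cont.mono hPU).isOpen_inter_preimage (hP1 x) (hW.inter hO)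
  · show f x ∈ W ∩ O
    rw [hxy]
    exact ⟨hyW, hyO⟩
  rintro z1 ⟨hz1P, hz1W⟩ z2 ⟨hz2P, hz2W⟩ he
  by_contra hne
  set y := f z1 with hy
  have hyW' : y ∈ W := hz1W.1
  have h1 : ∀ x' : Eu n, ∃ z : Eu n, (x' ∈ U ∩ f ⁻¹' {y0} → z ∈ P x' ∧ f z = y) ∧
      (x' = x → z = z1) := by
    intro x'
    by_cases hx' : x' = x
    · refine ⟨z1, fun _ => ⟨?_, rfl⟩, fun _ => rfl⟩
      rw [hx']
      exact hz1P
    · by_cases hx : x' ∈ U ∩ f ⁻¹' {y0}
      · obtain ⟨z, hz1, hz2⟩ := hz y hyW' x' hx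
        exact ⟨z, fun _ => ⟨hz1, hz2⟩, fun h => absurd h hx'⟩
      · exact ⟨x', fun hx'' => absurd hx'' hx, fun h => absurd h hx'⟩
  choose g hg hgx using h1
  have hginj : Set.InjOn g (U ∩ f ⁻¹' {y0}) := by
    intro a ha b hb hab
    by_contra hne'
    have h2 := (hg a ha).1
    have h3 := (hg b hb).1
    rw [← hab] at h3
    exact Set.disjoint_left.1 (hPd ha hb hne') h2 h3
  have hz2not : z2 ∉ g '' (U ∩ f ⁻¹' {y0}) := by
    rintro ⟨a, ha, hga⟩
    by_cases hax : a = x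
    · apply hne
      rw [← hgx a hax, hga]
    · have h2 := (hg a ha).1
      rw [hga] at h2
      exact Set.disjoint_left.1 (hPd ha hxF hax) h2 hz2P
  have hsub : insert z2 (g '' (U ∩ f ⁻¹' {y0})) ⊆ U ∩ f ⁻¹' {y} := by
    intro z hz
    rcases Set.mem_insert_iff.1 hz with hz' | ⟨a, ha, hga⟩
    · rw [hz']
      exact ⟨hPU hz2P, he.symm⟩
    · rw [← hga]
      exact ⟨(hP2 a ha).2 (hg a ha).1, (hg a ha).2⟩
  have hyV : y ∈ V := hWV hyW'
  have hfin0 := h.fin y0 hy0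
  have hcard := Set.ncard_le_ncard hsub (h.fin y hyV)
  rw [Set.ncard_insert_of_notMem hz2not (hfin0.image g), hginj.ncard_image] at hcard
  have := hmax y hz1W.2 hyV
  omega

theorem N3_dense (h : OD f U V) (O : Set (Eu n)) (hO : IsOpen O) (hne : O.Nonempty)
    (hOV : O ⊆ V) : ∃ y ∈ O, y ∉ f '' Br f U := by
  classical
  by_contra hcon
  push Not at hcon
  set G : ℕ → Set (Eu n) := fun m =>
    (O ∩ {y | y ∈ V ∧ m ≤ (U ∩ f ⁻¹' {y}).ncard}) ∪ (closure O)ᶜ with hG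
  have hGo : ∀ m, IsOpen (G m) := fun m =>
    (hO.inter (N3_isOpen_ge h m)).union isClosed_closure.isOpen_compl
  have hGd : ∀ m, Dense (G m) := by
    intro m
    rw [dense_iff_inter_open]
    intro O₁ hO₁ hne₁
    by_cases hd : (O₁ ∩ O).Nonempty
    · -- maximum of the number of preimages on `O₁ ∩ O`
      by_contra hno
      have hlt : ∀ y ∈ O₁ ∩ O, (U ∩ f ⁻¹' {y}).ncard < m := by
        intro y hy
        by_contra hge
        exact hno ⟨y, hy.1, Or.inl ⟨hy.2, hOV hy.2, not_lt.1 hge⟩⟩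
      have hfinv : ((fun y => (U ∩ f ⁻¹' {y}).ncard) '' (O₁ ∩ O)).Finite := by
        refine (Set.finite_lt_nat m).subset ?_
        rintro _ ⟨y, hy, rfl⟩
        exact hlt y hy
      obtain ⟨y0, hy0, hmax⟩ := hfinv.exists_maximalFor' (fun y => (U ∩ f ⁻¹' {y}).ncard) _ hd
      have hle : ∀ y ∈ O₁ ∩ O, (U ∩ f ⁻¹' {y}).ncard ≤ (U ∩ f ⁻¹' {y0}).ncard := by
        intro y hy
        rcases le_total (U ∩ f ⁻¹' {y}).ncard (U ∩ f ⁻¹' {y0}).ncard with h1 | h1
        · exact h1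
        · exact hmax hy h1
      exact N3_max h (hO₁.inter hO) (hOV hy0.2) hy0 (fun y hy _ => hle y hy) (hcon y0 hy0.2)
    · -- `O₁` does not meet the closure
      obtain ⟨y, hy⟩ := hne₁
      refine ⟨y, hy, Or.inr ?_⟩
      intro hcl
      exact hd ((mem_closure_iff.1 hcl) O₁ hO₁ hy)
  obtain ⟨y, hyO, hyG⟩ := (dense_iInter_of_isOpen_nat hGo hGd).inter_open_nonempty O hO hne
  simp only [Set.mem_iInter] at hyG
  rcases hyG ((U ∩ f ⁻¹' {y}).ncard + 1) with h1 | h1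
  · have := h1.2.2
    omega
  · exact h1 (subset_closure hyO)

theorem N3_open (h : OD f U V) :
    IsOpen (V \ f '' Br f U) ∧ IsOpen (U \ f ⁻¹' (f '' Br f U)) := by
  have h1 : IsOpen (V \ f '' Br f U) := by
    rw [isOpen_iff_mem_nhds]
    rintro y ⟨hyV, hyB⟩
    obtain ⟨K, hK, hyK, hKV⟩ := exists_compact_subset h.oV hyV
    have hC := h.prp K hKV hK
    have hreg : IsOpen (⋃₀ {O : Set (Eu n) | IsOpen O ∧ O ⊆ U ∧ Set.InjOn f O}) :=
      isOpen_sUnion (fun O hO => hO.1)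
    have hC2 := hC.diff hreg
    have hC3 : IsCompact (f '' ((U ∩ f ⁻¹' K) \
        ⋃₀ {O : Set (Eu n) | IsOpen O ∧ O ⊆ U ∧ Set.InjOn f O})) :=
      hC2.image_of_continuousOn (h.cont.mono (fun x hx => hx.1.1))
    have hopen : IsOpen (interior K ∩ (f '' ((U ∩ f ⁻¹' K) \
        ⋃₀ {O : Set (Eu n) | IsOpen O ∧ O ⊆ U ∧ Set.InjOn f O}))ᶜ) :=
      isOpen_interior.inter hC3.isClosed.isOpen_compl
    refine Filter.mem_of_superset (hopen.mem_nhds ⟨hyK, ?_⟩) ?_
    · rintro ⟨x, ⟨⟨hxU, hxK⟩, hxO⟩, hxy⟩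
      apply hyB
      refine ⟨x, ⟨hxU, ?_⟩, hxy⟩
      intro O hO hxO' hOU hinj
      exact hxO ⟨O, ⟨hO, hOU, hinj⟩, hxO'⟩
    · rintro y' ⟨hy'K, hy'⟩
      refine ⟨hKV (interior_subset hy'K), ?_⟩
      rintro ⟨x, hxB, rfl⟩
      apply hy'
      refine ⟨x, ⟨⟨hxB.1, show f x ∈ K from interior_subset hy'K⟩, ?_⟩, rfl⟩
      rintro ⟨O, ⟨hO, hOU, hinj⟩, hxO⟩
      exact hxB.2 O hO hxO hOU hinj
  refine ⟨h1, ?_⟩
  have h2 : U \ f ⁻¹' (f '' Br f U) = U ∩ f ⁻¹' (V \ f '' Br f U) := by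
    ext x
    constructor
    · rintro ⟨hx, hx'⟩
      refine ⟨hx, ?_, hx'⟩
      rw [← h.img]
      exact ⟨x, hx, rfl⟩
    · rintro ⟨hx, hx'⟩
      exact ⟨hx, hx'.2⟩
  rw [h2]
  exact h.cont.isOpen_inter_preimage h.oU h1

theorem N3_cov (h : OD f U V) (hm : ∀ y ∈ U, f y ∈ V) :
    IsCoveringMap (resMap f U V (f '' Br f U) hm) := by
  classical
  obtain ⟨hoV, hoU⟩ := N3_open h
  set A := f '' Br f U with hA
  have hcont : Continuous (resMap f U V A hm) := by
    refine Continuous.subtype_mk ?_ _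
    exact (h.cont.mono Set.sdiff_subset).domRestrict
  have hopen : IsOpenMap (resMap f U V A hm) := by
    intro O hO
    have hO' : IsOpen (Subtype.val '' O : Set (Eu n)) := hoU.isOpenMap_subtype_val O hO
    have hsub : (Subtype.val '' O : Set (Eu n)) ⊆ U := by
      rintro _ ⟨y, -, rfl⟩
      exact y.2.1
    have h3 := h.opn _ hO' hsub
    have h4 : resMap f U V A hm '' O = Subtype.val ⁻¹' (f '' (Subtype.val '' O)) := by
      ext x
      constructor
      · rintro ⟨y, hy, rfl⟩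
        exact ⟨y, ⟨y, hy, rfl⟩, rfl⟩
      · rintro ⟨_, ⟨y, hy, rfl⟩, hyx⟩
        exact ⟨y, hy, Subtype.ext hyx⟩
    rw [h4]
    exact h3.preimage continuous_subtype_val
  have hloc : IsLocalHomeomorph (resMap f U V A hm) := by
    rw [isLocalHomeomorph_iff_isOpenEmbedding_restrict]
    intro y
    have hyB : (y : Eu n) ∉ Br f U := by
      intro hB
      exact y.2.2 ⟨y, hB, rfl⟩
    have hex : ∃ O : Set (Eu n), IsOpen O ∧ (y : Eu n) ∈ O ∧ O ⊆ U ∧ Set.InjOn f O := by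
      by_contra hno
      push Not at hno
      exact hyB ⟨y.2.1, fun O hO hyO hOU => hno O hO hyO hOU⟩
    obtain ⟨O, hO, hyO, hOU, hinj⟩ := hex
    have hO' : IsOpen (Subtype.val ⁻¹' O : Set ↥(U \ f ⁻¹' A)) := hO.preimage continuous_subtype_val
    refine ⟨Subtype.val ⁻¹' O, hO'.mem_nhds hyO, ?_⟩
    refine Topology.IsOpenEmbedding.of_continuous_injective_isOpenMap ?_ ?_ ?_
    · exact hcont.comp continuous_subtype_val
    · rintro ⟨a, ha⟩ ⟨b, hb⟩ hab
      have h5 : f a = f b := congrArg Subtype.val hab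
      have h6 : (a : Eu n) = b := hinj ha hb h5
      exact Subtype.ext (Subtype.ext h6)
    · exact hopen.domRestrict hO'
  have hproper : IsProperMap (resMap f U V A hm) := by
    have : LocallyCompactSpace ↥(V \ A) := hoV.locallyCompactSpace
    rw [isProperMap_iff_isCompact_preimage]
    refine ⟨hcont, ?_⟩
    intro K hK
    have hK' : IsCompact (Subtype.val '' K : Set (Eu n)) := hK.image continuous_subtype_val
    have hKV : (Subtype.val '' K : Set (Eu n)) ⊆ V := by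
      rintro _ ⟨y, -, rfl⟩
      exact y.2.1
    have h7 := h.prp _ hKV hK'
    rw [Subtype.isCompact_iff]
    have h8 : (Subtype.val '' (resMap f U V A hm ⁻¹' K) : Set (Eu n)) =
        U ∩ f ⁻¹' (Subtype.val '' K) := by
      ext x
      constructor
      · rintro ⟨y, hy, rfl⟩
        exact ⟨y.2.1, ⟨_, hy, rfl⟩⟩
      · rintro ⟨hx, ⟨k, hk, hkx⟩⟩
        have hxA : f x ∉ A := by
          rw [← hkx]
          exact k.2.2
        refine ⟨⟨x, hx, hxA⟩, ?_, rfl⟩
        show resMap f U V A hm ⟨x, hx, hxA⟩ ∈ K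
        have h9 : resMap f U V A hm ⟨x, hx, hxA⟩ = k := Subtype.ext hkx.symm
        rw [h9]
        exact hk
    rw [h8]
    exact h7
  rw [isCoveringMap_iff_isCoveringMapOn_univ]
  refine hproper.isClosedMap.isCoveringMapOn_of_isLocalHomeomorphOn ?_
    (hloc.isLocalHomeomorphOn.mono (Set.subset_univ _))
  intro x _
  have h10 := (h.fin x.1 x.2.1).preimage
    (Subtype.val_injective.injOn : Set.InjOn (Subtype.val : ↥(U \ f ⁻¹' A) → Eu n) _)
  refine h10.subset ?_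
  intro y hy
  have h11 : resMap f U V A hm y = x := hy
  exact ⟨y.2.1, congrArg Subtype.val h11⟩

end LibBR40
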