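import Pool.Agent.LibBR40.Defs

set_option autoImplicit false

/-! BR40 row N4.  Two general facts. -/

namespace LibBR40

theorem N4 {n : ℕ} (U F : Set (Eu n)) (hU : IsOpen U) (hUc : IsConnected U)
    (hdense : ∀ O : Set (Eu n), IsOpen O → O.Nonempty → O ⊆ U → (O \ F).Nonempty)
    (loc : ∀ x ∈ U, ∃ Q : Set (Eu n), IsOpen Q ∧ x ∈ Q ∧ Q ⊆ U ∧ IsPreconnected (Q \ F)) :
    IsConnected (U \ F) := by
  refine ⟨hdense U hU hUc.nonempty subset_rfl, ?_⟩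
  intro u v hu hv huv ⟨a, haUF, hau⟩ ⟨b, hbUF, hbv⟩
  by_contra hno
  have hdis : ∀ y ∈ U \ F, y ∈ u → y ∈ v → False := by
    intro y hy h1 h2
    exact hno ⟨y, hy, h1, h2⟩
  set u' : Set (Eu n) := {x | ∃ Q : Set (Eu n), IsOpen Q ∧ x ∈ Q ∧ Q ⊆ U ∧ Q \ F ⊆ u} with hu'
  set v' : Set (Eu n) := {x | ∃ Q : Set (Eu n), IsOpen Q ∧ x ∈ Q ∧ Q ⊆ U ∧ Q \ F ⊆ v} with hv'
  have hopen : ∀ w : Set (Eu n),
      IsOpen {x | ∃ Q : Set (Eu n), IsOpen Q ∧ x ∈ Q ∧ Q ⊆ U ∧ Q \ F ⊆ w} := by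
    intro w
    rw [isOpen_iff_mem_nhds]
    rintro x ⟨Q, hQ, hxQ, hQU, hQw⟩
    exact Filter.mem_of_superset (hQ.mem_nhds hxQ) fun y hy => ⟨Q, hQ, hy, hQU, hQw⟩
  have hcov : U ⊆ u' ∪ v' := by
    intro x hx
    obtain ⟨Q, hQ, hxQ, hQU, hQc⟩ := loc x hx
    have h1 : Q \ F ⊆ u ∪ v := fun y hy => huv ⟨hQU hy.1, hy.2⟩
    by_cases h2 : (Q \ F ∩ u).Nonempty
    · by_cases h3 : (Q \ F ∩ v).Nonempty
      · obtain ⟨y, hy, hyu, hyv⟩ := hQc u v hu hv h1 h2 h3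
        exact (hdis y ⟨hQU hy.1, hy.2⟩ hyu hyv).elim
      · left
        refine ⟨Q, hQ, hxQ, hQU, fun y hy => ?_⟩
        rcases h1 hy with h | h
        · exact h
        · exact absurd ⟨y, hy, h⟩ h3
    · right
      refine ⟨Q, hQ, hxQ, hQU, fun y hy => ?_⟩
      rcases h1 hy with h | h
      · exact absurd ⟨y, hy, h⟩ h2
      · exact h
  have mem_of : ∀ w : Set (Eu n), ∀ y ∈ U \ F,
      (∃ Q : Set (Eu n), IsOpen Q ∧ y ∈ Q ∧ Q ⊆ U ∧ Q \ F ⊆ w) → y ∈ w := by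
    rintro w y hy ⟨Q, _, hyQ, _, hQw⟩
    exact hQw ⟨hyQ, hy.2⟩
  have ha' : a ∈ u' := by
    rcases hcov haUF.1 with h | h
    · exact h
    · exact (hdis a haUF hau (mem_of v a haUF h)).elim
  have hb' : b ∈ v' := by
    rcases hcov hbUF.1 with h | h
    · exact (hdis b hbUF (mem_of u b hbUF h) hbv).elim
    · exact h
  obtain ⟨x, hxU, ⟨Q, hQ, hxQ, hQU, hQu⟩, ⟨R, hR, hxR, hRU, hRv⟩⟩ :=
    hUc.isPreconnected u' v' (hopen u) (hopen v) hcov ⟨a, haUF.1, ha'⟩ ⟨b, hbUF.1, hb'⟩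
  obtain ⟨y, ⟨hyQ, hyR⟩, hyF⟩ := hdense (Q ∩ R) (hQ.inter hR) ⟨x, hxQ, hxR⟩
    (fun y hy => hQU hy.1)
  exact hdis y ⟨hQU hyQ, hyF⟩ (hQu ⟨hyQ, hyF⟩) (hRv ⟨hyR, hyF⟩)

theorem N6 {n : ℕ} {f : Eu n → Eu n} {U V A : Set (Eu n)} (h : OD f U V)
    (hdense : ∀ O : Set (Eu n), IsOpen O → O.Nonempty → O ⊆ V → ∃ y ∈ O, y ∉ A)
    (hone : ∀ y ∈ V, y ∉ A → ∀ x ∈ U, ∀ x' ∈ U, f x = y → f x' = y → x = x') :
    Set.InjOn f U := by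
  intro x hx x' hx' hxx'
  by_contra hne
  obtain ⟨O, O', hO, hO', hxO, hxO', hdis⟩ := t2_separation hne
  have h1 : IsOpen (f '' (O ∩ U)) := h.opn _ (hO.inter h.oU) Set.inter_subset_right
  have h2 : IsOpen (f '' (O' ∩ U)) := h.opn _ (hO'.inter h.oU) Set.inter_subset_right
  have hV : f '' (O ∩ U) ⊆ V := by
    rw [← h.img]
    exact Set.image_mono Set.inter_subset_right
  obtain ⟨y, ⟨⟨z, hz, hzy⟩, ⟨z', hz', hzy'⟩⟩, hyA⟩ := hdense (f '' (O ∩ U) ∩ f '' (O' ∩ U))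
    (h1.inter h2) ⟨f x, ⟨x, ⟨hxO, hx⟩, rfl⟩, ⟨x', ⟨hxO', hx'⟩, hxx'.symm⟩⟩
    (fun y hy => hV hy.1)
  have hyV : y ∈ V := hV ⟨z, hz, hzy⟩
  have := hone y hyV hyA z hz.2 z' hz'.2 hzy hzy'
  exact Set.disjoint_left.1 hdis hz.1 (this ▸ hz'.1)

end LibBR40
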