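import Pool.Agent.LibBR40.T3

set_option autoImplicit false

/-! BR40 row T5 (MEDIUM).  The lattice data of a compact set of dimension at most `k` in the closed
cube.  You may use T3.  Real arithmetic.

PLAN.  `ε = 2 r / N`.  T3 with `δ = min ρ r / (16 n)` gives `V j`, `τ`.  Put
`K j = {x | (∀ i, 0 ≤ x i ≤ N) ∧ ∃ y ∈ V j, ∀ i, |y i - pt c r N x i| ≤ ε}`, `z j` = an element of `K j` if there is one, else 0
(so `0 ≤ z ≤ N`), `μ = ⌈δ / ε⌉₊ + 2`.
(1) from `C ⊆ ⋃ V j`.  (2) `x ∈ Thk n (K j)` : `x' ∈ K j` within `n`, `y ∈ V j` within `ε` of `pt x'` in each coordinate, so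
`|y i - pt x i| ≤ (n + 1) ε`, `dist ≤ n (n + 1) ε ≤ τ` for `N` large (`EuclideanSpace.dist_eq`, or norm ≤ sum of the
coordinates), the same point `pt x` for all `j` : order `≤ k + 1`.
(3) `x, z j ∈ K j`, `y, y' ∈ V j`, `|y i - y' i| ≤ δ`, so `ε |x i - z j i| ≤ δ + 2 ε`.
(4) `4 n (μ + n) < N` : `4 n (δ/ε + 3 + n) < 2 r / ε` for `ε` small since `4 n δ ≤ r / 4`.
(6) `|x i - z j i| ≤ Rad n μ = 2 n (μ + n) + 1` : take `y ∈ V j` near `z j`; `|y i - pt x i| ≤ (Rad + 1) ε ≤ 2 n δ + const ε ≤ ρ`.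
All conditions hold for `N ≥ N0`. -/

namespace LibBR40

private theorem T5_pt {n : ℕ} (c : Eu n) (r : ℝ) (N : ℕ) (x : Fin n → ℤ) (i : Fin n) :
    pt c r N x i = c i - r + (2 * r / N) * (x i : ℝ) := rfl

private theorem T5_le {n : ℕ} (y y' : Eu n) (i : Fin n) : |y i - y' i| ≤ dist y y' := by
  have h := PiLp.norm_apply_le (y - y') i
  rw [dist_eq_norm]
  exact h

private theorem T5_dist {n : ℕ} (hn : 1 ≤ n) (y y' : Eu n) (M : ℝ) (hM : 0 ≤ M)
    (h : ∀ i, |y i - y' i| ≤ M) : dist y y' ≤ n * M := by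
  rw [EuclideanSpace.dist_eq]
  refine Real.sqrt_le_iff.2 ⟨by positivity, ?_⟩
  have h1 : ∑ i, dist (y i) (y' i) ^ 2 ≤ ∑ _i : Fin n, M ^ 2 := by
    refine Finset.sum_le_sum fun i _ => ?_
    rw [Real.dist_eq]
    have := h i
    have := abs_nonneg (y i - y' i)
    gcongr
  rw [Finset.sum_const, Finset.card_univ, Fintype.card_fin, nsmul_eq_mul] at h1
  refine h1.trans ?_
  have hn' : (1 : ℝ) ≤ n := by exact_mod_cast hn
  rw [mul_pow]
  have h2 : (n : ℝ) ≤ (n : ℝ) ^ 2 := by nlinarith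
  exact mul_le_mul_of_nonneg_right h2 (sq_nonneg M)

theorem Grid {n k : ℕ} (hn : 1 ≤ n) (c : Eu n) (r ρ : ℝ) (hr : 0 < r) (hρ : 0 < ρ)
    (C : Set (Eu n)) (hC : IsCompact C) (hCc : ∀ y ∈ C, ∀ i, |y i - c i| ≤ r)
    (hd : CovDim k C) :
    ∃ N0 : ℕ, ∀ N : ℕ, N0 ≤ N → ∃ (m μ : ℕ) (K : Fin m → Set (Fin n → ℤ))
      (z : Fin m → (Fin n → ℤ)),
      (∀ x : Fin n → ℤ, (∀ i, 0 ≤ x i ∧ x i ≤ (N : ℤ)) →
        (∃ y ∈ C, ∀ i, |y i - pt c r N x i| ≤ 2 * r / N) → ∃ j, x ∈ K j) ∧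
      (∀ x, {j | x ∈ Thk n (K j)}.ncard ≤ k + 1) ∧
      (∀ j, ∀ x ∈ K j, ∀ i, |x i - z j i| ≤ (μ : ℤ)) ∧
      4 * n * (μ + n) < N ∧
      (∀ j i, 0 ≤ z j i ∧ z j i ≤ (N : ℤ)) ∧
      (∀ j, (K j).Nonempty → ∀ x : Fin n → ℤ, (∀ i, 0 ≤ x i ∧ x i ≤ (N : ℤ)) →
        (∀ i, |x i - z j i| ≤ (Rad n μ : ℤ)) → ∃ y ∈ C, ∀ i, |y i - pt c r N x i| ≤ ρ) := by
  classical
  have hn' : (1 : ℝ) ≤ n := by exact_mod_cast hn
  obtain ⟨δ, hδ⟩ : ∃ δ : ℝ, δ = min ρ r / (16 * n) := ⟨_, rfl⟩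
  have hmin : 0 < min ρ r := lt_min hρ hr
  have hδ0 : 0 < δ := by
    rw [hδ]
    positivity
  have hδr : 16 * n * δ ≤ r := by
    rw [hδ, mul_div_cancel₀ _ (by positivity)]
    exact min_le_right _ _
  have hδρ : 16 * n * δ ≤ ρ := by
    rw [hδ, mul_div_cancel₀ _ (by positivity)]
    exact min_le_left _ _
  obtain ⟨m, V, τ, hτ, hVC, hCV, hdiam, hord⟩ := T3 C hC hd δ hδ0
  refine ⟨⌈2 * r * (n * (n + 1)) / τ⌉₊ + 5 * (n * (n + 3)) +
    ⌈4 * r * (2 * n ^ 2 + 6 * n + 2) / ρ⌉₊ + 1, fun N hN => ?_⟩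
  have hN1 : 2 * r * (n * (n + 1)) / τ ≤ (N : ℝ) :=
    (Nat.le_ceil _).trans (by exact_mod_cast (by omega :
      ⌈2 * r * (n * (n + 1)) / τ⌉₊ ≤ N))
  have hN2 : 4 * r * (2 * n ^ 2 + 6 * n + 2) / ρ ≤ (N : ℝ) :=
    (Nat.le_ceil _).trans (by exact_mod_cast (by omega :
      ⌈4 * r * (2 * n ^ 2 + 6 * n + 2) / ρ⌉₊ ≤ N))
  have hN3 : 5 * ((n : ℝ) * (n + 3)) + 1 ≤ (N : ℝ) := by
    exact_mod_cast (by omega : 5 * (n * (n + 3)) + 1 ≤ N)
  have hNpos : (0 : ℝ) < N := by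
    have : 0 ≤ (n : ℝ) * (n + 3) := by positivity
    linarith
  obtain ⟨ε, hε⟩ : ∃ ε : ℝ, ε = 2 * r / N := ⟨_, rfl⟩
  have hε0 : 0 < ε := by
    rw [hε]
    positivity
  have hεN : ε * N = 2 * r := by
    rw [hε]
    field_simp
  have hpt : ∀ (x : Fin n → ℤ) (i : Fin n), pt c r N x i = c i - r + ε * (x i : ℝ) := by
    intro x i
    rw [T5_pt, hε]
  have hptd : ∀ (x x' : Fin n → ℤ) (i : Fin n),
      |pt c r N x i - pt c r N x' i| = ε * |(x i : ℝ) - x' i| := by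
    intro x x' i
    rw [hpt, hpt, ← abs_of_pos hε0, ← abs_mul, abs_of_pos hε0]
    congr 1
    ring
  -- smallness
  have hs1 : n * ((n + 1) * ε) ≤ τ := by
    rw [div_le_iff₀ hτ] at hN1
    have h1 : (n * ((n + 1) * ε)) * N ≤ τ * N := by
      calc (n * ((n + 1) * ε)) * N = n * (n + 1) * (ε * N) := by ring
        _ = 2 * r * (n * (n + 1)) := by
          rw [hεN]
          ring
        _ ≤ τ * N := by linarith
    exact le_of_mul_le_mul_right h1 hNpos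
  have hs2 : 2 * ((2 * n ^ 2 + 6 * n + 2) * ε) ≤ ρ := by
    rw [div_le_iff₀ hρ] at hN2
    have h1 : (2 * ((2 * n ^ 2 + 6 * n + 2) * ε)) * N ≤ ρ * N := by
      calc (2 * ((2 * (n : ℝ) ^ 2 + 6 * n + 2) * ε)) * N =
          2 * (2 * (n : ℝ) ^ 2 + 6 * n + 2) * (ε * N) := by ring
        _ = 4 * r * (2 * n ^ 2 + 6 * n + 2) := by
          rw [hεN]
          ring
        _ ≤ ρ * N := by linarith
    exact le_of_mul_le_mul_right h1 hNpos
  obtain ⟨μ, hμ⟩ : ∃ μ : ℕ, μ = ⌈δ / ε⌉₊ + 2 := ⟨_, rfl⟩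
  have hμ1 : δ / ε + 2 ≤ (μ : ℝ) := by
    rw [hμ]
    push_cast
    have := Nat.le_ceil (δ / ε)
    linarith
  have hμ2 : (μ : ℝ) ≤ δ / ε + 3 := by
    rw [hμ]
    push_cast
    have := Nat.ceil_lt_add_one (by positivity : 0 ≤ δ / ε)
    linarith
  have hμε : ε * μ ≤ δ + 3 * ε := by
    have h1 := mul_le_mul_of_nonneg_left hμ2 hε0.le
    have h2 : ε * (δ / ε + 3) = δ + 3 * ε := by
      field_simp
    linarith
  let K : Fin m → Set (Fin n → ℤ) := fun j =>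
    {x | (∀ i, 0 ≤ x i ∧ x i ≤ (N : ℤ)) ∧ ∃ y ∈ V j, ∀ i, |y i - pt c r N x i| ≤ ε}
  let z : Fin m → (Fin n → ℤ) := fun j => if h : (K j).Nonempty then h.some else 0
  have hzK : ∀ j, (K j).Nonempty → z j ∈ K j := by
    intro j h
    change (if h : (K j).Nonempty then h.some else 0) ∈ K j
    rw [dif_pos h]
    exact h.some_mem
  refine ⟨m, μ, K, z, ?_, ?_, ?_, ?_, ?_, ?_⟩
  · rintro x hx ⟨y, hy, hyx⟩
    obtain ⟨j, hj⟩ := Set.mem_iUnion.1 (hCV hy)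
    exact ⟨j, hx, y, hj, fun i => by rw [hε]; exact hyx i⟩
  · intro x
    refine le_trans (Set.ncard_le_ncard ?_ (Set.toFinite _)) (hord (pt c r N x))
    rintro j ⟨x', ⟨hx', y, hy, hyx⟩, hxx'⟩
    refine ⟨y, hy, le_trans ?_ hs1⟩
    refine T5_dist hn _ _ _ (by positivity) fun i => ?_
    have h1 := hyx i
    have h2 := hptd x x' i
    have h3 : |(x i : ℝ) - x' i| ≤ n := by exact_mod_cast hxx' i
    have h4 : ε * |(x i : ℝ) - x' i| ≤ ε * n := mul_le_mul_of_nonneg_left h3 hε0.le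
    have h5 : pt c r N x i - y i = (pt c r N x i - pt c r N x' i) - (y i - pt c r N x' i) := by
      ring
    rw [h5]
    refine (abs_sub _ _).trans ?_
    linarith
  · intro j x hx i
    have hz := hzK j ⟨x, hx⟩
    obtain ⟨hx1, y, hy, hyx⟩ := hx
    obtain ⟨hz1, y', hy', hyz⟩ := hz
    have h1 := hyx i
    have h2 := hyz i
    have h3 := (T5_le y y' i).trans (hdiam j y hy y' hy')
    have h4 := hptd x (z j) i
    have h5 : pt c r N x i - pt c r N (z j) i =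
        (y' i - pt c r N (z j) i) - (y i - pt c r N x i) + (y i - y' i) := by ring
    have h6 : ε * |(x i : ℝ) - z j i| ≤ δ + 2 * ε := by
      rw [← h4, h5]
      refine (abs_add_le _ _).trans ?_
      have := abs_sub (y' i - pt c r N (z j) i) (y i - pt c r N x i)
      linarith
    have h7 : |(x i : ℝ) - z j i| ≤ μ := by
      refine le_trans ?_ hμ1
      have h8 : ε * |(x i : ℝ) - z j i| ≤ ε * (δ / ε + 2) := by
        have : ε * (δ / ε + 2) = δ + 2 * ε := by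
          field_simp
        linarith
      exact le_of_mul_le_mul_left h8 hε0
    exact_mod_cast h7
  · have h1 : (4 * (n : ℝ) * (μ + n)) * ε < N * ε := by
      have h2 : (4 * (n : ℝ) * (μ + n)) * ε = 4 * n * (ε * μ) + 4 * n * n * ε := by ring
      have h3 : 4 * (n : ℝ) * (ε * μ) ≤ 4 * n * (δ + 3 * ε) :=
        mul_le_mul_of_nonneg_left hμε (by positivity)
      have h4 : (5 * ((n : ℝ) * (n + 3)) + 1) * ε ≤ N * ε :=
        mul_le_mul_of_nonneg_right hN3 hε0.le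
      have h5 : (N : ℝ) * ε = 2 * r := by
        rw [mul_comm]
        exact hεN
      have h6 : 0 < (n : ℝ) * (n + 3) * ε := by positivity
      nlinarith
    have h7 := lt_of_mul_lt_mul_right h1 hε0.le
    exact_mod_cast h7
  · intro j i
    by_cases h : (K j).Nonempty
    · exact (hzK j h).1 i
    · have h0 : z j = 0 := dif_neg h
      rw [h0]
      exact ⟨le_rfl, by simp⟩
  · intro j hj x hx hxz
    obtain ⟨hz1, y, hy, hyz⟩ := hzK j hj
    refine ⟨y, hVC j hy, fun i => ?_⟩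
    have h1 := hyz i
    have h2 := hptd x (z j) i
    have h3 : |(x i : ℝ) - z j i| ≤ 2 * n * (μ + n) + 1 := by
      have := hxz i
      unfold Rad at this
      exact_mod_cast this
    have h4 : ε * |(x i : ℝ) - z j i| ≤ ε * (2 * n * (μ + n) + 1) :=
      mul_le_mul_of_nonneg_left h3 hε0.le
    have h5 : y i - pt c r N x i = (y i - pt c r N (z j) i) - (pt c r N x i - pt c r N (z j) i) := by
      ring
    rw [h5]
    refine (abs_sub _ _).trans ?_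
    rw [h2]
    have h6 : ε * (2 * n * (μ + n) + 1) = 2 * n * (ε * μ) + (2 * n ^ 2 + 1) * ε := by ring
    have h7 : 2 * (n : ℝ) * (ε * μ) ≤ 2 * n * (δ + 3 * ε) :=
      mul_le_mul_of_nonneg_left hμε (by positivity)
    nlinarith

end LibBR40
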