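import Pool.Agent.LibBR40.B8
import Pool.Agent.LibBR40.T5

set_option autoImplicit false

/-! BR40 row T7 (MEDIUM/STRONG).  The complement of `A` in the cube is connected.
You may use T5 (Grid), B8 (LT0).

PLAN.  Suppose the open set `X = Cube c r \ A` is not preconnected: `X = X1 ∪ X2`, disjoint, open (in `X` or in the space),
`y1 ∈ X1`, `y2 ∈ X2`.  Choose `r' < r` with `|y1 i - c i|, |y2 i - c i| < r'` for all `i`, and `ρ > 0` such that the points of
the cube within `3ρ` (each coordinate) of `y1` or of `y2` are not in `A`.  `C := {y | (∀ i, |y i - c i| ≤ r') ∧ y ∈ A}` is compact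
(closed cube minus the open `X`).  Grid with `c, r', ρ, C`; `N ≥ N0` with `ε = 2r'/N ≤ ρ`.  Form of degree 0, `M = ℤ` :
`a ∅ x = 1` if `pt x ∈ X1`, else 0 (and `a T = 0` for `T ≠ ∅`).  `h1` of LT0 : `dd a T x ≠ 0` gives `T = {i}` and
`a ∅ (x + ev i) ≠ a ∅ x`; if no `y ∈ C` is within `ε` of `pt x` in each coordinate, then the segment from `pt x` to
`pt (x + ev i)` (in the closed cube as `x i < N`) lies in `X`, is connected, so both end points are in `X1` or both in `X2` :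
contradiction; so the first clause of Grid applies.  LT0 gives a constant `g`.
For `y1` : the lattice point `x i = ⌊(y1 i - c i + r') / ε⌋` has `0 ≤ x i < N`, `0 ≤ y1 i - pt x i < ε`; it is far from all
centres (otherwise the last clause of Grid gives `y ∈ C ⊆ A` within `ρ` of `pt x`, so within `2ρ` of `y1`), so `a ∅ x = g`; the
segment from `y1` to `pt x` lies in `X`, so `pt x ∈ X1`, `g = 1`.  For `y2` : `g = 0`. Contradiction. -/

namespace LibBR40

private def T7_Bx {n : ℕ} (p : Eu n) (ρ : ℝ) : Set (Eu n) := {s | ∀ l, |s l - p l| ≤ ρ}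

private theorem T7_convex {n : ℕ} (p : Eu n) (ρ : ℝ) : Convex ℝ (T7_Bx p ρ) := by
  intro s hs t ht a b ha hb hab l
  have h1 := hs l
  have h2 := ht l
  have e : (a • s + b • t) l - p l = a * (s l - p l) + b * (t l - p l) := by
    rw [PiLp.add_apply, PiLp.smul_apply, PiLp.smul_apply, smul_eq_mul, smul_eq_mul]
    have h3 : p l = (a + b) * p l := by rw [hab, one_mul]
    linear_combination (-1 : ℝ) * h3
  rw [e]
  calc |a * (s l - p l) + b * (t l - p l)| ≤ |a * (s l - p l)| + |b * (t l - p l)| :=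
        abs_add_le _ _
    _ = a * |s l - p l| + b * |t l - p l| := by
        rw [abs_mul, abs_mul, abs_of_nonneg ha, abs_of_nonneg hb]
    _ ≤ a * ρ + b * ρ :=
        add_le_add (mul_le_mul_of_nonneg_left h1 ha) (mul_le_mul_of_nonneg_left h2 hb)
    _ = ρ := by rw [← add_mul, hab, one_mul]

private theorem T7_compact {n : ℕ} (p : Eu n) (ρ : ℝ) : IsCompact (T7_Bx p ρ) := by
  have h : T7_Bx p ρ = (fun f : Fin n → ℝ => (WithLp.toLp 2 f : Eu n)) ''
      Set.Icc (fun l => p l - ρ) (fun l => p l + ρ) := by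
    ext s
    constructor
    · intro hs
      refine ⟨fun l => s l, ⟨fun l => ?_, fun l => ?_⟩, rfl⟩
      · have := abs_le.1 (hs l)
        show p l - ρ ≤ s l
        linarith [this.1]
      · have := abs_le.1 (hs l)
        show s l ≤ p l + ρ
        linarith [this.2]
    · rintro ⟨f, ⟨h1, h2⟩, rfl⟩ l
      have h1' : p l - ρ ≤ f l := h1 l
      have h2' : f l ≤ p l + ρ := h2 l
      show |f l - p l| ≤ ρ
      rw [abs_le]
      constructor <;> linarith
  rw [h]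
  exact isCompact_Icc.image (PiLp.continuous_toLp 2 _)

private theorem T7_nhd {n : ℕ} (X : Set (Eu n)) (hX : IsOpen X) (y : Eu n) (hy : y ∈ X) :
    ∃ ρ : ℝ, 0 < ρ ∧ ∀ z : Eu n, (∀ i, |z i - y i| ≤ ρ) → z ∈ X := by
  obtain ⟨δ, hδ, hb⟩ := Metric.isOpen_iff.1 hX y hy
  have hn : (0 : ℝ) < (n : ℝ) + 1 := by positivity
  refine ⟨δ / (n + 1), by positivity, fun z hz => hb ?_⟩
  rw [Metric.mem_ball, EuclideanSpace.dist_eq, Real.sqrt_lt' hδ]
  calc ∑ i, dist (z i) (y i) ^ 2 ≤ ∑ _i : Fin n, (δ / (n + 1)) ^ 2 := by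
        refine Finset.sum_le_sum fun i _ => ?_
        rw [Real.dist_eq]
        exact pow_le_pow_left₀ (abs_nonneg _) (hz i) 2
    _ = n * (δ / (n + 1)) ^ 2 := by
        rw [Finset.sum_const, Finset.card_univ, Fintype.card_fin, nsmul_eq_mul]
    _ < δ ^ 2 := by
        rw [div_pow, ← mul_div_assoc, div_lt_iff₀ (by positivity)]
        have h0 : (0 : ℝ) ≤ n := Nat.cast_nonneg n
        have h1 : 0 < δ ^ 2 := by positivity
        nlinarith [mul_nonneg h1.le h0, mul_nonneg h1.le (sq_nonneg (n : ℝ))]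

/-- two near points, no point of `A` near to them: same side -/
private theorem T7_side {n : ℕ} {c : Eu n} {r r' : ℝ} (hr' : r' < r) {A X1 X2 : Set (Eu n)}
    (h1 : IsOpen X1) (h2 : IsOpen X2) (h12 : Disjoint X1 X2) (hX : Cube c r \ A ⊆ X1 ∪ X2)
    {p q : Eu n} {ρ : ℝ} (hp : ∀ l, |p l - c l| ≤ r') (hq : ∀ l, |q l - c l| ≤ r')
    (hρ : 0 ≤ ρ) (hpq : ∀ l, |q l - p l| ≤ ρ)
    (hA : ∀ y ∈ A, (∀ i, |y i - c i| ≤ r') → ¬ ∀ l, |y l - p l| ≤ ρ) : p ∈ X1 ↔ q ∈ X1 := by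
  let s : Set (Eu n) := T7_Bx c r' ∩ T7_Bx p ρ
  have hs : IsPreconnected s := ((T7_convex c r').inter (T7_convex p ρ)).isPreconnected
  have hsX : s ⊆ X1 ∪ X2 := by
    intro y hy
    apply hX
    refine ⟨fun i => lt_of_le_of_lt (hy.1 i) hr', fun hyA => hA y hyA hy.1 hy.2⟩
  have hps : p ∈ s := ⟨hp, fun l => by rw [sub_self, abs_zero]; exact hρ⟩
  have hqs : q ∈ s := ⟨hq, hpq⟩
  constructor
  · intro h
    exact hs.subset_left_of_subset_union h1 h2 h12 hsX ⟨p, hps, h⟩ hqs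
  · intro h
    exact hs.subset_left_of_subset_union h1 h2 h12 hsX ⟨q, hqs, h⟩ hps

/-- the lattice point below a point -/
private theorem T7_floor {n N : ℕ} (hN : 0 < N) {c : Eu n} {r' : ℝ} (hr' : 0 < r') {y : Eu n}
    (hy : ∀ l, |y l - c l| < r') :
    ∃ x : Fin n → ℤ, (∀ l, 0 ≤ x l ∧ x l ≤ (N : ℤ)) ∧
      (∀ l, |pt c r' N x l - y l| ≤ 2 * r' / N) := by
  have hN' : (0 : ℝ) < N := by exact_mod_cast hN
  have hε : 0 < 2 * r' / N := by positivity
  refine ⟨fun l => ⌊(y l - c l + r') / (2 * r' / N)⌋, fun l => ?_, fun l => ?_⟩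
  · have h1 := abs_lt.1 (hy l)
    constructor
    · apply Int.floor_nonneg.2
      apply div_nonneg _ hε.le
      linarith [h1.1]
    · have h2 : (y l - c l + r') / (2 * r' / N) ≤ N := by
        rw [div_le_iff₀ hε]
        have : (N : ℝ) * (2 * r' / N) = 2 * r' := by field_simp
        rw [this]
        linarith [h1.2]
      have h3 := (Int.floor_le ((y l - c l + r') / (2 * r' / N))).trans h2
      have h4 : ((⌊(y l - c l + r') / (2 * r' / N)⌋ : ℤ) : ℝ) ≤ ((N : ℤ) : ℝ) := by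
        rw [Int.cast_natCast]
        exact h3
      exact Int.cast_le.1 h4
  · have h1 := Int.floor_le ((y l - c l + r') / (2 * r' / N))
    have h2 := Int.lt_floor_add_one ((y l - c l + r') / (2 * r' / N))
    rw [le_div_iff₀ hε] at h1
    rw [div_lt_iff₀ hε] at h2
    show |c l - r' + (2 * r' / N) * ((⌊(y l - c l + r') / (2 * r' / N)⌋ : ℤ) : ℝ) - y l| ≤ _
    rw [abs_le]
    constructor <;> nlinarith

private theorem T7_pt_mem {n N : ℕ} (hN : 0 < N) {c : Eu n} {r' : ℝ} (hr' : 0 < r')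
    {x : Fin n → ℤ} {l : Fin n} (hx : 0 ≤ x l ∧ x l ≤ (N : ℤ)) : |pt c r' N x l - c l| ≤ r' := by
  have hN' : (0 : ℝ) < N := by exact_mod_cast hN
  have h1 : (0 : ℝ) ≤ x l := by exact_mod_cast hx.1
  have h2 : (x l : ℝ) ≤ N := by exact_mod_cast hx.2
  have h3 : (2 * r' / N) * (x l : ℝ) ≤ 2 * r' := by
    calc (2 * r' / N) * (x l : ℝ) ≤ (2 * r' / N) * N :=
          mul_le_mul_of_nonneg_left h2 (by positivity)
      _ = 2 * r' := by field_simp
  have h4 : 0 ≤ (2 * r' / N) * (x l : ℝ) := by positivity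
  show |c l - r' + (2 * r' / N) * (x l : ℝ) - c l| ≤ r'
  rw [abs_le]
  constructor <;> linarith

theorem KL0 {n k : ℕ} (hkn : k + 3 ≤ n) (c : Eu n) (r : ℝ) (A : Set (Eu n))
    (hX : IsOpen (Cube c r \ A))
    (hd : ∀ C : Set (Eu n), C ⊆ A ∩ Cube c r → IsCompact C → CovDim k C) :
    IsPreconnected (Cube c r \ A) := by
  classical
  have hn : 1 ≤ n := by omega
  rw [isPreconnected_iff_subset_of_disjoint]
  intro u v hu hv huv hdis
  by_contra hcon
  rw [not_or, Set.not_subset, Set.not_subset] at hcon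
  obtain ⟨⟨y2, hy2, hy2u⟩, ⟨y1, hy1, hy1v⟩⟩ := hcon
  set X := Cube c r \ A with hXdef
  -- the two open parts
  let X1 : Set (Eu n) := X ∩ u
  let X2 : Set (Eu n) := X ∩ v
  have hX1 : IsOpen X1 := hX.inter hu
  have hX2 : IsOpen X2 := hX.inter hv
  have h12 : Disjoint X1 X2 := by
    rw [Set.disjoint_left]
    rintro y ⟨hyX, hyu⟩ ⟨-, hyv⟩
    have : y ∈ X ∩ (u ∩ v) := ⟨hyX, hyu, hyv⟩
    rw [hdis] at this
    exact this
  have hXX : X ⊆ X1 ∪ X2 := by
    intro y hy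
    rcases huv hy with h | h
    · exact Or.inl ⟨hy, h⟩
    · exact Or.inr ⟨hy, h⟩
  have hy1X1 : y1 ∈ X1 := ⟨hy1, (huv hy1).resolve_right hy1v⟩
  have hy2X1 : y2 ∉ X1 := fun h => hy2u h.2
  -- constants
  have hr : 0 < r := lt_of_le_of_lt (abs_nonneg _) (hy1.1 ⟨0, hn⟩)
  obtain ⟨r', ⟨⟨hr'0, hr'1, hr'2⟩, hr'r⟩⟩ : ∃ r' : ℝ, (0 < r' ∧ (∀ i, |y1 i - c i| < r') ∧
      (∀ i, |y2 i - c i| < r')) ∧ r' < r := by
    have e0 : ∀ᶠ r' in nhdsWithin r (Set.Iio r), 0 < r' :=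
      (eventually_gt_nhds hr).filter_mono nhdsWithin_le_nhds
    have e1 : ∀ᶠ r' in nhdsWithin r (Set.Iio r), ∀ i, |y1 i - c i| < r' :=
      Filter.eventually_all.2 fun i =>
        (eventually_gt_nhds (hy1.1 i)).filter_mono nhdsWithin_le_nhds
    have e2 : ∀ᶠ r' in nhdsWithin r (Set.Iio r), ∀ i, |y2 i - c i| < r' :=
      Filter.eventually_all.2 fun i =>
        (eventually_gt_nhds (hy2.1 i)).filter_mono nhdsWithin_le_nhds
    have e3 : ∀ᶠ r' in nhdsWithin r (Set.Iio r), r' < r := self_mem_nhdsWithin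
    obtain ⟨r', h⟩ := (((e0.and (e1.and e2)).and e3)).exists
    exact ⟨r', h⟩
  obtain ⟨ρ1, hρ1, hb1⟩ := T7_nhd X hX y1 hy1
  obtain ⟨ρ2, hρ2, hb2⟩ := T7_nhd X hX y2 hy2
  obtain ⟨ρ, hρ, hρa, hρb⟩ : ∃ ρ : ℝ, 0 < ρ ∧ 2 * ρ ≤ ρ1 ∧ 2 * ρ ≤ ρ2 := by
    refine ⟨min ρ1 ρ2 / 2, by positivity, ?_, ?_⟩
    · linarith [min_le_left ρ1 ρ2]
    · linarith [min_le_right ρ1 ρ2]
  -- the compact set
  let C : Set (Eu n) := {y | (∀ i, |y i - c i| ≤ r') ∧ y ∈ A}
  have hCeq : C = T7_Bx c r' ∩ Xᶜ := by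
    ext y
    constructor
    · rintro ⟨h1, h2⟩
      exact ⟨h1, fun h => h.2 h2⟩
    · rintro ⟨h1, h2⟩
      refine ⟨h1, ?_⟩
      by_contra h3
      exact h2 ⟨fun i => lt_of_le_of_lt (h1 i) hr'r, h3⟩
  have hC : IsCompact C := by
    rw [hCeq]
    exact (T7_compact c r').inter_right hX.isClosed_compl
  have hCA : C ⊆ A ∩ Cube c r := fun y hy => ⟨hy.2, fun i => lt_of_le_of_lt (hy.1 i) hr'r⟩
  obtain ⟨N0, hN0⟩ := Grid (k := k) hn c r' ρ hr'0 hρ C hC (fun y hy => hy.1) (hd C hCA hC)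
  obtain ⟨N, hNN0, hNpos, hNε⟩ : ∃ N : ℕ, N0 ≤ N ∧ 0 < N ∧ 2 * r' / N ≤ ρ := by
    refine ⟨max N0 (⌈2 * r' / ρ⌉₊ + 1), le_max_left _ _, ?_, ?_⟩
    · exact lt_of_lt_of_le (Nat.succ_pos _) (le_max_right _ _)
    · have h1 : 2 * r' / ρ ≤ ((max N0 (⌈2 * r' / ρ⌉₊ + 1) : ℕ) : ℝ) := by
        refine (Nat.le_ceil _).trans ?_
        exact_mod_cast (Nat.le_succ _).trans (le_max_right _ _)
      have h2 : (0 : ℝ) < ((max N0 (⌈2 * r' / ρ⌉₊ + 1) : ℕ) : ℝ) := by
        exact_mod_cast lt_of_lt_of_le (Nat.succ_pos _) (le_max_right _ _)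
      rw [div_le_iff₀ hρ] at h1
      rw [div_le_iff₀ h2]
      linarith
  obtain ⟨m, μ, K, z, g1, g2, g3, g4, g5, g6⟩ := hN0 N hNN0
  have hN' : (0 : ℝ) < N := by exact_mod_cast hNpos
  have hε : 0 < 2 * r' / N := by positivity
  let a : Form n ℤ := fun T x => if T = ∅ ∧ pt c r' N x ∈ X1 then 1 else 0
  have ha : ∀ T x, a T x ≠ 0 → T.card = 0 := by
    intro T x h
    have h1 : T = ∅ ∧ pt c r' N x ∈ X1 := by
      by_contra h2
      exact h (if_neg h2)
    rw [h1.1, Finset.card_empty]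
  have h1 : ∀ T x, (∀ i, 0 ≤ x i ∧ x i ≤ (N : ℤ)) → (∀ i ∈ T, x i < (N : ℤ)) →
      dd a T x ≠ 0 → ∃ j, x ∈ K j := by
    intro T x hx hxT hne
    unfold dd at hne
    obtain ⟨i, hiT, hi⟩ := Finset.exists_ne_zero_of_sum_ne_zero hne
    have hi' : a (T.erase i) (x + ev i) - a (T.erase i) x ≠ 0 := by
      intro h
      rw [h, smul_zero] at hi
      exact hi rfl
    apply g1 x hx
    by_contra hno
    apply hi'
    have hxi : x i + 1 ≤ (N : ℤ) := hxT i hiT
    have hpx : ∀ l, |pt c r' N x l - c l| ≤ r' := fun l => T7_pt_mem hNpos hr'0 (hx l)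
    have hval : ∀ l, (x + ev i) l = x l + (if l = i then 1 else 0) := by
      intro l
      rw [Pi.add_apply]
      congr 1
      unfold ev
      rw [Pi.single_apply]
    have hpx' : ∀ l, |pt c r' N (x + ev i) l - c l| ≤ r' := by
      intro l
      apply T7_pt_mem hNpos hr'0
      rw [hval l]
      have := hx l
      split_ifs with h
      · rw [h] at this ⊢
        omega
      · omega
    have hdiff : ∀ l, |pt c r' N (x + ev i) l - pt c r' N x l| ≤ 2 * r' / N := by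
      intro l
      show |(c l - r' + (2 * r' / N) * (((x + ev i) l : ℤ) : ℝ)) -
        (c l - r' + (2 * r' / N) * (x l : ℝ))| ≤ _
      rw [hval l]
      split_ifs with h
      · have e : (c l - r' + (2 * r' / N) * ((x l + 1 : ℤ) : ℝ)) -
            (c l - r' + (2 * r' / N) * (x l : ℝ)) = 2 * r' / N := by
          push_cast; ring
        rw [e, abs_of_pos hε]
      · rw [add_zero, sub_self, abs_zero]
        exact hε.le
    have hside := T7_side hr'r hX1 hX2 h12 hXX hpx hpx' hε.le hdiff (by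
      intro y hyA hyc hy
      exact hno ⟨y, ⟨hyc, hyA⟩, hy⟩)
    show (if T.erase i = ∅ ∧ pt c r' N (x + ev i) ∈ X1 then (1 : ℤ) else 0) -
      (if T.erase i = ∅ ∧ pt c r' N x ∈ X1 then 1 else 0) = 0
    simp only [← hside, sub_self]
  obtain ⟨g, hg⟩ := LT0 hkn K z a ha h1 g2 g3 g4 g5
  -- the value at a good point
  have hval : ∀ (y : Eu n) (ρ' : ℝ), 2 * ρ ≤ ρ' → (∀ l, |y l - c l| < r') →
      (∀ w : Eu n, (∀ i, |w i - y i| ≤ ρ') → w ∈ X) →
      (if y ∈ X1 then (1 : ℤ) else 0) = g := by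
    intro y ρ' hρ' hyc hyX
    obtain ⟨x, hx, hxy⟩ := T7_floor hNpos hr'0 hyc
    have hfar : ∀ j, (K j).Nonempty → ∃ l, (Rad n μ : ℤ) < |x l - z j l| := by
      intro j hj
      by_contra hcon
      push Not at hcon
      obtain ⟨w, hwC, hw⟩ := g6 j hj x hx hcon
      have hwX : w ∈ X := by
        apply hyX
        intro i
        calc |w i - y i| = |(w i - pt c r' N x i) + (pt c r' N x i - y i)| := by
              congr 1; ring
          _ ≤ |w i - pt c r' N x i| + |pt c r' N x i - y i| := abs_add_le _ _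
          _ ≤ ρ + ρ := add_le_add (hw i) ((hxy i).trans hNε)
          _ ≤ ρ' := by linarith
      exact hwX.2 hwC.2
    have h3 := hg x hx hfar
    have hside := T7_side hr'r hX1 hX2 h12 hXX (p := y) (q := pt c r' N x)
      (fun l => (hyc l).le) (fun l => T7_pt_mem hNpos hr'0 (hx l)) hε.le hxy (by
        intro w hwA hwc hw
        have hwX : w ∈ X := hyX w fun i => (hw i).trans (by linarith)
        exact hwX.2 hwA)
    have h4 : a ∅ x = if y ∈ X1 then 1 else 0 := by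
      show (if (∅ : Finset (Fin n)) = ∅ ∧ pt c r' N x ∈ X1 then (1 : ℤ) else 0) = _
      simp only [true_and, ← hside]
    rw [← h4, h3]
  have k1 := hval y1 ρ1 hρa hr'1 hb1
  have k2 := hval y2 ρ2 hρb hr'2 hb2
  rw [if_pos hy1X1] at k1
  rw [if_neg hy2X1] at k2
  rw [← k2] at k1
  exact one_ne_zero k1

end LibBR40
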