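import Pool.Agent.LibBR40.Defs

set_option autoImplicit false

/-! BR40 row T2.  Basic properties of `PSys`, convex sets. -/

namespace LibBR40

variable {M : Type*} [AddCommGroup M]

theorem PSys_refl {Y : Type*} [TopologicalSpace Y] (P : PSys Y M) (y : Y) :
    P.a (Path.refl y) = 0 := by
  have h1 := P.tr (Path.refl y) (Path.refl y)
  rw [Path.refl_trans_refl] at h1
  exact left_eq_add.1 h1

theorem PSys_symm {Y : Type*} [TopologicalSpace Y] (P : PSys Y M) {x y : Y} (p : Path x y) :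
    P.a p.symm = - P.a p := by
  have h1 := P.tr p p.symm
  have h2 : P.a (p.trans p.symm) = P.a (Path.refl x) :=
    P.ho _ _ ⟨(Path.Homotopy.reflTransSymm p).symm⟩
  rw [h2, PSys_refl] at h1
  exact (neg_eq_of_add_eq_zero_right h1.symm).symm

variable {n : ℕ} {X : Set (Eu n)}

theorem T2_convex (P : PSys X M) {Z : Set (Eu n)} (hZ : Convex ℝ Z) (hZX : Z ⊆ X) {u v : X}
    (p q : Path u v) (hp : ∀ t, (p t : Eu n) ∈ Z) (hq : ∀ t, (q t : Eu n) ∈ Z) :
    P.a p = P.a q := by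
  apply P.ho
  have hmem : ∀ (t s : unitInterval), AffineMap.lineMap (p s : Eu n) (q s : Eu n) (t : ℝ) ∈ Z := by
    intro t s
    have : AffineMap.lineMap (p s : Eu n) (q s : Eu n) (t : ℝ) ∈ segment ℝ (p s : Eu n) (q s) := by
      rw [segment_eq_image_lineMap]
      exact ⟨t, t.2, rfl⟩
    exact hZ.segment_subset (hp s) (hq s) this
  refine ⟨⟨⟨⟨fun ts => ⟨AffineMap.lineMap (p ts.2 : Eu n) (q ts.2 : Eu n) (ts.1 : ℝ),
    hZX (hmem ts.1 ts.2)⟩, ?_⟩, ?_, ?_⟩, ?_⟩⟩
  · refine Continuous.subtype_mk ?_ _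
    simp only [AffineMap.lineMap_apply_module]
    fun_prop
  · intro s
    apply Subtype.ext
    simp
  · intro s
    apply Subtype.ext
    simp
  · intro t s hs
    rcases hs with rfl | rfl
    · apply Subtype.ext
      simp
    · apply Subtype.ext
      simp

theorem segP_mem {Z : Set (Eu n)} (hZ : Convex ℝ Z) {u v : X} (hu : (u : Eu n) ∈ Z)
    (hv : (v : Eu n) ∈ Z) (h : segment ℝ (u : Eu n) v ⊆ X) (t) : (segP u v h t : Eu n) ∈ Z := by
  apply hZ.segment_subset hu hv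
  rw [segment_eq_image_lineMap]
  exact ⟨t, t.2, rfl⟩

theorem T2_tri (P : PSys X M) {Z : Set (Eu n)} (hZ : Convex ℝ Z) (hZX : Z ⊆ X) {u v w : X}
    (hu : (u : Eu n) ∈ Z) (hv : (v : Eu n) ∈ Z) (hw : (w : Eu n) ∈ Z)
    (huv : segment ℝ (u : Eu n) v ⊆ X) (hvw : segment ℝ (v : Eu n) w ⊆ X)
    (huw : segment ℝ (u : Eu n) w ⊆ X) :
    P.a (segP u w huw) = P.a (segP u v huv) + P.a (segP v w hvw) := by
  rw [← P.tr]
  refine T2_convex P hZ hZX _ _ (segP_mem hZ hu hw huw) ?_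
  intro t
  rw [Path.trans_apply]
  split_ifs
  · exact segP_mem hZ hu hv huv _
  · exact segP_mem hZ hv hw hvw _

end LibBR40
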