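import Pool.Agent.LibBR40.B8
import Pool.Agent.LibBR40.T2
import Pool.Agent.LibBR40.T5

set_option autoImplicit false

/-! BR40 row T6 (STRONG).  The potential of an additive path function on the lattice, away from `A`.
You may use T2, T5 (Grid), B8 (LT1).

PLAN.  `C := {y | (∀ i, |y i - c i| ≤ r') ∧ y ∈ A}` is compact: the closed cube is compact and contained in
`Cube c r` (`r' < r`), and `C` = closed cube minus the open set `Cube c r \ A`.  `Grid` with `c, r', ρ, C` gives `N0`; let
`N ≥ max N0 1` and `ε = 2 r' / N`.  Define the form `a` : `a T x = P.a (segP ⟨pt x, _⟩ ⟨pt (x + ev i), _⟩ h)` if `T = {i}` and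
`h : segment (pt x) (pt (x + ev i)) ⊆ Cube c r \ A`, and 0 otherwise (`T.card = 1` is `T = {i}`; e.g.
`a T x = if hT : ∃ i, T = {i} then .. (Classical.choose hT) .. else 0`, and `a {i} x` by `Finset.singleton_injective`).
LT1 gives `g`; its hypothesis `∀ j, (K j).Nonempty → ∃ l, Rad n μ < |x l - z j l|` follows from the last clause of Grid,
contraposed, and the hypothesis at `x` (a point `y ∈ C` within `ρ` is in `A` and in the cube).  Then
`P.a (segP u v h) = a {i} x` as `u, v` are these points.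
`h1` of LT1 : let `x` be in the box, `x i < N` for `i ∈ T`, `dd a T x ≠ 0`.  Then `T.card = 2` (a term
`a (T.erase i) _ ≠ 0`).  By the first clause of Grid it is enough to find `y ∈ C` with `|y l - pt x l| ≤ ε` for all `l`.
Suppose there is none.  `Z = {y | ∀ l, pt x l ≤ y l ∧ y l ≤ pt x l + (if l ∈ T then ε else 0)}` is convex, contained in the
closed cube of radius `r'` (`x l < N` for `l ∈ T`), so in `Cube c r`, and does not meet `A` : `Z ⊆ Cube c r \ A`.  For `T = {i, j}`,
`i < j`, `dd a T x = ± ((a {j} (x+e_i) - a {j} x) - (a {i} (x+e_j) - a {i} x))`, all four segments are in `Z`, and the sum is 0 by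
`T2_tri` for the triangles `pt x, pt (x+e_i), pt (x+e_i+e_j)` and `pt x, pt (x+e_j), pt (x+e_i+e_j)`. -/

namespace LibBR40

private theorem T6_pt_apply {n : ℕ} (c : Eu n) (r : ℝ) (N : ℕ) (x : Fin n → ℤ) (l : Fin n) :
    pt c r N x l = c l - r + (2 * r / N) * (x l : ℝ) := rfl

private theorem T6_compact {n : ℕ} (c : Eu n) (r' : ℝ) :
    IsCompact {y : Eu n | ∀ i, |y i - c i| ≤ r'} := by
  have h1 : IsCompact (Set.univ.pi fun i : Fin n => Set.Icc (c i - r') (c i + r')) :=
    isCompact_univ_pi fun i => isCompact_Icc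
  have h2 := h1.image (PiLp.continuous_toLp 2 (fun _ : Fin n => ℝ))
  convert h2 using 1
  ext y
  constructor
  · intro hy
    refine ⟨fun i => y i, ?_, rfl⟩
    intro i _
    have := abs_le.1 (hy i)
    exact ⟨by linarith [this.1], by linarith [this.2]⟩
  · rintro ⟨w, hw, rfl⟩ i
    have h3 := hw i (Set.mem_univ i)
    rw [abs_le]
    exact ⟨by linarith [h3.1], by linarith [h3.2]⟩

private theorem T6_convex {n : ℕ} (lo hi : Fin n → ℝ) :
    Convex ℝ {y : Eu n | ∀ l, lo l ≤ y l ∧ y l ≤ hi l} := by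
  intro y hy y' hy' s t hs ht hst l
  have h1 := hy l
  have h2 := hy' l
  have e1 : (s • y + t • y') l = s * y l + t * y' l := rfl
  rw [e1]
  have ht' : t = 1 - s := by linarith
  subst ht'
  constructor
  · nlinarith [h1.1, h2.1]
  · nlinarith [h1.2, h2.2]

/-- The relation defining the form. -/
private def T6_R {n : ℕ} {M : Type*} [AddCommGroup M] (c : Eu n) (r' : ℝ) {X : Set (Eu n)}
    (P : PSys X M) (N : ℕ) (T : Finset (Fin n)) (x : Fin n → ℤ) (m : M) : Prop :=
  ∃ (i : Fin n) (u v : X) (h : segment ℝ (u : Eu n) v ⊆ X), T = {i} ∧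
    (u : Eu n) = pt c r' N x ∧ (v : Eu n) = pt c r' N (x + ev i) ∧ m = P.a (segP u v h)

private theorem T6_R_unique {n : ℕ} {M : Type*} [AddCommGroup M] (c : Eu n) (r' : ℝ)
    {X : Set (Eu n)} (P : PSys X M) (N : ℕ) (T : Finset (Fin n)) (x : Fin n → ℤ) (m m' : M)
    (h : T6_R c r' P N T x m) (h' : T6_R c r' P N T x m') : m = m' := by
  obtain ⟨i, u, v, h, hT, hu, hv, rfl⟩ := h
  obtain ⟨i', u', v', h', hT', hu', hv', rfl⟩ := h'
  have hi : i = i' := Finset.singleton_injective (hT.symm.trans hT')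
  subst hi
  have e1 : u = u' := Subtype.ext (hu.trans hu'.symm)
  have e2 : v = v' := Subtype.ext (hv.trans hv'.symm)
  subst e1
  subst e2
  rfl

open Classical in
/-- The form of a path function. -/
private noncomputable def T6_a {n : ℕ} {M : Type*} [AddCommGroup M] (c : Eu n) (r' : ℝ)
    {X : Set (Eu n)} (P : PSys X M) (N : ℕ) : Form n M :=
  fun T x => if h : ∃ m : M, T6_R c r' P N T x m then h.choose else 0

private theorem T6_a_eq {n : ℕ} {M : Type*} [AddCommGroup M] (c : Eu n) (r' : ℝ)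
    {X : Set (Eu n)} (P : PSys X M) (N : ℕ) (i : Fin n) (x : Fin n → ℤ) (u v : X)
    (h : segment ℝ (u : Eu n) v ⊆ X) (hu : (u : Eu n) = pt c r' N x)
    (hv : (v : Eu n) = pt c r' N (x + ev i)) :
    T6_a c r' P N {i} x = P.a (segP u v h) := by
  have hR : T6_R c r' P N {i} x (P.a (segP u v h)) := ⟨i, u, v, h, rfl, hu, hv, rfl⟩
  have hex : ∃ m : M, T6_R c r' P N {i} x m := ⟨_, hR⟩
  unfold T6_a
  rw [dif_pos hex]
  exact T6_R_unique c r' P N {i} x _ _ hex.choose_spec hR

private theorem T6_a_card {n : ℕ} {M : Type*} [AddCommGroup M] (c : Eu n) (r' : ℝ)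
    {X : Set (Eu n)} (P : PSys X M) (N : ℕ) (T : Finset (Fin n)) (x : Fin n → ℤ)
    (h : T6_a c r' P N T x ≠ 0) : T.card = 1 := by
  unfold T6_a at h
  split_ifs at h with hex
  · obtain ⟨m, i, u, v, _, hT, _⟩ := hex
    rw [hT, Finset.card_singleton]
  · exact absurd rfl h

private theorem T6_dd_pair {n : ℕ} {M : Type*} [AddCommGroup M] (a : Form n M) {i j : Fin n}
    (hij : i < j) (x : Fin n → ℤ) :
    dd a {i, j} x = (a {j} (x + ev i) - a {j} x) - (a {i} (x + ev j) - a {i} x) := by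
  have hne : i ≠ j := hij.ne
  unfold dd
  rw [Finset.sum_pair hne]
  have e1 : ({i, j} : Finset (Fin n)).erase i = {j} := by
    ext l
    simp only [Finset.mem_erase, Finset.mem_insert, Finset.mem_singleton]
    constructor
    · rintro ⟨h1, h2 | h2⟩
      · exact absurd h2 h1
      · exact h2
    · rintro rfl
      exact ⟨hne.symm, Or.inr rfl⟩
  have e2 : ({i, j} : Finset (Fin n)).erase j = {i} := by
    ext l
    simp only [Finset.mem_erase, Finset.mem_insert, Finset.mem_singleton]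
    constructor
    · rintro ⟨h1, h2 | h2⟩
      · exact h2
      · exact absurd h2 h1
    · rintro rfl
      exact ⟨hne, Or.inl rfl⟩
  have s1 : sg i ({i, j} : Finset (Fin n)) = 1 := by
    unfold sg
    have : ({i, j} : Finset (Fin n)).filter (fun l => l < i) = ∅ := by
      ext l
      simp only [Finset.mem_filter, Finset.mem_insert, Finset.mem_singleton,
        Finset.notMem_empty, iff_false, not_and]
      rintro (rfl | rfl)
      · exact lt_irrefl _
      · exact hij.not_gt
    rw [this]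
    simp
  have s2 : sg j ({i, j} : Finset (Fin n)) = -1 := by
    unfold sg
    have : ({i, j} : Finset (Fin n)).filter (fun l => l < j) = {i} := by
      ext l
      simp only [Finset.mem_filter, Finset.mem_insert, Finset.mem_singleton]
      constructor
      · rintro ⟨rfl | rfl, h2⟩
        · rfl
        · exact absurd h2 (lt_irrefl _)
      · rintro rfl
        exact ⟨Or.inl rfl, hij⟩
    rw [this]
    simp
  rw [e1, e2, s1, s2, one_smul, neg_one_smul, ← sub_eq_add_neg]

private theorem T6_closed {n : ℕ} {M : Type*} [AddCommGroup M] (c : Eu n)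
    (r r' : ℝ) (hr' : 0 < r') (hrr : r' < r) (A : Set (Eu n))
    (P : PSys ↥(Cube c r \ A) M) (N : ℕ) (hN : 1 ≤ N) (x : Fin n → ℤ)
    (hx : ∀ l, 0 ≤ x l ∧ x l ≤ (N : ℤ)) {i j : Fin n} (hij : i < j) (hi : x i < (N : ℤ))
    (hj : x j < (N : ℤ))
    (hno : ∀ y : Eu n, (∀ l, |y l - c l| ≤ r') → y ∈ A →
      ¬ ∀ l, |y l - pt c r' N x l| ≤ 2 * r' / N) :
    dd (T6_a c r' P N) {i, j} x = 0 := by
  have hN0 : (0 : ℝ) < N := by exact_mod_cast hN
  have hε : 0 < 2 * r' / (N : ℝ) := by positivity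
  have hεN : 2 * r' / (N : ℝ) * N = 2 * r' := by field_simp
  set ε : ℝ := 2 * r' / (N : ℝ) with hεd
  set Z : Set (Eu n) := {y : Eu n | ∀ l, pt c r' N x l ≤ y l ∧
    y l ≤ pt c r' N x l + (if l = i ∨ l = j then ε else 0)} with hZ
  have hZc : Convex ℝ Z := T6_convex (fun l => pt c r' N x l)
    (fun l => pt c r' N x l + (if l = i ∨ l = j then ε else 0))
  have hZb : ∀ y ∈ Z, ∀ l, |y l - c l| ≤ r' := by
    intro y hy l
    have h1 := hy l
    have h2 := T6_pt_apply c r' N x l
    rw [← hεd] at h2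
    have h3 : (0 : ℝ) ≤ (x l : ℝ) := by exact_mod_cast (hx l).1
    have h4 : ε * (x l : ℝ) + (if l = i ∨ l = j then ε else 0) ≤ ε * N := by
      split_ifs with hl
      · have h5 : x l < (N : ℤ) := by
          rcases hl with rfl | rfl
          · exact hi
          · exact hj
        have h6 : (x l : ℝ) + 1 ≤ N := by exact_mod_cast h5
        nlinarith
      · have h6 : (x l : ℝ) ≤ N := by exact_mod_cast (hx l).2
        nlinarith
    have h7 : 0 ≤ ε * (x l : ℝ) := mul_nonneg hε.le h3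
    rw [abs_le]
    constructor
    · linarith [h1.1]
    · linarith [h1.2]
  have hZX : Z ⊆ Cube c r \ A := by
    intro y hy
    have hb := hZb y hy
    refine ⟨fun l => lt_of_le_of_lt (hb l) hrr, fun hA => hno y hb hA fun l => ?_⟩
    have h1 := hy l
    have h2 : (if l = i ∨ l = j then ε else 0) ≤ ε := by
      split_ifs
      · exact le_rfl
      · exact hε.le
    rw [abs_le]
    constructor
    · linarith [h1.1]
    · linarith [h1.2]
  have hmem : ∀ (s t : ℕ), s ≤ 1 → t ≤ 1 →
      pt c r' N (x + (s : ℤ) • ev i + (t : ℤ) • ev j) ∈ Z := by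
    intro s t hs ht l
    have h2 := T6_pt_apply c r' N x l
    have h3 := T6_pt_apply c r' N (x + (s : ℤ) • ev i + (t : ℤ) • ev j) l
    rw [← hεd] at h2 h3
    have h4 : ((x + (s : ℤ) • ev i + (t : ℤ) • ev j) l : ℤ)
        = x l + (if l = i then (s : ℤ) else 0) + (if l = j then (t : ℤ) else 0) := by
      simp only [Pi.add_apply, Pi.smul_apply, ev, Pi.single_apply, smul_eq_mul, mul_ite, mul_one,
        mul_zero]
    have hs' : (0 : ℝ) ≤ (s : ℝ) ∧ (s : ℝ) ≤ 1 := ⟨Nat.cast_nonneg _, by exact_mod_cast hs⟩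
    have ht' : (0 : ℝ) ≤ (t : ℝ) ∧ (t : ℝ) ≤ 1 := ⟨Nat.cast_nonneg _, by exact_mod_cast ht⟩
    rw [h4] at h3
    rw [h3, h2]
    by_cases hl1 : l = i
    · subst hl1
      have hl2 : ¬ l = j := hij.ne
      simp only [if_true, hl2, if_false, true_or]
      push_cast
      constructor
      · nlinarith [hs'.1]
      · nlinarith [hs'.2]
    · by_cases hl2 : l = j
      · subst hl2
        simp only [if_true, hl1, if_false, or_true]
        push_cast
        constructor
        · nlinarith [ht'.1]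
        · nlinarith [ht'.2]
      · simp only [hl1, hl2, if_false, or_false]
        push_cast
        constructor
        · linarith
        · linarith
  have m00 : pt c r' N x ∈ Z := by simpa using hmem 0 0 (by norm_num) (by norm_num)
  have m10 : pt c r' N (x + ev i) ∈ Z := by simpa using hmem 1 0 (by norm_num) (by norm_num)
  have m01 : pt c r' N (x + ev j) ∈ Z := by simpa using hmem 0 1 (by norm_num) (by norm_num)
  have m11 : pt c r' N (x + ev i + ev j) ∈ Z := by
    simpa using hmem 1 1 (by norm_num) (by norm_num)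
  set p00 : ↥(Cube c r \ A) := ⟨pt c r' N x, hZX m00⟩
  set p10 : ↥(Cube c r \ A) := ⟨pt c r' N (x + ev i), hZX m10⟩
  set p01 : ↥(Cube c r \ A) := ⟨pt c r' N (x + ev j), hZX m01⟩
  set p11 : ↥(Cube c r \ A) := ⟨pt c r' N (x + ev i + ev j), hZX m11⟩
  have hseg : ∀ p q : Eu n, p ∈ Z → q ∈ Z → segment ℝ p q ⊆ Cube c r \ A :=
    fun p q hp hq => (hZc.segment_subset hp hq).trans hZX
  have s1 := hseg _ _ m00 m10
  have s2 := hseg _ _ m10 m11
  have s3 := hseg _ _ m00 m01
  have s4 := hseg _ _ m01 m11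
  have s5 := hseg _ _ m00 m11
  have t1 := T2_tri P hZc hZX (u := p00) (v := p10) (w := p11) m00 m10 m11 s1 s2 s5
  have t2 := T2_tri P hZc hZX (u := p00) (v := p01) (w := p11) m00 m01 m11 s3 s4 s5
  rw [T6_dd_pair _ hij]
  rw [T6_a_eq c r' P N j (x + ev i) p10 p11 s2 rfl rfl,
    T6_a_eq c r' P N j x p00 p01 s3 rfl rfl,
    T6_a_eq c r' P N i (x + ev j) p01 p11 s4 rfl
      (show pt c r' N (x + ev i + ev j) = pt c r' N (x + ev j + ev i) by
        rw [add_right_comm]),
    T6_a_eq c r' P N i x p00 p10 s1 rfl rfl]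
  rw [t1] at t2
  have t3 : P.a (segP p10 p11 s2) = P.a (segP p00 p01 s3) + P.a (segP p01 p11 s4)
      - P.a (segP p00 p10 s1) := by
    rw [← t2]
    abel
  rw [t3]
  abel

theorem T6 {n k : ℕ} (hkn : k + 3 ≤ n) {M : Type*} [AddCommGroup M] (c : Eu n)
    (r r' ρ : ℝ) (hr' : 0 < r') (hrr : r' < r) (hρ : 0 < ρ) (A : Set (Eu n))
    (hX : IsOpen (Cube c r \ A))
    (hd : ∀ C : Set (Eu n), C ⊆ A ∩ Cube c r → IsCompact C → CovDim k C)
    (P : PSys ↥(Cube c r \ A) M) :
    ∃ N0 : ℕ, ∀ N : ℕ, N0 ≤ N → 1 ≤ N ∧ ∃ g : (Fin n → ℤ) → M,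
      ∀ (x : Fin n → ℤ) (i : Fin n), (∀ l, 0 ≤ x l ∧ x l ≤ (N : ℤ)) → x i < (N : ℤ) →
      (∀ y ∈ Cube c r, (∀ l, |y l - pt c r' N x l| ≤ ρ) → y ∉ A) →
      ∀ (u v : ↥(Cube c r \ A)) (h : segment ℝ (u : Eu n) v ⊆ Cube c r \ A),
        (u : Eu n) = pt c r' N x → (v : Eu n) = pt c r' N (x + ev i) →
        P.a (segP u v h) = g (x + ev i) - g x := by
  classical
  set C : Set (Eu n) := {y : Eu n | ∀ i, |y i - c i| ≤ r'} ∩ (Cube c r \ A)ᶜ with hCdef
  have hCA : ∀ y, y ∈ C ↔ (∀ i, |y i - c i| ≤ r') ∧ y ∈ A := by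
    intro y
    constructor
    · rintro ⟨h1, h2⟩
      refine ⟨h1, ?_⟩
      by_contra hA
      exact h2 ⟨fun l => lt_of_le_of_lt (h1 l) hrr, hA⟩
    · rintro ⟨h1, h2⟩
      exact ⟨h1, fun h3 => h3.2 h2⟩
  have hC : IsCompact C := (T6_compact c r').inter_right hX.isClosed_compl
  have hCsub : C ⊆ A ∩ Cube c r := fun y hy =>
    ⟨((hCA y).1 hy).2, fun l => lt_of_le_of_lt (((hCA y).1 hy).1 l) hrr⟩
  obtain ⟨N0, hN0⟩ := Grid (k := k) (by omega : 1 ≤ n) c r' ρ hr' hρ C hC
    (fun y hy => ((hCA y).1 hy).1) (hd C hCsub hC)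
  refine ⟨N0, fun N hN => ?_⟩
  obtain ⟨m, μ, K, z, g1, g2, g3, g4, g5, g6⟩ := hN0 N hN
  have hN1 : 1 ≤ N := by omega
  refine ⟨hN1, ?_⟩
  obtain ⟨g, hg⟩ := LT1 (k := k) (N := N) (μ := μ) hkn K z (T6_a c r' P N)
    (T6_a_card c r' P N) (by
      intro T x hx hT hdd
      by_contra hno
      have hno' : ∀ y : Eu n, (∀ l, |y l - c l| ≤ r') → y ∈ A →
          ¬ ∀ l, |y l - pt c r' N x l| ≤ 2 * r' / N := by
        intro y hy hA hl
        exact hno (g1 x hx ⟨y, (hCA y).2 ⟨hy, hA⟩, hl⟩)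
      -- the cardinality of T
      have hcard : T.card = 2 := by
        have hex : ∃ i ∈ T, sg i T • (T6_a c r' P N (T.erase i) (x + ev i)
            - T6_a c r' P N (T.erase i) x) ≠ 0 := by
          by_contra hall
          push Not at hall
          exact hdd (Finset.sum_eq_zero hall)
        obtain ⟨i, hiT, hne⟩ := hex
        have h1 : T6_a c r' P N (T.erase i) (x + ev i) ≠ 0 ∨
            T6_a c r' P N (T.erase i) x ≠ 0 := by
          by_contra hb
          push Not at hb
          rw [hb.1, hb.2, sub_zero, smul_zero] at hne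
          exact hne rfl
        have h2 : (T.erase i).card = 1 := by
          rcases h1 with h1 | h1
          · exact T6_a_card c r' P N _ _ h1
          · exact T6_a_card c r' P N _ _ h1
        rw [Finset.card_erase_of_mem hiT] at h2
        have h3 : 0 < T.card := Finset.card_pos.2 ⟨i, hiT⟩
        omega
      obtain ⟨i, j, hij, rfl⟩ := Finset.card_eq_two.1 hcard
      rcases lt_or_gt_of_ne hij with hlt | hlt
      · exact hdd (T6_closed c r r' hr' hrr A P N hN1 x hx hlt
          (hT i (Finset.mem_insert_self _ _))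
          (hT j (Finset.mem_insert_of_mem (Finset.mem_singleton_self _))) hno')
      · rw [Finset.pair_comm] at hdd
        exact hdd (T6_closed c r r' hr' hrr A P N hN1 x hx hlt
          (hT j (Finset.mem_insert_of_mem (Finset.mem_singleton_self _)))
          (hT i (Finset.mem_insert_self _ _)) hno'))
    g2 g3 g4 g5
  refine ⟨g, fun x i hx hxi hfar u v h hu hv => ?_⟩
  rw [← T6_a_eq c r' P N i x u v h hu hv]
  refine hg x i hx hxi fun j hj => ?_
  by_contra hno
  push Not at hno
  obtain ⟨y, hy, hyρ⟩ := g6 j hj x hx hno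
  exact hfar y (hCsub hy).2 hyρ (hCsub hy).1

end LibBR40
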