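import Pool.Agent.LibBR40.T4
import Pool.Agent.LibBR40.T6

set_option autoImplicit false

/-! BR40 row T8 (STRONG).  Additive path functions vanish on all loops of the complement of `A` in the
cube.  You may use T2, T4, T6.

PLAN.  `X = Cube c r \ A` open.  The image of the loop is compact: there is `ρ > 0` such that every `y` with
`|y i - γ t i| ≤ 6ρ` for all `i` (some `t`) is in `X`, so `|γ t i - c i| < r - 6ρ`; `r' = r - ρ`.
T6 with `c, r, r', ρ` : `N0`.  Take `N ≥ N0` with `ε = 2r'/N ≤ ρ`, and the potential `g`.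
For `y` with `|y i - c i| < r'` let `fl y i = ⌊(y i - c i + r')/ε⌋`, `0 ≤ fl y i`, `fl y i < N`, `pt (fl y) i ≤ y i < pt (fl y) i + ε`.
(a) For lattice points `x, x'` in the box with `|x l - x' l| ≤ 1` for all `l`, both within `2ε` (each coordinate) of `γ t` :
`P.a (seg (pt x) (pt x')) = g x' - g x` : change the coordinates one by one, each step is T6 (or its reverse),
everything inside the convex cube `Z = {y | ∀ i, |y i - γ t i| ≤ 4ρ} ⊆ X`, glue with `T2_tri`.
(b) Define `h y = g (fl y) + P.a (seg (pt (fl y)) y)`.  For `s, t` with `dist (γ s) (γ t) < ε` :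
`P.a (seg (γ s) (γ t)) = h (γ t) - h (γ s)`.
(c) T4 with this `ε` and `h` gives `P.a γ = h y - h y = 0`. -/

namespace LibBR40

section helpers

variable {n : ℕ} {M : Type*} [AddCommGroup M] {X : Set (Eu n)}

open scoped Classical in
/-- the value on a segment, for points of the space -/
noncomputable def T8_aa (P : PSys ↥X M) (u v : Eu n) : M :=
  if h : u ∈ X ∧ v ∈ X ∧ segment ℝ u v ⊆ X then P.a (segP ⟨u, h.1⟩ ⟨v, h.2.1⟩ h.2.2) else 0

theorem T8_aa_eq (P : PSys ↥X M) (u v : X) (h : segment ℝ (u : Eu n) v ⊆ X) :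
    T8_aa P u v = P.a (segP u v h) := by
  unfold T8_aa
  rw [dif_pos ⟨u.2, v.2, h⟩]

theorem T8_tri (P : PSys ↥X M) {Z : Set (Eu n)} (hZ : Convex ℝ Z) (hZX : Z ⊆ X) {u v w : Eu n}
    (hu : u ∈ Z) (hv : v ∈ Z) (hw : w ∈ Z) : T8_aa P u w = T8_aa P u v + T8_aa P v w := by
  have huv : segment ℝ u v ⊆ X := (hZ.segment_subset hu hv).trans hZX
  have hvw : segment ℝ v w ⊆ X := (hZ.segment_subset hv hw).trans hZX
  have huw : segment ℝ u w ⊆ X := (hZ.segment_subset hu hw).trans hZX
  have h1 := T8_aa_eq P ⟨u, hZX hu⟩ ⟨v, hZX hv⟩ huv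
  have h2 := T8_aa_eq P ⟨v, hZX hv⟩ ⟨w, hZX hw⟩ hvw
  have h3 := T8_aa_eq P ⟨u, hZX hu⟩ ⟨w, hZX hw⟩ huw
  dsimp only at h1 h2 h3
  rw [h1, h2, h3]
  exact T2_tri P hZ hZX hu hv hw huv hvw huw

theorem T8_self (P : PSys ↥X M) {Z : Set (Eu n)} (hZ : Convex ℝ Z) (hZX : Z ⊆ X) {u : Eu n}
    (hu : u ∈ Z) : T8_aa P u u = 0 := by
  have h := T8_tri P hZ hZX hu hu hu
  exact left_eq_add.1 h

theorem T8_rev (P : PSys ↥X M) {Z : Set (Eu n)} (hZ : Convex ℝ Z) (hZX : Z ⊆ X) {u v : Eu n}
    (hu : u ∈ Z) (hv : v ∈ Z) : T8_aa P u v = - T8_aa P v u := by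
  have h := T8_tri P hZ hZX hu hv hu
  rw [T8_self P hZ hZX hu] at h
  exact eq_neg_of_add_eq_zero_left h.symm

/-- the closed cube around `w` -/
def T8_cub (w : Eu n) (R : ℝ) : Set (Eu n) := {z | ∀ i, |z i - w i| ≤ R}

theorem T8_convex (w : Eu n) (R : ℝ) : Convex ℝ (T8_cub w R) := by
  intro z hz z' hz' a b ha hb hab i
  have h1 : (a • z + b • z') i - w i = a * (z i - w i) + b * (z' i - w i) := by
    have h2 : (a • z + b • z') i = a * z i + b * z' i := rfl
    rw [h2]
    have h3 : w i = (a + b) * w i := by rw [hab, one_mul]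
    linear_combination (-1 : ℝ) * h3
  rw [h1]
  calc |a * (z i - w i) + b * (z' i - w i)| ≤ |a * (z i - w i)| + |b * (z' i - w i)| := abs_add_le _ _
    _ = a * |z i - w i| + b * |z' i - w i| := by rw [abs_mul, abs_mul, abs_of_nonneg ha, abs_of_nonneg hb]
    _ ≤ a * R + b * R := add_le_add (mul_le_mul_of_nonneg_left (hz i) ha)
        (mul_le_mul_of_nonneg_left (hz' i) hb)
    _ = R := by rw [← add_mul, hab, one_mul]

theorem T8_coord (z w : Eu n) (i : Fin n) : |z i - w i| ≤ dist z w := by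
  rw [dist_eq_norm]
  exact PiLp.norm_apply_le (z - w) i

theorem T8_dist (z w : Eu n) {R : ℝ} (hR : 0 ≤ R) (h : ∀ i, |z i - w i| ≤ R) :
    dist z w ≤ Real.sqrt n * R := by
  rw [EuclideanSpace.dist_eq]
  have h1 : ∑ i, dist (z i) (w i) ^ 2 ≤ (n : ℝ) * R ^ 2 := by
    calc ∑ i, dist (z i) (w i) ^ 2 ≤ ∑ _i : Fin n, R ^ 2 := by
          refine Finset.sum_le_sum fun i _ => ?_
          rw [Real.dist_eq]
          exact pow_le_pow_left₀ (abs_nonneg _) (h i) 2
      _ = (n : ℝ) * R ^ 2 := by simp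
  calc Real.sqrt (∑ i, dist (z i) (w i) ^ 2) ≤ Real.sqrt ((n : ℝ) * R ^ 2) := Real.sqrt_le_sqrt h1
    _ = Real.sqrt n * R := by rw [Real.sqrt_mul (Nat.cast_nonneg n), Real.sqrt_sq hR]

theorem T8_pt (c : Eu n) (r : ℝ) (N : ℕ) (x : Fin n → ℤ) (i : Fin n) :
    pt c r N x i = c i - r + (2 * r / N) * (x i : ℝ) := rfl

end helpers

theorem KL1 {n k : ℕ} (hkn : k + 3 ≤ n) {M : Type*} [AddCommGroup M] (c : Eu n) (r : ℝ)
    (A : Set (Eu n)) (hX : IsOpen (Cube c r \ A))
    (hd : ∀ C : Set (Eu n), C ⊆ A ∩ Cube c r → IsCompact C → CovDim k C)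
    (P : PSys ↥(Cube c r \ A) M) {y : ↥(Cube c r \ A)} (γ : Path y y) : P.a γ = 0 := by
  classical
  -- the constant ρ
  obtain ⟨ρ, hρ, hρX⟩ : ∃ ρ : ℝ, 0 < ρ ∧ ∀ t, T8_cub (γ t : Eu n) (6 * ρ) ⊆ Cube c r \ A := by
    have hK : IsCompact (Set.range fun t => (γ t : Eu n)) :=
      isCompact_range (continuous_subtype_val.comp γ.continuous)
    have hKX : (Set.range fun t => (γ t : Eu n)) ⊆ Cube c r \ A := by
      rintro _ ⟨t, rfl⟩
      exact (γ t).2
    obtain ⟨δ, hδ, hth⟩ := hK.exists_thickening_subset_open hX hKX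
    have hs : 0 ≤ Real.sqrt n := Real.sqrt_nonneg _
    have hden : 0 < 6 * (Real.sqrt n + 1) := by positivity
    refine ⟨δ / (6 * (Real.sqrt n + 1)) / 2, by positivity, fun t z hz => hth ?_⟩
    rw [Metric.mem_thickening_iff]
    refine ⟨_, ⟨t, rfl⟩, ?_⟩
    have hR : (0 : ℝ) ≤ 6 * (δ / (6 * (Real.sqrt n + 1)) / 2) := by positivity
    refine lt_of_le_of_lt (T8_dist _ _ hR hz) ?_
    have h1 : 6 * (δ / (6 * (Real.sqrt n + 1)) / 2) = δ / 2 / (Real.sqrt n + 1) := by
      field_simp
    rw [h1, ← mul_div_assoc, div_lt_iff₀ (by positivity)]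
    nlinarith
  have hn : 0 < n := by omega
  have hmem : ∀ t, ∀ z : Eu n, (∀ i, |z i - (γ t : Eu n) i| ≤ 6 * ρ) → z ∈ Cube c r \ A := fun t z hz => hρX t hz
  have hrad : ∀ t i, |(γ t : Eu n) i - c i| < r - 6 * ρ := by
    intro t i
    -- move the coordinate `i` away from `c i`
    set σ : ℝ := if 0 ≤ (γ t : Eu n) i - c i then 6 * ρ else -(6 * ρ) with hσ
    have hσa : |σ| = 6 * ρ := by
      rw [hσ]
      split_ifs
      · exact abs_of_pos (by positivity)
      · rw [abs_neg]
        exact abs_of_pos (by positivity)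
    have h1 := hmem t ((γ t : Eu n) + EuclideanSpace.single i σ) fun j => by
      have h2 : ((γ t : Eu n) + EuclideanSpace.single i σ) j - (γ t : Eu n) j =
          (EuclideanSpace.single i σ : Eu n) j := by
        rw [PiLp.add_apply, add_sub_cancel_left]
      rw [h2]
      by_cases hj : j = i
      · subst hj
        simp [hσa]
      · simp [hj]
        positivity
    have h3 := h1.1 i
    have h4 : ((γ t : Eu n) + EuclideanSpace.single i σ) i = (γ t : Eu n) i + σ := by
      rw [PiLp.add_apply]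
      simp
    rw [h4] at h3
    rw [hσ] at h3
    split_ifs at h3 with h5
    · rw [abs_of_nonneg h5]
      have := (abs_lt.1 h3).2
      linarith
    · push Not at h5
      rw [abs_of_neg h5]
      have := (abs_lt.1 h3).1
      linarith
  set r' : ℝ := r - ρ with hr'def
  have hr'0 : 5 * ρ < r' := by
    have h1 := hrad 0 ⟨0, hn⟩
    have h2 := abs_nonneg ((γ 0 : Eu n) ⟨0, hn⟩ - c ⟨0, hn⟩)
    rw [hr'def]
    linarith
  have hr' : 0 < r' := by linarith
  have hrr : r' < r := by rw [hr'def]; linarith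
  have hrad' : ∀ t i, |(γ t : Eu n) i - c i| < r' - 5 * ρ := by
    intro t i
    have := hrad t i
    rw [hr'def]
    linarith
  obtain ⟨N0, hN0⟩ := T6 hkn c r r' ρ hr' hrr hρ A hX hd P
  obtain ⟨N1, hN1⟩ := exists_nat_ge (2 * r' / ρ)
  set N : ℕ := max N0 N1 with hNdef
  obtain ⟨hN1', g, hg⟩ := hN0 N (le_max_left _ _)
  have hNpos : (0 : ℝ) < N := by exact_mod_cast hN1'
  set ε : ℝ := 2 * r' / N with hεdef
  have hε : 0 < ε := by positivity
  have hNε : (N : ℝ) * ε = 2 * r' := by
    rw [hεdef]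
    field_simp
  have hερ : ε ≤ ρ := by
    rw [hεdef, div_le_iff₀ hNpos]
    have h1 : (2 * r' / ρ) ≤ N := hN1.trans (by exact_mod_cast le_max_right N0 N1)
    rw [div_le_iff₀ hρ] at h1
    linarith
  have hpt : ∀ (x : Fin n → ℤ) i, pt c r' N x i = c i - r' + ε * (x i : ℝ) := fun x i => rfl
  -- the step
  have hstep : ∀ (t : unitInterval) (x : Fin n → ℤ) (i : Fin n), (∀ l, 0 ≤ x l ∧ x l ≤ (N : ℤ)) →
      x i < (N : ℤ) → (∀ l, |pt c r' N x l - (γ t : Eu n) l| ≤ 2 * ε) →
      (∀ l, |pt c r' N (x + ev i) l - (γ t : Eu n) l| ≤ 2 * ε) →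
      T8_aa P (pt c r' N x) (pt c r' N (x + ev i)) = g (x + ev i) - g x := by
    intro t x i hx hxi h1 h2
    have hZ := T8_convex (γ t : Eu n) (6 * ρ)
    have hu : pt c r' N x ∈ T8_cub (γ t : Eu n) (6 * ρ) := fun l => (h1 l).trans (by linarith)
    have hv : pt c r' N (x + ev i) ∈ T8_cub (γ t : Eu n) (6 * ρ) := fun l => (h2 l).trans (by linarith)
    have hseg : segment ℝ (pt c r' N x) (pt c r' N (x + ev i)) ⊆ Cube c r \ A :=
      (hZ.segment_subset hu hv).trans (hρX t)
    have h3 := T8_aa_eq P ⟨_, hρX t hu⟩ ⟨_, hρX t hv⟩ hseg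
    dsimp only at h3
    rw [h3]
    refine hg x i hx hxi ?_ ⟨_, hρX t hu⟩ ⟨_, hρX t hv⟩ hseg rfl rfl
    intro z _ hz
    have h4 : z ∈ Cube c r \ A := by
      refine hmem t z fun l => ?_
      calc |z l - (γ t : Eu n) l| ≤ |z l - pt c r' N x l| + |pt c r' N x l - (γ t : Eu n) l| :=
            abs_sub_le _ _ _
        _ ≤ ρ + 2 * ε := add_le_add (hz l) (h1 l)
        _ ≤ 6 * ρ := by linarith
    exact h4.2
  -- (a)
  have hpart : ∀ (t : unitInterval) (x x' : Fin n → ℤ), (∀ l, 0 ≤ x l ∧ x l ≤ (N : ℤ)) →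
      (∀ l, 0 ≤ x' l ∧ x' l ≤ (N : ℤ)) → (∀ l, |x' l - x l| ≤ 1) →
      (∀ l, |pt c r' N x l - (γ t : Eu n) l| ≤ 2 * ε) → (∀ l, |pt c r' N x' l - (γ t : Eu n) l| ≤ 2 * ε) →
      T8_aa P (pt c r' N x) (pt c r' N x') = g x' - g x := by
    intro t x x' hx hx' hd1 h1 h1'
    have hZ := T8_convex (γ t : Eu n) (6 * ρ)
    have hZX := hρX t
    -- the intermediate points
    obtain ⟨w, hw⟩ : ∃ w : Finset (Fin n) → Fin n → ℤ, ∀ S l, w S l = if l ∈ S then x' l else x l :=
      ⟨_, fun _ _ => rfl⟩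
    have hbox : ∀ S l, 0 ≤ w S l ∧ w S l ≤ (N : ℤ) := by
      intro S l
      rw [hw]
      split_ifs
      · exact hx' l
      · exact hx l
    have hnear : ∀ S l, |pt c r' N (w S) l - (γ t : Eu n) l| ≤ 2 * ε := by
      intro S l
      rw [hpt, hw]
      split_ifs
      · exact h1' l
      · exact h1 l
    have hZm : ∀ S, pt c r' N (w S) ∈ T8_cub (γ t : Eu n) (6 * ρ) :=
      fun S l => (hnear S l).trans (by linarith)
    have hw0 : w ∅ = x := by
      funext l
      rw [hw, if_neg (Finset.notMem_empty l)]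
    have hw1 : w Finset.univ = x' := by
      funext l
      rw [hw, if_pos (Finset.mem_univ l)]
    have hev : ∀ (i l : Fin n), l ≠ i → (ev i : Fin n → ℤ) l = 0 := fun i l hl => by
      unfold ev
      exact Pi.single_eq_of_ne hl 1
    have hev1 : ∀ i : Fin n, (ev i : Fin n → ℤ) i = 1 := fun i => by
      unfold ev
      exact Pi.single_eq_same i 1
    have hind : ∀ S, T8_aa P (pt c r' N x) (pt c r' N (w S)) = g (w S) - g x := by
      intro S
      induction S using Finset.induction_on with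
      | empty =>
        rw [hw0, sub_self]
        exact T8_self P hZ hZX (by have := hZm ∅; rwa [hw0] at this)
      | insert i S hi ih =>
        have hxZ : pt c r' N x ∈ T8_cub (γ t : Eu n) (6 * ρ) := by
          have := hZm ∅
          rwa [hw0] at this
        have hi1 : w (insert i S) i = x' i := by rw [hw, if_pos (Finset.mem_insert_self i S)]
        have hi2 : w S i = x i := by rw [hw, if_neg hi]
        have hother : ∀ l, l ≠ i → w (insert i S) l = w S l := by
          intro l hl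
          rw [hw, hw]
          by_cases h : l ∈ S
          · rw [if_pos h, if_pos (Finset.mem_insert_of_mem h)]
          · rw [if_neg h, if_neg (by rw [Finset.mem_insert]; push Not; exact ⟨hl, h⟩)]
        have hone : T8_aa P (pt c r' N (w S)) (pt c r' N (w (insert i S))) =
            g (w (insert i S)) - g (w S) := by
          have hd2 := abs_le.1 (hd1 i)
          rcases (show x' i = x i ∨ x' i = x i + 1 ∨ x i = x' i + 1 by omega) with h | h | h
          · have h2 : w (insert i S) = w S := by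
              funext l
              by_cases hl : l = i
              · rw [hl, hi1, hi2, h]
              · exact hother l hl
            rw [h2, sub_self]
            exact T8_self P hZ hZX (hZm S)
          · have h2 : w (insert i S) = w S + ev i := by
              funext l
              rw [Pi.add_apply]
              by_cases hl : l = i
              · rw [hl, hi1, hi2, h, hev1]
              · rw [hother l hl, hev i l hl, add_zero]
            rw [h2]
            refine hstep t (w S) i (hbox S) ?_ (hnear S) ?_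
            · rw [hi2]
              have := (hx' i).2
              omega
            · rw [← h2]
              exact hnear _
          · have h2 : w S = w (insert i S) + ev i := by
              funext l
              rw [Pi.add_apply]
              by_cases hl : l = i
              · rw [hl, hi1, hi2, h, hev1]
              · rw [hother l hl, hev i l hl, add_zero]
            rw [T8_rev P hZ hZX (hZm S) (hZm (insert i S)), neg_eq_iff_eq_neg, neg_sub]
            have h3 := hstep t (w (insert i S)) i (hbox _) (by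
              rw [hi1]
              have := (hx i).2
              omega) (hnear _) (by rw [← h2]; exact hnear _)
            rwa [← h2] at h3
        rw [T8_tri P hZ hZX hxZ (hZm S) (hZm (insert i S)), ih, hone]
        abel
    have := hind Finset.univ
    rwa [hw1] at this
  -- the lattice point of a point
  set fl : Eu n → Fin n → ℤ := fun z i => ⌊(z i - c i + r') / ε⌋ with hfl
  have hfl1 : ∀ (z : Eu n) i, pt c r' N (fl z) i ≤ z i ∧ z i < pt c r' N (fl z) i + ε := by
    intro z i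
    rw [hpt]
    have h1 := Int.floor_le ((z i - c i + r') / ε)
    have h2 := Int.lt_floor_add_one ((z i - c i + r') / ε)
    rw [le_div_iff₀ hε] at h1
    rw [div_lt_iff₀ hε] at h2
    have h3 : ((fl z i : ℤ) : ℝ) = (⌊(z i - c i + r') / ε⌋ : ℝ) := rfl
    rw [h3]
    constructor
    · linarith
    · linarith
  have hfl2 : ∀ t l, 0 ≤ fl (γ t : Eu n) l ∧ fl (γ t : Eu n) l ≤ (N : ℤ) := by
    intro t l
    have h1 := abs_lt.1 (hrad' t l)
    constructor
    · rw [hfl]
      refine Int.floor_nonneg.2 (div_nonneg ?_ hε.le)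
      linarith
    · have h2 : (⌊((γ t : Eu n) l - c l + r') / ε⌋ : ℤ) < (N : ℤ) + 1 := by
        rw [Int.floor_lt, div_lt_iff₀ hε]
        push_cast
        nlinarith
      have h3 : fl (γ t : Eu n) l = ⌊((γ t : Eu n) l - c l + r') / ε⌋ := rfl
      rw [h3]
      omega
  have hfl3 : ∀ t l, |pt c r' N (fl (γ t : Eu n)) l - (γ t : Eu n) l| ≤ ε := by
    intro t l
    have h1 := hfl1 (γ t : Eu n) l
    rw [abs_le]
    constructor
    · linarith
    · linarith
  refine (T4 P γ ε hε ?_ (fun z => g (fl (z : Eu n)) + T8_aa P (pt c r' N (fl (z : Eu n))) z) ?_).trans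
    (sub_self _)
  · intro t z hz
    refine hmem t z fun i => ?_
    have h1 := T8_coord z (γ t : Eu n) i
    have h2 : dist z (γ t : Eu n) < ε := Metric.mem_ball.1 hz
    linarith
  · intro s t H hst
    have hZ := T8_convex (γ s : Eu n) (6 * ρ)
    have hZX := hρX s
    have hts : ∀ l, |(γ t : Eu n) l - (γ s : Eu n) l| < ε := fun l =>
      lt_of_le_of_lt (T8_coord _ _ l) (by rw [dist_comm]; exact hst)
    have m1 : (γ s : Eu n) ∈ T8_cub (γ s : Eu n) (6 * ρ) := fun l => by
      rw [sub_self, abs_zero]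
      positivity
    have m2 : (γ t : Eu n) ∈ T8_cub (γ s : Eu n) (6 * ρ) := fun l => by
      have := hts l
      linarith
    have m3 : pt c r' N (fl (γ s : Eu n)) ∈ T8_cub (γ s : Eu n) (6 * ρ) := fun l => by
      have := hfl3 s l
      linarith
    have n4 : ∀ l, |pt c r' N (fl (γ t : Eu n)) l - (γ s : Eu n) l| ≤ 2 * ε := fun l => by
      calc |pt c r' N (fl (γ t : Eu n)) l - (γ s : Eu n) l| ≤
          |pt c r' N (fl (γ t : Eu n)) l - (γ t : Eu n) l| + |(γ t : Eu n) l - (γ s : Eu n) l| :=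
            abs_sub_le _ _ _
        _ ≤ ε + ε := add_le_add (hfl3 t l) (hts l).le
        _ = 2 * ε := by ring
    have m4 : pt c r' N (fl (γ t : Eu n)) ∈ T8_cub (γ s : Eu n) (6 * ρ) := fun l => by
      have := n4 l
      linarith
    have hfd : ∀ l, |fl (γ t : Eu n) l - fl (γ s : Eu n) l| ≤ 1 := by
      intro l
      have h1 := hfl1 (γ s : Eu n) l
      have h2 := hfl1 (γ t : Eu n) l
      rw [hpt] at h1 h2
      have h3 := abs_lt.1 (hts l)
      have h4 : ε * ((fl (γ t : Eu n) l : ℝ) - (fl (γ s : Eu n) l : ℝ)) < ε * 2 := by nlinarith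
      have h5 : ε * ((fl (γ s : Eu n) l : ℝ) - (fl (γ t : Eu n) l : ℝ)) < ε * 2 := by nlinarith
      have h6 := lt_of_mul_lt_mul_left h4 hε.le
      have h7 := lt_of_mul_lt_mul_left h5 hε.le
      have h8 : fl (γ t : Eu n) l - fl (γ s : Eu n) l < 2 := by exact_mod_cast h6
      have h9 : fl (γ s : Eu n) l - fl (γ t : Eu n) l < 2 := by exact_mod_cast h7
      rw [abs_le]
      omega
    have ha := hpart s (fl (γ s : Eu n)) (fl (γ t : Eu n)) (hfl2 s) (hfl2 t) hfd
      (fun l => (hfl3 s l).trans (by linarith)) n4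
    rw [← T8_aa_eq P (γ s) (γ t) H, T8_tri P hZ hZX m1 m3 m2, T8_tri P hZ hZX m3 m4 m2, ha,
      T8_rev P hZ hZX m1 m3]
    abel

end LibBR40
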