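import Pool.Agent.LibBR40.T1
import Pool.Agent.LibBR40.T7
import Pool.Agent.LibBR40.T8

set_option autoImplicit false

/-! BR40 row T9. -/

namespace LibBR40

theorem KLhom {n k : ℕ} (hkn : k + 3 ≤ n) (c : Eu n) (r : ℝ)
    (A : Set (Eu n)) (hX : IsOpen (Cube c r \ A))
    (hd : ∀ C : Set (Eu n), C ⊆ A ∩ Cube c r → IsCompact C → CovDim k C)
    (x0 : ↥(Cube c r \ A)) {Q : Type*} [CommGroup Q]
    (φ : FundamentalGroup ↥(Cube c r \ A) x0 →* Q) : φ = 1 := by
  have hconn : IsConnected (Cube c r \ A) := ⟨⟨x0.1, x0.2⟩, KL0 hkn c r A hX hd⟩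
  have hpath : IsPathConnected (Cube c r \ A) := (hX.isConnected_iff_isPathConnected).1 hconn
  haveI : PathConnectedSpace ↥(Cube c r \ A) := isPathConnected_iff_pathConnectedSpace.1 hpath
  obtain ⟨P, hP⟩ := T1 x0 φ
  ext g
  obtain ⟨γ, rfl⟩ := Path.Homotopic.Quotient.mk_surjective g
  have h1 := hP γ
  rw [KL1 hkn c r A hX hd P γ] at h1
  exact (ofMul_eq_zero.1 h1.symm)

end LibBR40
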