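import Pool.Agent.LibBR40.D4
import Pool.Agent.LibBR40.N1
import Pool.Agent.LibBR40.N2
import Pool.Agent.LibBR40.N3
import Pool.Agent.LibBR40.N4
import Pool.Agent.LibBR40.M1
import Pool.Agent.LibBR40.T9

set_option autoImplicit false

open scoped Topology

namespace LibBR40

variable {n : ℕ}

theorem isOpen_Cube (c : Eu n) (r : ℝ) : IsOpen (Cube c r) := by
  have : Cube c r = ⋂ i, {y : Eu n | |y i - c i| < r} := by
    ext y; simp [Cube]
  rw [this]
  refine isOpen_iInter_of_finite fun i => ?_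
  have hc : Continuous fun y : Eu n => |y i - c i| := by fun_prop
  exact isOpen_lt hc continuous_const

theorem mem_Cube_self (c : Eu n) {r : ℝ} (hr : 0 < r) : c ∈ Cube c r := by
  intro i; simpa using hr

theorem Cube_mono (c : Eu n) {r r' : ℝ} (h : r ≤ r') : Cube c r ⊆ Cube c r' :=
  fun _ hy i => (hy i).trans_le h

theorem exists_Cube {Q : Set (Eu n)} (hQ : IsOpen Q) {x : Eu n} (hx : x ∈ Q) :
    ∃ s > (0 : ℝ), Cube x s ⊆ Q := by
  obtain ⟨ε, hε, hb⟩ := Metric.isOpen_iff.1 hQ x hx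
  refine ⟨ε / (n + 1), by positivity, fun y hy => hb ?_⟩
  rw [Metric.mem_ball, EuclideanSpace.dist_eq]
  have h1 : ∀ i, dist (y i) (x i) ^ 2 ≤ (ε / (n + 1)) ^ 2 := by
    intro i
    have := hy i
    rw [Real.dist_eq]
    exact pow_le_pow_left₀ (abs_nonneg _) this.le 2
  have h2 : ∑ i : Fin n, dist (y i) (x i) ^ 2 ≤ n * (ε / (n + 1)) ^ 2 := by
    calc ∑ i : Fin n, dist (y i) (x i) ^ 2 ≤ ∑ _i : Fin n, (ε / (n + 1)) ^ 2 :=
          Finset.sum_le_sum fun i _ => h1 i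
      _ = n * (ε / (n + 1)) ^ 2 := by simp
  have h3 : (n : ℝ) * (ε / (n + 1)) ^ 2 < ε ^ 2 := by
    have hn : (0 : ℝ) < (n : ℝ) + 1 := by positivity
    rw [div_pow, mul_div_assoc', div_lt_iff₀ (by positivity)]
    have : (n : ℝ) < ((n : ℝ) + 1) ^ 2 := by nlinarith [(Nat.cast_nonneg n : (0 : ℝ) ≤ n)]
    nlinarith [sq_pos_of_pos hε]
  calc √(∑ i : Fin n, dist (y i) (x i) ^ 2) < √(ε ^ 2) :=
        Real.sqrt_lt_sqrt (Finset.sum_nonneg fun i _ => by positivity) (h2.trans_lt h3)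
    _ = ε := Real.sqrt_sq hε.le

theorem six_of_not {α : Type*} (s : Set α) (h : ¬ (s.Finite ∧ s.ncard ≤ 5)) :
    ∃ T : Finset α, T.card = 6 ∧ (T : Set α) ⊆ s := by
  by_cases hs : s.Finite
  · have h6 : 6 ≤ s.ncard := by
      by_contra h'
      exact h ⟨hs, by omega⟩
    rw [Set.ncard_eq_toFinset_card s hs] at h6
    obtain ⟨T, hT, hc⟩ := Finset.exists_subset_card_eq h6
    exact ⟨T, hc, fun a ha => hs.mem_toFinset.1 (hT ha)⟩
  · obtain ⟨T, hT, hc⟩ := Set.Infinite.exists_subset_card_eq hs 6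
    exact ⟨T, hc, hT⟩

/-- The main theorem: the local index is at least six at every branch point. -/
theorem main (hn : 3 ≤ n) (D : Set (Eu n)) (f : Eu n → Eu n) (hD : IsOpen D)
    (hf : ContinuousOn f D)
    (hopen : ∀ U : Set (Eu n), IsOpen U → U ⊆ D → IsOpen (f '' U))
    (hdisc : ∀ x ∈ D, ∃ ε > (0 : ℝ), ∀ y ∈ D, dist y x < ε → f y = f x → y = x)
    (B : Set (Eu n))
    (hB : B = {x | x ∈ D ∧ ∀ U : Set (Eu n), IsOpen U → x ∈ U → U ⊆ D → ¬ Set.InjOn f U})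
    (hdim : ∀ (m : ℕ) (U : Fin m → Set (Eu n)), (∀ i, IsOpen (U i)) → B ⊆ ⋃ i, U i →
      ∃ V : Fin m → Set (Eu n), (∀ i, IsOpen (V i)) ∧ (∀ i, V i ⊆ U i) ∧ B ⊆ ⋃ i, V i ∧
        ∀ x ∈ B, Set.ncard {i : Fin m | x ∈ V i} ≤ n - 2)
    (x : Eu n) (hx : x ∈ B) (W : Set (Eu n)) (hW : IsOpen W) (hxW : x ∈ W) :
    ∃ T : Finset (Eu n), T.card = 6 ∧ (T : Set (Eu n)) ⊆ W ∩ D ∧
      ∀ t ∈ T, ∀ t' ∈ T, f t = f t' := by
  by_contra hcon
  have hxD : x ∈ D := by rw [hB] at hx; exact hx.1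
  have hfib : ∀ y, ((W ∩ D) ∩ f ⁻¹' {y}).Finite ∧ ((W ∩ D) ∩ f ⁻¹' {y}).ncard ≤ 5 := by
    intro y
    by_contra h
    obtain ⟨T, hc, hT⟩ := six_of_not _ h
    refine hcon ⟨T, hc, fun t ht => (hT ht).1, fun t ht t' ht' => ?_⟩
    have h1 : f t = y := (hT ht).2
    have h2 : f t' = y := (hT ht').2
    rw [h1, h2]
  obtain ⟨r0, hr0, hN1⟩ := N1 D f hD hf hopen hdisc x (W ∩ D) (hW.inter hD) ⟨hxW, hxD⟩
    Set.inter_subset_right
  obtain ⟨U1, hOD1, _, hx1, hU1W, hinj⟩ := hN1 r0 hr0 le_rfl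
  obtain ⟨s, hs, hsU⟩ := exists_Cube hOD1.oU hx1
  obtain ⟨hN2a, hN2b⟩ := N2 hr0 hOD1 hx1 hinj
  obtain ⟨r2, hr2, hr20, hU2Q⟩ := hN2b (Cube x s) (isOpen_Cube x s) (mem_Cube_self x hs)
  obtain ⟨hOD2, hcon2⟩ := hN2a r2 hr2 hr20
  set U2 := U1 ∩ f ⁻¹' (Cube (f x) r2) with hU2
  set V1 := Cube (f x) r0 with hV1
  set V2 := Cube (f x) r2 with hV2
  have hV21 : V2 ⊆ V1 := Cube_mono (f x) hr20
  have hm : ∀ y ∈ U1, f y ∈ V1 := fun y hy => by
    rw [← hOD1.img]; exact ⟨y, hy, rfl⟩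
  have hBr : Br f U1 ⊆ B := by
    intro y hy
    rw [hB]
    refine ⟨(hU1W hy.1).2, fun O hO hyO hOD hi => ?_⟩
    exact hy.2 (O ∩ U1) (hO.inter hOD1.oU) ⟨hyO, hy.1⟩ Set.inter_subset_right
      (hi.mono Set.inter_subset_left)
  have hBrO : IsOpen (U1 \ Br f U1) := by
    rw [isOpen_iff_mem_nhds]
    rintro y ⟨hy1, hy2⟩
    have : ∃ O : Set (Eu n), IsOpen O ∧ y ∈ O ∧ O ⊆ U1 ∧ Set.InjOn f O := by
      by_contra hno
      exact hy2 ⟨hy1, fun O hO hyO hOU hi => hno ⟨O, hO, hyO, hOU, hi⟩⟩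
    obtain ⟨O, hO, hyO, hOU, hi⟩ := this
    refine Filter.mem_of_superset (hO.mem_nhds hyO) fun z hz => ⟨hOU hz, fun hzB => ?_⟩
    exact hzB.2 O hO hz hOU hi
  set A := f '' Br f U1 with hA
  obtain ⟨hVA, hUA⟩ := N3_open hOD1
  rw [← hA] at hVA hUA
  have hdense := N3_dense hOD1
  rw [← hA] at hdense
  -- dimension of compact subsets of `A` and of its preimage
  have hdA : ∀ C : Set (Eu n), C ⊆ A → IsCompact C → CovDim (n - 3) C := by
    intro C hCA hC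
    have hCV : C ⊆ V1 := by
      intro c hc
      obtain ⟨y, hy, rfl⟩ := hCA hc
      exact hm y hy.1
    have hK := hOD1.prp C hCV hC
    have hK2 : IsCompact ((U1 ∩ f ⁻¹' C) \ (U1 \ Br f U1)) := hK.diff hBrO
    have hsub : (U1 ∩ f ⁻¹' C) \ (U1 \ Br f U1) ⊆ B := by
      rintro y ⟨⟨hy1, _⟩, hy2⟩
      by_contra hyB
      exact hy2 ⟨hy1, fun h => hyB (hBr h)⟩
    have h1 := D1 hn B hdim _ hsub hK2
    have h2 := D4 hOD1 _ (fun y hy => hy.1.1) hK2 h1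
    have h3 : f '' ((U1 ∩ f ⁻¹' C) \ (U1 \ Br f U1)) = C := by
      ext c
      constructor
      · rintro ⟨y, hy, rfl⟩; exact hy.1.2
      · intro hc
        obtain ⟨y, hy, hyc⟩ := hCA hc
        refine ⟨y, ⟨⟨hy.1, ?_⟩, fun h => h.2 hy⟩, hyc⟩
        change f y ∈ C
        rw [hyc]; exact hc
    rwa [h3] at h2
  have hdF : ∀ C : Set (Eu n), C ⊆ f ⁻¹' A → C ⊆ U1 → IsCompact C → CovDim (n - 3) C := by
    intro C hCA hCU hC
    have hfC : ContinuousOn f C := hOD1.cont.mono hCU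
    refine D5 f C hC hfC (fun y => ?_) (hdA _ ?_ (hC.image_of_continuousOn hfC))
    · by_cases hy : y ∈ V1
      · exact (hOD1.fin y hy).subset (Set.inter_subset_inter_left _ hCU)
      · have : C ∩ f ⁻¹' {y} = ∅ := by
          ext z
          simp only [Set.mem_inter_iff, Set.mem_preimage, Set.mem_singleton_iff,
            Set.mem_empty_iff_false, iff_false, not_and]
          intro hz hzy
          exact hy (hzy ▸ hm z (hCU hz))
        rw [this]; exact Set.finite_empty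
    · rintro _ ⟨y, hy, rfl⟩
      exact hCA hy
  have hkn : (n - 3) + 3 ≤ n := by omega
  have hdenseU : ∀ O : Set (Eu n), IsOpen O → O.Nonempty → O ⊆ U1 → (O \ f ⁻¹' A).Nonempty := by
    intro O hO hne hOU
    obtain ⟨y, ⟨z, hz, rfl⟩, hyA⟩ := hdense (f '' O) (hOD1.opn O hO hOU) (hne.image f)
      (by rintro _ ⟨z, hz, rfl⟩; exact hm z (hOU hz))
    exact ⟨z, hz, hyA⟩
  have hcube : ∀ (y : Eu n) (t : ℝ), Cube y t ⊆ U1 → IsOpen (Cube y t \ f ⁻¹' A) := by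
    intro y t ht
    have : Cube y t \ f ⁻¹' A = Cube y t ∩ (U1 \ f ⁻¹' A) := by
      ext z
      constructor
      · rintro ⟨h1, h2⟩; exact ⟨h1, ht h1, h2⟩
      · rintro ⟨h1, _, h2⟩; exact ⟨h1, h2⟩
    rw [this]
    exact (isOpen_Cube y t).inter hUA
  have hU2c : IsConnected (U2 \ f ⁻¹' A) := by
    refine N4 U2 (f ⁻¹' A) hOD2.oU hcon2
      (fun O hO hne hOU => hdenseU O hO hne (hOU.trans Set.inter_subset_left)) ?_
    intro y hy
    obtain ⟨t, ht, htU⟩ := exists_Cube hOD2.oU hy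
    have htU1 : Cube y t ⊆ U1 := htU.trans Set.inter_subset_left
    refine ⟨Cube y t, isOpen_Cube y t, mem_Cube_self y ht, htU, ?_⟩
    exact KL0 hkn y t (f ⁻¹' A) (hcube y t htU1)
      (fun C hC hCc => hdF C (fun z hz => (hC hz).1) (fun z hz => htU1 (hC hz).2) hCc)
  have hU2o : IsOpen (U2 \ f ⁻¹' A) := by
    have : U2 \ f ⁻¹' A = U2 ∩ (U1 \ f ⁻¹' A) := by
      ext z
      constructor
      · rintro ⟨h1, h2⟩; exact ⟨h1, h1.1, h2⟩
      · rintro ⟨h1, _, h2⟩; exact ⟨h1, h2⟩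
    rw [this]
    exact hOD2.oU.inter hUA
  have hU2p : IsPathConnected (U2 \ f ⁻¹' A) :=
    (hU2o.isConnected_iff_isPathConnected).1 hU2c
  have hV2o : IsOpen (V2 \ A) := by
    have : V2 \ A = V2 ∩ (V1 \ A) := by
      ext z
      constructor
      · rintro ⟨h1, h2⟩; exact ⟨h1, hV21 h1, h2⟩
      · rintro ⟨h1, _, h2⟩; exact ⟨h1, h2⟩
    rw [this]
    exact (isOpen_Cube _ _).inter hVA
  -- one point in each generic fibre
  have hone : ∀ v ∈ V2, v ∉ A → ∀ y ∈ U2, ∀ y' ∈ U2, f y = v → f y' = v → y = y' := by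
    intro v hv hvA y hy y' hy' hfy hfy'
    have hcov := N3_cov hOD1 hm
    rw [← hA] at hcov
    let i : C(↥(V2 \ A), ↥(V1 \ A)) :=
      ⟨fun w => ⟨w.1, hV21 w.2.1, w.2.2⟩, by fun_prop⟩
    let j : C(↥(Cube x s \ f ⁻¹' A), ↥(U1 \ f ⁻¹' A)) :=
      ⟨fun w => ⟨w.1, hsU w.2.1, w.2.2⟩, by fun_prop⟩
    let v2 : ↥(V2 \ A) := ⟨v, hv, hvA⟩
    have hyA : y ∉ f ⁻¹' A := by
      intro h; exact hvA (hfy ▸ h)
    have hyA' : y' ∉ f ⁻¹' A := by
      intro h; exact hvA (hfy' ▸ h)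
    let z0 : ↥(Cube x s \ f ⁻¹' A) := ⟨y, hU2Q hy, hyA⟩
    have hz : resMap f U1 V1 A hm (j z0) = i v2 := by
      apply Subtype.ext
      exact hfy
    have hpre : ∀ e : ↥(U1 \ f ⁻¹' A), resMap f U1 V1 A hm e = i v2 → f e = v := by
      intro e he
      exact congrArg Subtype.val he
    have himg : Subtype.val '' (resMap f U1 V1 A hm ⁻¹' {i v2}) ⊆ U1 ∩ f ⁻¹' {v} := by
      rintro _ ⟨e, he, rfl⟩
      exact ⟨e.2.1, hpre e he⟩
    have hfin : (resMap f U1 V1 A hm ⁻¹' {i v2}).Finite := by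
      refine Set.Finite.of_finite_image (f := Subtype.val) ?_ Subtype.val_injective.injOn
      exact (hOD1.fin v (hV21 hv)).subset himg
    have hcard : (resMap f U1 V1 A hm ⁻¹' {i v2}).ncard ≤ 5 := by
      rw [← Set.ncard_image_of_injective _ Subtype.val_injective]
      refine le_trans (Set.ncard_le_ncard ?_ (hfib v).1) (hfib v).2
      exact himg.trans (Set.inter_subset_inter_left _ hU1W)
    have hres := M1 (resMap f U1 V1 A hm) hcov i v2 j z0 hz hfin hcard ?_ ?_ ?_ ?_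
      (⟨y', hy'.1, hyA'⟩ : ↥(U1 \ f ⁻¹' A)) (by apply Subtype.ext; exact hfy')
    · exact (congrArg Subtype.val hres).symm
    · -- paths
      intro e e' he he'
      have hfe := hpre e he
      have hfe' := hpre e' he'
      have heU : (e : Eu n) ∈ U2 \ f ⁻¹' A :=
        ⟨⟨e.2.1, by change f e ∈ V2; rw [hfe]; exact hv⟩, e.2.2⟩
      have heU' : (e' : Eu n) ∈ U2 \ f ⁻¹' A :=
        ⟨⟨e'.2.1, by change f e' ∈ V2; rw [hfe']; exact hv⟩, e'.2.2⟩
      obtain ⟨γ, hγ⟩ := hU2p.joinedIn _ heU _ heU'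
      refine ⟨⟨⟨fun t => ⟨f (γ t), (hγ t).1.2, (hγ t).2⟩, ?_⟩, ?_, ?_⟩,
        ⟨⟨fun t => ⟨γ t, (hγ t).1.1, (hγ t).2⟩, ?_⟩, ?_, ?_⟩, fun t => rfl⟩
      · refine Continuous.subtype_mk ?_ _
        exact hOD1.cont.comp_continuous γ.continuous (fun t => (hγ t).1.1)
      · apply Subtype.ext
        simp [hfe, v2]
      · apply Subtype.ext
        simp [hfe', v2]
      · exact Continuous.subtype_mk γ.continuous _
      · apply Subtype.ext
        simp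
      · apply Subtype.ext
        simp
    · -- lifts
      intro γ Γ hΓ
      have hval : ∀ t, f (Γ t : Eu n) = (γ t : Eu n) := fun t => congrArg Subtype.val (hΓ t)
      have hmem : ∀ t, (Γ t : Eu n) ∈ Cube x s := by
        intro t
        apply hU2Q
        refine ⟨(Γ t).2.1, ?_⟩
        change f (Γ t : Eu n) ∈ V2
        rw [hval t]
        exact (γ t).2.1
      refine ⟨⟨⟨fun t => ⟨Γ t, hmem t, (Γ t).2.2⟩, ?_⟩, ?_, ?_⟩, fun t => rfl⟩
      · exact Continuous.subtype_mk (continuous_subtype_val.comp Γ.continuous) _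
      · apply Subtype.ext
        simp [z0, j]
      · apply Subtype.ext
        simp [z0, j]
    · intro Q _ φ
      exact KLhom hkn (f x) r2 A hV2o (fun C hC hCc => hdA C (fun z hz => (hC hz).1) hCc) v2 φ
    · intro Q _ φ
      exact KLhom hkn x s (f ⁻¹' A) (hcube x s hsU)
        (fun C hC hCc => hdF C (fun z hz => (hC hz).1) (fun z hz => hsU (hC hz).2) hCc) z0 φ
  have hinjU2 : Set.InjOn f U2 := by
    refine N6 hOD2 (A := A) (fun O hO hne hOV => hdense O hO hne (hOV.trans hV21)) ?_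
    intro v hv hvA y hy y' hy' h1 h2
    exact hone v hv hvA y hy y' hy' h1 h2
  rw [hB] at hx
  refine hx.2 U2 hOD2.oU ⟨hx1, ?_⟩ (fun y hy => (hU1W hy.1).2) hinjU2
  exact mem_Cube_self (f x) hr2

end LibBR40
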