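import Pool.Agent.LibBR40.Defs

set_option autoImplicit false

/-! BR40 row T1. -/

namespace LibBR40

open CategoryTheory in
theorem T1 {Y : Type*} [TopologicalSpace Y] [PathConnectedSpace Y] {Q : Type*} [CommGroup Q]
    (y0 : Y) (φ : FundamentalGroup Y y0 →* Q) :
    ∃ P : PSys Y (Additive Q), ∀ γ : Path y0 y0,
      P.a γ = Additive.ofMul (φ (FundamentalGroup.fromPath (Path.Homotopic.Quotient.mk γ))) := by
  classical
  let R : ∀ y : Y, (FundamentalGroupoid.mk y0 ⟶ FundamentalGroupoid.mk y) := fun y =>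
    (Path.Homotopic.Quotient.mk (PathConnectedSpace.somePath y0 y) :
      Path.Homotopic.Quotient y0 y)
  let L : ∀ {x y : Y}, (FundamentalGroupoid.mk x ⟶ FundamentalGroupoid.mk y) →
      FundamentalGroup Y y0 := fun {x y} p => R x ≫ p ≫ Groupoid.inv (R y)
  have hL : ∀ {x y z : Y} (p : FundamentalGroupoid.mk x ⟶ FundamentalGroupoid.mk y)
      (q : FundamentalGroupoid.mk y ⟶ FundamentalGroupoid.mk z), L (p ≫ q) = L q * L p := by
    intro x y z p q
    simp only [L, End.mul_def, Category.assoc]
    rw [← Category.assoc (Groupoid.inv (R y)) (R y), Groupoid.inv_comp, Category.id_comp]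
  let q : ∀ {x y : Y}, Path x y → (FundamentalGroupoid.mk x ⟶ FundamentalGroupoid.mk y) :=
    fun {x y} p => (Path.Homotopic.Quotient.mk p : Path.Homotopic.Quotient x y)
  have hq : ∀ {x y z : Y} (p : Path x y) (p' : Path y z), q (p.trans p') = q p ≫ q p' :=
    fun p p' => rfl
  refine ⟨⟨fun {x y} p => Additive.ofMul (φ (L (q p))), ?_, ?_⟩, ?_⟩
  · intro x y z p p'
    rw [hq, hL, map_mul, mul_comm, ofMul_mul]
  · intro x y p p' h
    have : q p = q p' := Path.Homotopic.Quotient.eq.2 h
    rw [this]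
  · intro γ
    let r0 : FundamentalGroup Y y0 := R y0
    let g0 : FundamentalGroup Y y0 := FundamentalGroup.fromPath (Path.Homotopic.Quotient.mk γ)
    have h : L (q γ) = r0⁻¹ * (g0 * r0) := by
      simp only [L, End.mul_def, Category.assoc]
      rfl
    have h2 : φ (L (q γ)) = φ g0 := by
      rw [h, map_mul, map_mul, map_inv, mul_comm (φ g0), inv_mul_cancel_left]
    exact congrArg Additive.ofMul h2

end LibBR40
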