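import Pool.Agent.LibBR40.Defs

set_option autoImplicit false

/-! BR40 row T3 (MEDIUM).  A fine closed cover whose thickening has the same order.  Only Mathlib.

PLAN.  Cover the compact `C` by finitely many open balls of radius `δ/2` (`IsCompact.elim_finite_subcover`, re-index by
`Fin m`), `hd` gives compact `V j ⊆ ball`, `V j ⊆ C`, order `≤ k + 1`.  For `τ` : for every finset `S` of `Fin m` with
`S.card = k + 2` the intersection of the `V j`, `j ∈ S`, is empty; claim: there is `τ_S > 0` such that no `x` is within `τ_S`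
of all `V j`, `j ∈ S`.  (Otherwise sequences `x_t`, `y_{j,t} ∈ V j`, `dist ≤ 1/(t+1)`; subsequence of `y_{j0,t}` converges to
`y ∈ V j0`, so `x_t → y` and all `y_{j,t} → y ∈ V j`; or: the continuous function `x ↦ ∑ j ∈ S, infDist x (V j)` is positive on
the compact `cthickening 1 C`, so `≥ η`.)  `τ` = minimum over the finitely many `S` (and 1).  If more than `k + 1`
indices have a point of `V j` within `τ` of `x`, take `k + 2` of them (`Finset.exists_subset_card_eq`). -/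

namespace LibBR40

open Filter Topology in
private theorem T3_one {n k m : ℕ} (V : Fin m → Set (Eu n)) (hV : ∀ i, IsCompact (V i))
    (hord : ∀ x, {i | x ∈ V i}.ncard ≤ k + 1) (S : Finset (Fin m)) (hS : S.card = k + 2) :
    ∃ τ : ℝ, 0 < τ ∧ ∀ x : Eu n, ¬ ∀ j ∈ S, ∃ y ∈ V j, dist x y ≤ τ := by
  by_cases hne : ∀ j ∈ S, (V j).Nonempty
  · obtain ⟨j0, hj0⟩ : S.Nonempty := by
      rw [← Finset.card_pos, hS]
      omega
    have hcont : Continuous (fun y : Eu n => ∑ j ∈ S, Metric.infDist y (V j)) :=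
      continuous_finsetSum _ fun j _ => Metric.continuous_infDist_pt (V j)
    obtain ⟨y0, hy0, hmin⟩ := (hV j0).exists_isMinOn (hne j0 hj0) hcont.continuousOn
    have hpos : 0 < ∑ j ∈ S, Metric.infDist y0 (V j) := by
      rcases (Finset.sum_nonneg fun j (_ : j ∈ S) =>
        Metric.infDist_nonneg (x := y0) (s := V j)).lt_or_eq with h | h
      · exact h
      · exfalso
        have h0 := (Finset.sum_eq_zero_iff_of_nonneg fun j (_ : j ∈ S) =>
          Metric.infDist_nonneg (x := y0) (s := V j)).1 h.symm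
        have hsub : (S : Set (Fin m)) ⊆ {i | y0 ∈ V i} := by
          intro j hj
          have hj' : j ∈ S := hj
          exact ((hV j).isClosed.mem_iff_infDist_zero (hne j hj')).2 (h0 j hj')
        have h1 := Set.ncard_le_ncard hsub (Set.toFinite _)
        rw [Set.ncard_coe_finset, hS] at h1
        have h2 := hord y0
        omega
    obtain ⟨η, hη⟩ : ∃ η : ℝ, η = ∑ j ∈ S, Metric.infDist y0 (V j) := ⟨_, rfl⟩
    rw [← hη] at hpos
    have hk : (0 : ℝ) < 4 * ((k : ℝ) + 2) := by positivity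
    refine ⟨η / (4 * ((k : ℝ) + 2)), div_pos hpos hk, fun x hx => ?_⟩
    obtain ⟨τ, hτ⟩ : ∃ τ : ℝ, τ = η / (4 * ((k : ℝ) + 2)) := ⟨_, rfl⟩
    rw [← hτ] at hx
    obtain ⟨z, hz, hxz⟩ := hx j0 hj0
    have h3 : η ≤ ∑ j ∈ S, Metric.infDist z (V j) := by
      rw [hη]
      exact hmin hz
    have h4 : ∑ j ∈ S, Metric.infDist z (V j) ≤ ∑ j ∈ S, 2 * τ := by
      refine Finset.sum_le_sum fun j hj => ?_
      obtain ⟨w, hw, hxw⟩ := hx j hj
      calc Metric.infDist z (V j) ≤ dist z w := Metric.infDist_le_dist_of_mem hw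
        _ ≤ dist x z + dist x w := dist_triangle_left _ _ _
        _ ≤ 2 * τ := by linarith
    rw [Finset.sum_const, hS, nsmul_eq_mul] at h4
    push_cast at h4
    have h5 : ((k : ℝ) + 2) * (2 * τ) = η / 2 := by
      rw [hτ]
      field_simp
      ring
    linarith
  · push Not at hne
    obtain ⟨j, hj, hVj⟩ := hne
    refine ⟨1, one_pos, fun x hx => ?_⟩
    obtain ⟨y, hy, -⟩ := hx j hj
    rw [hVj] at hy
    exact hy

theorem T3 {n k : ℕ} (C : Set (Eu n)) (hC : IsCompact C) (hd : CovDim k C) (δ : ℝ)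
    (hδ : 0 < δ) :
    ∃ (m : ℕ) (V : Fin m → Set (Eu n)) (τ : ℝ), 0 < τ ∧ (∀ j, V j ⊆ C) ∧ C ⊆ ⋃ j, V j ∧
      (∀ j, ∀ y ∈ V j, ∀ y' ∈ V j, dist y y' ≤ δ) ∧
      ∀ x, {j | ∃ y ∈ V j, dist x y ≤ τ}.ncard ≤ k + 1 := by
  classical
  obtain ⟨t, ht, htf, hcov⟩ := hC.finite_cover_balls (half_pos hδ)
  obtain ⟨m, e, he⟩ : ∃ (m : ℕ) (e : Fin m → Eu n), Set.range e = t := by
    refine ⟨htf.toFinset.card, fun i => (htf.toFinset.equivFin.symm i : Eu n), ?_⟩
    ext x
    constructor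
    · rintro ⟨i, rfl⟩
      exact htf.mem_toFinset.1 (htf.toFinset.equivFin.symm i).2
    · intro hx
      exact ⟨htf.toFinset.equivFin ⟨x, htf.mem_toFinset.2 hx⟩, by simp⟩
  have hcov' : C ⊆ ⋃ i, Metric.ball (e i) (δ / 2) := by
    intro x hx
    have h1 := hcov hx
    rw [Set.mem_iUnion₂] at h1
    obtain ⟨c, hc, hxc⟩ := h1
    rw [← he] at hc
    obtain ⟨i, rfl⟩ := hc
    exact Set.mem_iUnion.2 ⟨i, hxc⟩
  obtain ⟨V, hVc, hVU, hVC, hCV, hord⟩ := hd m (fun i => Metric.ball (e i) (δ / 2))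
    (fun i => Metric.isOpen_ball) hcov'
  have hall : ∀ S : Finset (Fin m), ∃ τ : ℝ, 0 < τ ∧ (S.card = k + 2 →
      ∀ x : Eu n, ¬ ∀ j ∈ S, ∃ y ∈ V j, dist x y ≤ τ) := by
    intro S
    by_cases hS : S.card = k + 2
    · obtain ⟨τ, hτ, h⟩ := T3_one V hVc hord S hS
      exact ⟨τ, hτ, fun _ => h⟩
    · exact ⟨1, one_pos, fun h => absurd h hS⟩
  choose τ hτ hτ' using hall
  obtain ⟨S0, -, hS0⟩ := Finset.exists_min_image (Finset.univ : Finset (Finset (Fin m))) τ
    ⟨∅, Finset.mem_univ _⟩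
  refine ⟨m, V, τ S0, hτ S0, hVC, hCV, ?_, ?_⟩
  · intro j y hy y' hy'
    have h1 := Metric.mem_ball.1 (hVU j hy)
    have h2 := Metric.mem_ball.1 (hVU j hy')
    have h3 := dist_triangle_right y y' (e j)
    linarith
  · intro x
    by_contra hcon
    have hge : k + 2 ≤ {j | ∃ y ∈ V j, dist x y ≤ τ S0}.ncard := by omega
    rw [Set.ncard_eq_toFinset_card' _] at hge
    obtain ⟨S, hS, hcard⟩ := Finset.exists_subset_card_eq hge
    refine hτ' S hcard x fun j hj => ?_
    have hj' := hS hj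
    rw [Set.mem_toFinset] at hj'
    obtain ⟨y, hy, hxy⟩ := hj'
    exact ⟨y, hy, hxy.trans (hS0 S (Finset.mem_univ _))⟩

end LibBR40
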