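import Pool.Agent.LibBR40.T2

set_option autoImplicit false

/-! BR40 row T4 (MEDIUM).  Path subdivision.  You may use T2.

PLAN.  `t ↦ (γ t : Eu n)` is uniformly continuous on the compact interval: there is `m ≥ 1` such that
`dist (γ s) (γ t) < ε` for `|s - t| ≤ 1/m`.  With `t_i = i/m` the path `γ.subpath t_i t_{i+1}` (`Path.subpath`,
Mathlib/Topology/Subpath.lean) lies in the ball `Metric.ball (γ t_i) ε ⊆ X`, which is convex, so `T2_convex` gives
`P.a (γ.subpath t_i t_{i+1}) = P.a (segP (γ t_i) (γ t_{i+1}) _) = h (γ t_{i+1}) - h (γ t_i)`.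
By induction on `i` `P.a (γ.subpath 0 t_i) = h (γ t_i) - h (γ 0)` with `Path.Homotopy.subpathTransSubpath`
(`(γ.subpath t₀ t₁).trans (γ.subpath t₁ t₂)` is homotopic to `γ.subpath t₀ t₂`) and `PSys.tr`, `PSys.ho`.
Last step: `γ.subpath 0 1 = γ.cast ..` (`Path.subpath_zero_one`). -/

namespace LibBR40

variable {M : Type*} [AddCommGroup M] {n : ℕ} {X : Set (Eu n)}

private theorem T4_cast {Y : Type*} [TopologicalSpace Y] (P : PSys Y M) {x y x' y' : Y} (p : Path x y)
    (hx : x' = x) (hy : y' = y) : P.a (p.cast hx hy) = P.a p := by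
  subst hx
  subst hy
  rfl

theorem T4 (P : PSys X M) {y y' : X} (γ : Path y y') (ε : ℝ) (hε : 0 < ε)
    (hball : ∀ t, Metric.ball (γ t : Eu n) ε ⊆ X) (h : X → M)
    (hh : ∀ s t, ∀ H : segment ℝ (γ s : Eu n) (γ t) ⊆ X, dist (γ s : Eu n) (γ t) < ε →
      P.a (segP (γ s) (γ t) H) = h (γ t) - h (γ s)) :
    P.a γ = h y' - h y := by
  have hc : Continuous (fun t : unitInterval => (γ t : Eu n)) :=
    continuous_subtype_val.comp γ.continuous
  obtain ⟨δ, hδ, hu⟩ := Metric.uniformContinuous_iff.1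
    (CompactSpace.uniformContinuous_of_continuous hc) ε hε
  -- short pieces
  have key : ∀ s t : unitInterval, dist s t < δ →
      P.a (γ.subpath s t) = h (γ t) - h (γ s) := by
    intro s t hst
    have hZ : Convex ℝ (Metric.ball (γ s : Eu n) ε) := convex_ball _ _
    have hs : (γ s : Eu n) ∈ Metric.ball (γ s : Eu n) ε := Metric.mem_ball_self hε
    have ht : (γ t : Eu n) ∈ Metric.ball (γ s : Eu n) ε := by
      rw [Metric.mem_ball, dist_comm]
      exact hu hst
    have H : segment ℝ (γ s : Eu n) (γ t) ⊆ X := (hZ.segment_subset hs ht).trans (hball s)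
    rw [T2_convex P hZ (hball s) (γ.subpath s t) (segP (γ s) (γ t) H) ?_
      (fun τ => segP_mem hZ hs ht H τ)]
    · refine hh s t H ?_
      exact hu hst
    · intro τ
      have h1 : γ.subpath s t τ ∈ Set.range (γ.subpath s t) := ⟨τ, rfl⟩
      rw [Path.range_subpath] at h1
      obtain ⟨r, hr, hr'⟩ := h1
      rw [← hr', Metric.mem_ball, dist_comm]
      refine hu ?_
      have h2 : dist s r ≤ dist s t := by
        rw [Subtype.dist_eq, Subtype.dist_eq, Real.dist_eq, Real.dist_eq]
        rcases Set.mem_uIcc.1 hr with ⟨h3, h4⟩ | ⟨h3, h4⟩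
        · have h3' : (s : ℝ) ≤ r := h3
          have h4' : (r : ℝ) ≤ t := h4
          rw [abs_of_nonpos (by linarith), abs_of_nonpos (by linarith)]
          linarith
        · have h3' : (t : ℝ) ≤ r := h3
          have h4' : (r : ℝ) ≤ s := h4
          rw [abs_of_nonneg (by linarith), abs_of_nonneg (by linarith)]
          linarith
      exact h2.trans_lt hst
  obtain ⟨B, hB⟩ : ∃ B : unitInterval → M,
      ∀ t, B t = P.a (γ.subpath 0 t) - (h (γ t) - h (γ 0)) := ⟨_, fun _ => rfl⟩
  have hstep : ∀ s t : unitInterval, dist s t < δ → B t = B s := by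
    intro s t hst
    have h1 : P.a (γ.subpath 0 t) = P.a (γ.subpath 0 s) + P.a (γ.subpath s t) := by
      rw [← P.tr]
      exact (P.ho _ _ ⟨Path.Homotopy.subpathTransSubpath γ 0 s t⟩).symm
    rw [hB, hB, h1, key s t hst]
    abel
  have hloc : IsLocallyConstant B := by
    rw [IsLocallyConstant.iff_eventually_eq]
    intro s
    filter_upwards [Metric.ball_mem_nhds s hδ] with t ht
    refine hstep s t ?_
    rw [dist_comm]
    exact ht
  have h0 : B 0 = 0 := by
    rw [hB, Path.subpath_self, PSys_refl, sub_self, sub_self]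
  have h1 : B 1 = 0 := by
    rw [← h0]
    exact hloc.apply_eq_of_preconnectedSpace 1 0
  rw [hB, Path.subpath_zero_one, T4_cast, γ.source, γ.target] at h1
  exact sub_eq_zero.1 h1

end LibBR40
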